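import Pool.Agent.H981R2.Pairs

/-!
Unfolding of half-plane self-avoiding words into chains of bridges of decreasing widths.
-/

namespace H981

open scoped ENNReal

/-- strictly decreasing lists of positive integers, all at most `n` -/
def Dec : ℕ → List ℕ → Prop
  | _, [] => True
  | n, A :: α => 1 ≤ A ∧ A ≤ n ∧ Dec (A - 1) α

lemma Dec.mono {n m : ℕ} (h : n ≤ m) {α : List ℕ} (hα : Dec n α) : Dec m α := by
  cases α with
  | nil => trivial
  | cons A α => exact ⟨hα.1, hα.2.1.trans h, hα.2.2⟩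

/-- `ω` is the folded walk with first bridge `β` and remaining widths `α` -/
def HPc : List ℕ → List St → List St → Prop
  | [], β, ω => ω = β
  | A' :: α, β, ω => ∃ β' ω', ω = β ++ sg ω' ∧ IsBr A' β' ∧ NCg β β' ∧ HPc α β' ω'

lemma exists_last_max (ω : List St) : ∃ β ρ, ω = β ++ ρ ∧ (∀ u, u <+: β → dx u ≤ dx β) ∧
    (∀ v, v <+: ρ → v ≠ [] → dx v < 0) := by
  induction ω with
  | nil => exact ⟨[], [], rfl, fun u hu => by simp at hu; simp [hu], fun v hv h => by
      simp at hv; exact absurd hv h⟩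
  | cons s w ih =>
    obtain ⟨β, ρ, rfl, h1, h2⟩ := ih
    by_cases hs : 0 ≤ s.x + dx β
    · refine ⟨s :: β, ρ, rfl, ?_, h2⟩
      intro u hu
      rcases List.prefix_cons_iff.mp hu with rfl | ⟨t, rfl, ht⟩
      · simpa using hs
      · have := h1 t ht
        simp; omega
    · refine ⟨[], s :: (β ++ ρ), rfl, fun u hu => by simp at hu; simp [hu], ?_⟩
      intro v hv hv0
      rcases List.prefix_cons_iff.mp hv with rfl | ⟨t, rfl, ht⟩
      · exact absurd rfl hv0
      · rcases prefix_append_cases ht with h3 | ⟨v', h3, h4, rfl⟩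
        · have := h1 t h3
          simp; omega
        · have := h2 v' h3 h4
          simp; omega

theorem exists_unfold : ∀ n (ω : List St), ω.length = n → Saw ω → HP ω → ω ≠ [] →
    ∃ A α β, IsBr A β ∧ 1 ≤ A ∧ Dec (A - 1) α ∧ HPc α β ω ∧ A + α.sum ≤ ω.length ∧ β <+: ω := by
  intro n
  induction n using Nat.strong_induction_on with
  | _ n ih =>
  intro ω hn hS hH h0
  obtain ⟨β, ρ, hω, h1, h2⟩ := exists_last_max ω
  have hβ0 : β ≠ [] := by
    rintro rfl
    simp at hω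
    subst hω
    have := h2 ω (List.prefix_refl _) h0
    have := hH ω (List.prefix_refl _) h0
    omega
  have hpre : β <+: ω := ⟨ρ, hω.symm⟩
  have hpos := hH β hpre hβ0
  obtain ⟨A, hA⟩ : ∃ A : ℕ, dx β = A := ⟨(dx β).toNat, by omega⟩
  have hbr : IsBr A β := ⟨hS.subw hpre.isInfix, hH.prew hpre, fun u hu => by
    have := h1 u hu; omega, hA⟩
  have hlen := dx_le_length β
  by_cases hρ : ρ = []
  · subst hρ
    refine ⟨A, [], β, hbr, by omega, trivial, by simpa [HPc] using hω, ?_, hpre⟩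
    rw [hω]; simp; omega
  · set ω' := sg ρ with hω'
    have hρ' : ρ = sg ω' := by simp [hω']
    have hS' : Saw ω' := (hS.subw ⟨β, [], by simp [hω]⟩ : Saw ρ).sg
    have hH' : HP ω' := by
      intro v hv hv0
      have h3 : sg v <+: ρ := by
        have := hv.map St.sg
        change H981.sg v <+: H981.sg (H981.sg ρ) at this
        rwa [sg_sg] at this
      have := h2 _ h3 (by simpa using hv0)
      simp at this; omega
    have hl : ω'.length < n := by
      rw [← hn, hω]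
      have : 0 < β.length := List.length_pos_iff.mpr hβ0
      simp [hω']; exact this
    obtain ⟨A', α', β', g1, g2, g3, g4, g5, g6⟩ :=
      ih ω'.length hl ω' rfl hS' hH' (by simpa [hω'] using hρ)
    have hpre' : β ++ sg β' <+: ω := by
      obtain ⟨t, ht⟩ := g6
      exact ⟨sg t, by rw [hω, hρ', ← ht]; simp⟩
    have hAA : A' < A := by
      have := hH _ hpre' (by simp [hβ0])
      simp [hA, g1.dx] at this; omega
    refine ⟨A, A' :: α', β, hbr, by omega, ⟨g2, by omega, g3⟩, ?_, ?_, hpre⟩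
    · refine ⟨β', ω', by rw [hω, ← hρ'], g1, ?_, g4⟩
      intro m m' hm hm' e1 e2
      have hin : m ++ sg m' <:+: ω := by
        obtain ⟨s, hs⟩ := hm
        obtain ⟨t, ht⟩ := hm'
        obtain ⟨r, hr⟩ := hpre'
        exact ⟨s, sg t ++ r, by rw [← hr, ← hs, ← ht]; simp⟩
      have := hS _ hin (by simp; omega) (by simp; omega)
      simpa using this
    · rw [hω]
      simp
      have : ω'.length = ρ.length := by simp [hω']
      rw [this] at g5
      omega

/-- weight of chains continuing after `β` -/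
noncomputable def Wf (z : ℝ≥0∞) : List ℕ → List St → ℝ≥0∞
  | [], _ => 1
  | A' :: α, β => ∑' β', ind (IsBr A' β' ∧ NCg β β') * (z ^ β'.length * Wf z α β')

/-- weight of chains -/
noncomputable def W0 (z : ℝ≥0∞) : List ℕ → ℝ≥0∞
  | [] => 1
  | A :: α => ∑' β, ind (IsBr A β) * (z ^ β.length * Wf z α β)

lemma HPc_sum (z : ℝ≥0∞) (α : List ℕ) (β : List St) :
    ∑' ω, ind (HPc α β ω) * z ^ ω.length ≤ z ^ β.length * Wf z α β := by
  induction α generalizing β with
  | nil =>
    rw [tsum_eq_single β]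
    · simp [Wf, HPc, ind]
    · intro ω hω
      rw [ind_not, zero_mul]
      exact hω
  | cons A' α ih =>
    calc ∑' ω, ind (HPc (A' :: α) β ω) * z ^ ω.length
        ≤ ∑' q : LL, ind ((IsBr A' q.1 ∧ NCg β q.1) ∧ HPc α q.1 q.2)
            * (z ^ β.length * z ^ q.2.length) := by
          refine tsum_cover _ _ _ _ (fun q : LL => β ++ sg q.2) ?_
          rintro ω ⟨β', ω', h1, h2, h3, h4⟩
          refine ⟨(β', ω'), ⟨⟨h2, h3⟩, h4⟩, h1.symm, ?_⟩
          rw [h1]; simp [pow_add]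
      _ = ∑' β', z ^ β.length * (ind (IsBr A' β' ∧ NCg β β') *
            ∑' ω', ind (HPc α β' ω') * z ^ ω'.length) := by
          rw [ENNReal.tsum_prod']
          congr 1; ext β'
          rw [← ENNReal.tsum_mul_left, ← ENNReal.tsum_mul_left]
          congr 1; ext ω'
          rw [ind_and (_ ∧ _) _]; ring
      _ ≤ ∑' β', z ^ β.length * (ind (IsBr A' β' ∧ NCg β β') *
            (z ^ β'.length * Wf z α β')) := by
          apply ENNReal.tsum_le_tsum
          intro β'
          gcongr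
          exact ih β'
      _ = _ := by rw [ENNReal.tsum_mul_left]; rfl

lemma Wf_le_W0 (z : ℝ≥0∞) (α : List ℕ) (β : List St) : Wf z α β ≤ W0 z α := by
  cases α with
  | nil => exact le_rfl
  | cons A' α =>
    simp only [Wf, W0]
    apply ENNReal.tsum_le_tsum
    intro β'
    gcongr
    exact ind_mono fun h => h.1

lemma bb_le_BB (z : ℝ≥0∞) (a : ℕ) : bb z a ≤ BB z := by
  rw [BB_eq]; exact ENNReal.le_tsum _

lemma bb_mul_le (z : ℝ≥0∞) (a b : ℕ) : bb z a * bb z b ≤ bb z (a + b) := by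
  unfold bb
  rw [tsum_mul_tsum' (fun X => ind (IsBr a X) * z ^ X.length)
    (fun X => ind (IsBr b X) * z ^ X.length)]
  have : ∀ p : LL, ind (IsBr a p.1) * z ^ p.1.length * (ind (IsBr b p.2) * z ^ p.2.length)
      = ind (IsBr a p.1 ∧ IsBr b p.2) * (z ^ p.1.length * z ^ p.2.length) := by
    intro p; rw [ind_and]; ring
  simp_rw [this]
  refine tsum_inj _ _ _ _ (fun p : LL => p.1 ++ p.2) ?_ ?_ ?_
  · rintro ⟨X, Y⟩ ⟨U, V⟩ ⟨hX, hY⟩ ⟨hU, hV⟩ h
    have s1 : Spl a (X ++ Y) X Y := ⟨rfl, hX, hY.isB⟩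
    have s2 : Spl a (X ++ Y) U V := ⟨h, hU, hV.isB⟩
    obtain ⟨e1, e2⟩ := s1.unique s2
    rw [e1, e2]
  · rintro ⟨X, Y⟩ ⟨hX, hY⟩
    exact hX.append hY
  · rintro ⟨X, Y⟩ -
    simp [pow_add]

lemma bb_pow_le (z : ℝ≥0∞) (a k : ℕ) : bb z a ^ (k + 1) ≤ bb z ((k + 1) * a) := by
  induction k with
  | zero => simp
  | succ k ih =>
    calc bb z a ^ (k + 1 + 1) = bb z a ^ (k + 1) * bb z a := pow_succ _ _
      _ ≤ bb z ((k + 1) * a) * bb z a := by gcongr
      _ ≤ bb z ((k + 1) * a + a) := bb_mul_le _ _ _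
      _ = _ := by congr 1; ring

lemma bb_le_one {z : ℝ≥0∞} (hB : BB z ≠ ⊤) (a : ℕ) : bb z a ≤ 1 := by
  by_contra h
  push Not at h
  have h1 : Filter.Tendsto (fun n => bb z a ^ n) Filter.atTop (nhds ⊤) :=
    ENNReal.tendsto_pow_atTop_nhds_top_iff.mpr h
  have h2 : ∀ᶠ n in Filter.atTop, BB z < bb z a ^ n :=
    h1.eventually (lt_mem_nhds (lt_top_iff_ne_top.mpr hB))
  obtain ⟨n, hn⟩ := h2.exists_forall_of_atTop
  have h3 := hn (n + 1) (by omega)
  have h4 := (bb_pow_le z a n).trans (bb_le_BB z _)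
  exact absurd h3 (not_lt.mpr h4)

lemma W0_cons_le {z : ℝ≥0∞} (hB : BB z ≠ ⊤) (A : ℕ) (α : List ℕ) : W0 z (A :: α) ≤ W0 z α := by
  calc W0 z (A :: α) ≤ ∑' β, (ind (IsBr A β) * z ^ β.length) * W0 z α := by
        simp only [W0]
        apply ENNReal.tsum_le_tsum
        intro β
        rw [mul_assoc]
        gcongr
        exact Wf_le_W0 z α β
    _ = bb z A * W0 z α := by rw [ENNReal.tsum_mul_right]; rfl
    _ ≤ 1 * W0 z α := by gcongr; exact bb_le_one hB A
    _ = _ := one_mul _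

lemma W0_cons_cons_le {z : ℝ≥0∞} (A A' : ℕ) (α : List ℕ) :
    W0 z (A :: A' :: α) ≤ om z A A' * W0 z α := by
  calc W0 z (A :: A' :: α) = ∑' β, ind (IsBr A β) * (z ^ β.length *
        ∑' β', ind (IsBr A' β' ∧ NCg β β') * (z ^ β'.length * Wf z α β')) := rfl
    _ ≤ ∑' β, ind (IsBr A β) * (z ^ β.length *
        ∑' β', ind (IsBr A' β' ∧ NCg β β') * (z ^ β'.length * W0 z α)) := by
        gcongr with β β'
        exact Wf_le_W0 z α β'
    _ = _ := by
        unfold om
        rw [← ENNReal.tsum_mul_right, ENNReal.tsum_prod']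
        congr 1; ext β
        rw [← ENNReal.tsum_mul_left, ← ENNReal.tsum_mul_left]
        congr 1; ext β'
        simp only [len2, ind_and, pow_add]
        ring

/-- bound for non-crossing pairs -/
noncomputable def FF (z : ℝ≥0∞) (B : ℕ) : ℝ≥0∞ := 2 * z⁻¹ * vv z (B + 1)

lemma om_le_FF {z : ℝ≥0∞} (hz0 : z ≠ 0) (hzt : z ≠ ⊤) (hB : BB z ≠ ⊤) {A A' : ℕ} (hA' : 0 < A')
    (hAA : A' < A) : om z A A' ≤ FF z A' := by
  have h1 := om_le (z := z) hA' hAA
  have h2 : ff z A (A' + 1) ≤ vv z (A' + 1) := ff_le_vv hB (by omega)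
  calc om z A A' = z⁻¹ * (z * om z A A') := by
        rw [← mul_assoc, ENNReal.inv_mul_cancel hz0 hzt, one_mul]
    _ ≤ z⁻¹ * (2 * vv z (A' + 1)) := mul_le_mul' le_rfl (h1.trans (mul_le_mul' le_rfl h2))
    _ = _ := by unfold FF; ring

/-- product over the entries at even positions `2, 4, ...` -/
noncomputable def ee (F : ℕ → ℝ≥0∞) : List ℕ → ℝ≥0∞
  | [] => 1
  | [_] => 1
  | _ :: B :: α => F B * ee F α

lemma ee_mul (F : ℕ → ℝ≥0∞) (α : List ℕ) (A : ℕ) : ee F (A :: α) * ee F α = (α.map F).prod := by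
  induction α generalizing A with
  | nil => simp [ee]
  | cons B α ih =>
    have := ih B
    simp only [ee, List.map_cons, List.prod_cons]
    rw [← this]; ring

lemma W0_le_ee {z : ℝ≥0∞} (hz0 : z ≠ 0) (hzt : z ≠ ⊤) (hB : BB z ≠ ⊤) :
    ∀ (α : List ℕ) (n : ℕ), Dec n α → W0 z α ≤ ee (FF z) α
  | [], _, _ => le_rfl
  | [A], _, _ => by
      have := W0_cons_le hB A []
      simpa [W0, ee] using this
  | A :: B :: α, n, h => by
      obtain ⟨h1, h2, h3, h4, h5⟩ := h
      calc W0 z (A :: B :: α) ≤ om z A B * W0 z α := W0_cons_cons_le A B α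
        _ ≤ FF z B * ee (FF z) α := by
          gcongr
          · exact om_le_FF hz0 hzt hB (by omega) (by omega)
          · exact W0_le_ee hz0 hzt hB α _ h5
        _ = _ := rfl

lemma W0_sq_le {z : ℝ≥0∞} (hz0 : z ≠ 0) (hzt : z ≠ ⊤) (hB : BB z ≠ ⊤) (A n : ℕ) (α : List ℕ)
    (h : Dec n (A :: α)) : W0 z (A :: α) * W0 z (A :: α) ≤ (α.map (FF z)).prod := by
  rw [← ee_mul (FF z) α A]
  gcongr
  · exact W0_le_ee hz0 hzt hB _ n h
  · exact (W0_cons_le hB A α).trans (W0_le_ee hz0 hzt hB _ _ h.2.2)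

lemma le_of_mul_self_le {a b : ℝ≥0∞} (h : a * a ≤ b * b) : a ≤ b := by
  by_contra h'
  push Not at h'
  have := ENNReal.mul_lt_mul h' h'
  exact absurd h (not_le.mpr this)

/-- square root of `FF` -/
noncomputable def gg (z : ℝ≥0∞) (B : ℕ) : ℝ≥0∞ := (FF z B) ^ (1/2 : ℝ)

lemma prod_gg_sq (z : ℝ≥0∞) (α : List ℕ) :
    (α.map (gg z)).prod * (α.map (gg z)).prod = (α.map (FF z)).prod := by
  induction α with
  | nil => simp
  | cons B α ih =>
    simp only [List.map_cons, List.prod_cons]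
    rw [← ih]
    have := sq_rpow_half (FF z B)
    calc _ = (gg z B * gg z B) * ((α.map (gg z)).prod * (α.map (gg z)).prod) := by ring
      _ = _ := by unfold gg; rw [this]

lemma W0_le_prod {z : ℝ≥0∞} (hz0 : z ≠ 0) (hzt : z ≠ ⊤) (hB : BB z ≠ ⊤) (A n : ℕ) (α : List ℕ)
    (h : Dec n (A :: α)) : W0 z (A :: α) ≤ (α.map (gg z)).prod := by
  apply le_of_mul_self_le
  rw [prod_gg_sq]
  exact W0_sq_le hz0 hzt hB A n α h

/-- the sum over decreasing lists -/
noncomputable def DD (t : ℕ → ℝ≥0∞) (n : ℕ) : ℝ≥0∞ := ∑' α : List ℕ, ind (Dec n α) * (α.map t).prod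

lemma DD_mono (t : ℕ → ℝ≥0∞) {n m : ℕ} (h : n ≤ m) : DD t n ≤ DD t m := by
  unfold DD
  gcongr
  exact ind_mono fun h' => h'.mono h

lemma DD_succ (t : ℕ → ℝ≥0∞) (n : ℕ) : DD t (n + 1) ≤ (1 + t (n + 1)) * DD t n := by
  have h1 : DD t (n + 1) ≤ ∑' α : List ℕ, (ind (Dec n α) * (α.map t).prod +
      ind (∃ α', Dec n α' ∧ α = (n + 1) :: α') * (α.map t).prod) := by
    unfold DD
    apply ENNReal.tsum_le_tsum
    intro α
    rw [← add_mul]
    gcongr
    by_cases h : Dec (n + 1) α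
    · rw [ind_of h]
      by_cases h' : Dec n α
      · rw [ind_of h']; exact le_self_add
      · have : ∃ α', Dec n α' ∧ α = (n + 1) :: α' := by
          cases α with
          | nil => exact absurd trivial h'
          | cons A α =>
            obtain ⟨h1, h2, h3⟩ := h
            have hA : A = n + 1 := by
              by_contra hne
              exact h' ⟨h1, by omega, h3⟩
            subst hA
            exact ⟨α, by simpa using h3, rfl⟩
        rw [ind_of this]; exact le_add_self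
    · rw [ind_not h]; exact zero_le
  refine h1.trans ?_
  rw [ENNReal.tsum_add]
  have h2 : ∑' α : List ℕ, ind (∃ α', Dec n α' ∧ α = (n + 1) :: α') * (α.map t).prod
      ≤ ∑' α' : List ℕ, ind (Dec n α') * (t (n + 1) * (α'.map t).prod) := by
    refine tsum_cover _ _ _ _ (fun α' => (n + 1) :: α') ?_
    rintro α ⟨α', h3, rfl⟩
    exact ⟨α', h3, rfl, by simp⟩
  calc _ ≤ DD t n + ∑' α' : List ℕ, ind (Dec n α') * (t (n + 1) * (α'.map t).prod) :=
        add_le_add le_rfl h2
    _ = _ := by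
      have : ∑' α' : List ℕ, ind (Dec n α') * (t (n + 1) * (α'.map t).prod)
          = t (n + 1) * DD t n := by
        unfold DD
        rw [← ENNReal.tsum_mul_left]
        congr 1; ext α; ring
      rw [this]; ring

lemma DD_zero (t : ℕ → ℝ≥0∞) : DD t 0 = 1 := by
  unfold DD
  rw [tsum_eq_single []]
  · simp [Dec, ind]
  · intro α hα
    rw [ind_not, zero_mul]
    cases α with
    | nil => exact absurd rfl hα
    | cons A α => rintro ⟨h1, h2, -⟩; omega

lemma DD_le (t : ℕ → ℝ≥0∞) (n : ℕ) : DD t n ≤ ∏ B ∈ Finset.range n, (1 + t (B + 1)) := by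
  induction n with
  | zero => simp [DD_zero]
  | succ n ih =>
    rw [Finset.prod_range_succ, mul_comm]
    exact (DD_succ t n).trans (by gcongr)

/-- the number of half-plane self-avoiding words of length `n` -/
noncomputable def hh (n : ℕ) : ℝ≥0∞ := ∑' ω : List St, ind (Saw ω ∧ HP ω ∧ ω.length = n)

theorem hh_le {z : ℝ≥0∞} (hz0 : z ≠ 0) (hzt : z ≠ ⊤) (hB : BB z ≠ ⊤) {x : ℝ≥0∞} (hx : x ≤ 1)
    {N : ℕ} (hN : N ≠ 0) :
    hh N * (z * x) ^ N ≤ N * ∏ B ∈ Finset.range N, (1 + gg z (B + 1) * x ^ (B + 1)) := by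
  have h1 : hh N * (z * x) ^ N ≤ ∑' q : (ℕ × List ℕ) × LL,
      ind (((1 ≤ q.1.1 ∧ q.1.1 ≤ N) ∧ Dec (q.1.1 - 1) q.1.2) ∧ (IsBr q.1.1 q.2.1
        ∧ HPc q.1.2 q.2.1 q.2.2)) * (z ^ q.2.2.length * x ^ (q.1.1 + q.1.2.sum)) := by
    unfold hh
    rw [← ENNReal.tsum_mul_right]
    refine tsum_cover _ _ _ _ (fun q : (ℕ × List ℕ) × LL => q.2.2) ?_
    rintro ω ⟨h1, h2, h3⟩
    obtain ⟨A, α, β, g1, g2, g3, g4, g5, g6⟩ := exists_unfold _ ω rfl h1 h2 (by
      rintro rfl; simp at h3; exact hN h3.symm)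
    have g7 : A ≤ N := by omega
    refine ⟨((A, α), (β, ω)), ⟨⟨⟨g2, g7⟩, g3⟩, ⟨g1, g4⟩⟩, rfl, ?_⟩
    simp only
    rw [mul_pow, h3]
    refine mul_le_mul' le_rfl ?_
    rw [← h3]
    exact pow_le_pow_right_of_le_one' hx g5
  refine h1.trans ?_
  set t : ℕ → ℝ≥0∞ := fun B => gg z B * x ^ B with ht
  have hpt : ∀ α : List ℕ, (α.map t).prod = (α.map (gg z)).prod * x ^ α.sum := by
    intro α
    induction α with
    | nil => simp
    | cons B α ih =>
      rw [List.map_cons, List.prod_cons, ih, List.map_cons, List.prod_cons, List.sum_cons, pow_add]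
      change gg z B * x ^ B * _ = _
      ring
  calc ∑' q : (ℕ × List ℕ) × LL,
      ind (((1 ≤ q.1.1 ∧ q.1.1 ≤ N) ∧ Dec (q.1.1 - 1) q.1.2) ∧ (IsBr q.1.1 q.2.1
        ∧ HPc q.1.2 q.2.1 q.2.2)) * (z ^ q.2.2.length * x ^ (q.1.1 + q.1.2.sum))
      = ∑' (A : ℕ) (α : List ℕ), ind ((1 ≤ A ∧ A ≤ N) ∧ Dec (A - 1) α) * (x ^ (A + α.sum) *
          ∑' β, ind (IsBr A β) * ∑' ω, ind (HPc α β ω) * z ^ ω.length) := by
        rw [ENNReal.tsum_prod', ENNReal.tsum_prod']
        congr 1; ext A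
        congr 1; ext α
        rw [ENNReal.tsum_prod', ← ENNReal.tsum_mul_left, ← ENNReal.tsum_mul_left]
        congr 1; ext β
        rw [← ENNReal.tsum_mul_left, ← ENNReal.tsum_mul_left, ← ENNReal.tsum_mul_left]
        congr 1; ext ω
        simp only
        rw [ind_and (_ ∧ _) (_ ∧ _), ind_and (IsBr A β)]
        ring
    _ ≤ ∑' (A : ℕ) (α : List ℕ), ind ((1 ≤ A ∧ A ≤ N) ∧ Dec (A - 1) α) * (x ^ (A + α.sum) *
          W0 z (A :: α)) := by
        gcongr with A α
        simp only [W0]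
        gcongr with β
        exact HPc_sum z α β
    _ ≤ ∑' (A : ℕ) (α : List ℕ), ind (1 ≤ A ∧ A ≤ N) * (ind (Dec N α) * (α.map t).prod) := by
        apply ENNReal.tsum_le_tsum; intro A
        apply ENNReal.tsum_le_tsum; intro α
        by_cases h : (1 ≤ A ∧ A ≤ N) ∧ Dec (A - 1) α
        · have hD : Dec A (A :: α) := ⟨h.1.1, le_rfl, h.2⟩
          have h2 := W0_le_prod hz0 hzt hB A A α hD
          have hD2 : Dec N α := h.2.mono (by omega)
          rw [ind_of h, ind_of h.1, ind_of hD2, one_mul, one_mul, one_mul]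
          rw [hpt α, pow_add]
          calc x ^ A * x ^ α.sum * W0 z (A :: α) ≤ 1 * x ^ α.sum * (α.map (gg z)).prod := by
                gcongr
                exact pow_le_one' hx _
            _ = _ := by ring
        · rw [ind_not h, zero_mul]; exact zero_le
    _ = ∑' A : ℕ, ind (1 ≤ A ∧ A ≤ N) * DD t N := by
        congr 1; ext A
        rw [ENNReal.tsum_mul_left]; rfl
    _ = N * DD t N := by
        rw [ENNReal.tsum_mul_right]
        congr 1
        rw [tsum_eq_sum (s := Finset.Icc 1 N)]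
        · rw [Finset.sum_congr rfl (g := fun _ => (1:ℝ≥0∞))]
          · simp
          · intro A hA
            rw [Finset.mem_Icc] at hA
            exact ind_of hA
        · intro A hA
          rw [Finset.mem_Icc] at hA
          exact ind_not hA
    _ ≤ _ := by gcongr; exact DD_le t N

end H981
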