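import Pool.Agent.H981R2.Final2

/-!
Plain definitions of self-avoiding walks and bridges on `ℤ²` and the comparison with words.
-/

namespace H981

open Filter Topology


/-- `ω` is a self-avoiding walk with `n` steps on `ℤ²`, started at the origin. -/
def IsSAW (n : ℕ) (ω : Fin (n + 1) → ℤ × ℤ) : Prop :=
  ω 0 = (0, 0) ∧
  (∀ i : Fin n, |(ω i.succ).1 - (ω i.castSucc).1| + |(ω i.succ).2 - (ω i.castSucc).2| = 1) ∧
  Function.Injective ω

/-- the number of `n`-step self-avoiding walks on `ℤ²` started at the origin -/
noncomputable def C (n : ℕ) : ℕ := Nat.card {ω : Fin (n + 1) → ℤ × ℤ // IsSAW n ω}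

/-- the walk traced by a word -/
def path (w : List St) (i : ℕ) : ℤ × ℤ := (dx (w.take i), dy (w.take i))

lemma St_surj {a b : ℤ} (h : |a| + |b| = 1) : ∃ s : St, s.x = a ∧ s.y = b := by
  have ha : |a| ≤ 1 := by have := abs_nonneg b; omega
  have hb : |b| ≤ 1 := by have := abs_nonneg a; omega
  rw [abs_le] at ha hb
  obtain ⟨ha1, ha2⟩ := ha
  obtain ⟨hb1, hb2⟩ := hb
  interval_cases a <;> interval_cases b <;> simp at h
  · exact ⟨.W, rfl, rfl⟩
  · exact ⟨.S, rfl, rfl⟩
  · exact ⟨.N, rfl, rfl⟩
  · exact ⟨.E, rfl, rfl⟩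

lemma St_inj {s t : St} (h1 : s.x = t.x) (h2 : s.y = t.y) : s = t := by
  cases s <;> cases t <;> simp_all

lemma path_succ {w : List St} {i : ℕ} (h : i < w.length) :
    (path w (i + 1)).1 = (path w i).1 + (w[i]).x ∧ (path w (i + 1)).2 = (path w i).2 + (w[i]).y := by
  unfold path
  have h1 : w.take (i + 1) = w.take i ++ [w[i]] := List.take_succ_eq_append_getElem h
  rw [h1]
  constructor
  · rw [dx_append, dx_cons, dx_nil, add_zero]
  · rw [dy_append, dy_cons, dy_nil, add_zero]

lemma infix_iff_take_drop' {w m : List St} :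
    m <:+: w ↔ ∃ i j, i ≤ j ∧ j ≤ w.length ∧ w.take j = w.take i ++ m := by
  constructor
  · rintro ⟨s, t, rfl⟩
    refine ⟨s.length, s.length + m.length, by omega, by simp, ?_⟩
    have h1 : (s ++ m ++ t).take (s.length + m.length) = s ++ m := List.take_left' (by simp)
    have h2 : (s ++ m ++ t).take s.length = s := by
      rw [List.append_assoc]; exact List.take_left' rfl
    rw [h1, h2]
  · rintro ⟨i, j, -, -, h⟩
    refine ⟨w.take i, w.drop j, ?_⟩
    rw [← h, List.take_append_drop]

lemma saw_iff (n : ℕ) {w : List St} (hw : w.length = n) :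
    Saw w ↔ Function.Injective (fun i : Fin (n + 1) => path w i) := by
  constructor
  · intro h
    have key : ∀ i j : ℕ, i ≤ j → j ≤ n → path w i = path w j → i = j := by
      intro i j hij hj hp
      have h1 : w.take j = w.take i ++ (w.drop i).take (j - i) := by
        rw [← List.take_add]; congr 1; omega
      have h2 : (w.drop i).take (j - i) <:+: w :=
        infix_iff_take_drop'.mpr ⟨i, j, hij, by omega, h1⟩
      unfold path at hp
      rw [h1] at hp
      simp only [dx_append, dy_append, Prod.mk.injEq] at hp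
      have h3 := h _ h2 (by omega) (by omega)
      have h4 := congrArg List.length h3
      simp at h4
      omega
    intro i j hij
    apply Fin.ext
    rcases le_total (i : ℕ) j with h1 | h1
    · exact key i j h1 (by omega) hij
    · exact (key j i h1 (by omega) hij.symm).symm
  · intro h m hm h1 h2
    obtain ⟨i, j, hij, hj, h3⟩ := infix_iff_take_drop'.mp hm
    have h4 : (⟨i, by omega⟩ : Fin (n + 1)) = ⟨j, by omega⟩ := by
      apply h
      simp only [path]
      rw [h3]
      simp [h1, h2]
    have h5 : i = j := by simpa using h4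
    subst h5
    have := congrArg List.length h3
    simp at this
    exact this

/-- the word of a walk -/
theorem exists_word' (n : ℕ) (ω : Fin (n + 1) → ℤ × ℤ) (h : IsSAW n ω) :
    ∃ w : List St, w.length = n ∧ ∀ i : Fin (n + 1), path w i = ω i := by
  obtain ⟨h0, h1, -⟩ := h
  choose f hf using fun i : Fin n => St_surj (h1 i)
  refine ⟨List.ofFn f, by simp, ?_⟩
  intro i
  induction i using Fin.induction with
  | zero => simp [path, h0]
  | succ i ih =>
    have hi : (i : ℕ) < (List.ofFn f).length := by simp
    have h2 := path_succ hi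
    have h3 : (List.ofFn f)[(i : ℕ)] = f i := by simp
    rw [h3, (hf i).1, (hf i).2] at h2
    simp only [Fin.val_castSucc] at ih
    rw [ih] at h2
    rw [Fin.val_succ]
    apply Prod.ext
    · rw [h2.1]; ring
    · rw [h2.2]; ring

lemma path_injective {n : ℕ} {w w' : List St} (hw : w.length = n) (hw' : w'.length = n)
    (h : ∀ i : Fin (n + 1), path w i = path w' i) : w = w' := by
  apply List.ext_getElem (by omega)
  intro i h1 h2
  have e1 := path_succ h1
  have e2 := path_succ h2
  have g1 := h ⟨i, by omega⟩
  have g2 := h ⟨i + 1, by omega⟩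
  simp only at g1 g2
  rw [g1, g2] at e1
  apply St_inj
  · have := e1.1.symm.trans e2.1; omega
  · have := e1.2.symm.trans e2.2; omega

theorem card_eq (n : ℕ) : C n = Nat.card {w : List St // Saw w ∧ w.length = n} := by
  unfold C
  symm
  apply Nat.card_eq_of_bijective
    (f := fun w : {w : List St // Saw w ∧ w.length = n} =>
      (⟨fun i => path w.1 i, by
        refine ⟨by simp [path], ?_, (saw_iff n w.2.2).mp w.2.1⟩
        intro i
        have hi : (i : ℕ) < w.1.length := by rw [w.2.2]; exact i.2
        have h2 := path_succ hi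
        simp only [Fin.val_succ, Fin.val_castSucc]
        rw [h2.1, h2.2]
        cases w.1[(i : ℕ)] <;> simp⟩ : {ω : Fin (n + 1) → ℤ × ℤ // IsSAW n ω}))
  constructor
  · intro w w' h
    apply Subtype.ext
    apply path_injective w.2.2 w'.2.2
    intro i
    have := congrArg Subtype.val h
    exact congrFun this i
  · rintro ⟨ω, hω⟩
    obtain ⟨w, hw, h⟩ := exists_word' n ω hω
    refine ⟨⟨w, ?_, hw⟩, ?_⟩
    · rw [saw_iff n hw]
      have : (fun i : Fin (n + 1) => path w i) = ω := funext h
      rw [this]; exact hω.2.2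
    · exact Subtype.ext (funext h)

theorem tsum_ind_eq_card {α : Type*} (P : α → Prop) (h : ∑' a, ind (P a) ≠ ⊤) :
    (∑' a, ind (P a)).toReal = Nat.card {a // P a} := by
  classical
  have h1 : ∑' a, ind (P a) = ∑' a : ({a | P a} : Set α), (1 : ENNReal) := by
    rw [tsum_subtype {a | P a} (fun _ => (1 : ENNReal))]
    refine tsum_congr fun a => ?_
    by_cases ha : P a <;> simp [ind, ha]
  rw [h1] at h ⊢
  rw [ENNReal.tsum_set_one] at h ⊢
  have hfin : ({a | P a} : Set α).Finite := by
    rw [← Set.encard_ne_top_iff]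
    intro h2; rw [h2] at h; simp at h
  have : (({a | P a} : Set α).encard : ENat) = (Nat.card {a // P a} : ℕ) := by
    rw [hfin.encard_eq_coe_toFinset_card]
    congr 1
    rw [← Set.ncard_eq_toFinset_card _ hfin]
    exact (Nat.card_coe_set_eq {a | P a}).symm
  rw [this]
  simp

theorem cr'_eq (n : ℕ) : cr' n = C n := by
  rw [card_eq]
  unfold cr' cc
  exact tsum_ind_eq_card _ (cc_ne_top n)


/-- `ω` is an `n`-step bridge on `ℤ²`, started at the origin: a self-avoiding walk with
`0 < x(ω i) ≤ x(ω n)` for `i ≥ 1`. -/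
def IsBridge (n : ℕ) (ω : Fin (n + 1) → ℤ × ℤ) : Prop :=
  IsSAW n ω ∧ ∀ i : Fin (n + 1), i ≠ 0 → 0 < (ω i).1 ∧ (ω i).1 ≤ (ω (Fin.last n)).1

/-- the number of `n`-step bridges on `ℤ²` started at the origin -/
noncomputable def B (n : ℕ) : ℕ := Nat.card {ω : Fin (n + 1) → ℤ × ℤ // IsBridge n ω}

lemma isB_iff {n : ℕ} {w : List St} (hw : w.length = n) :
    IsB w ↔ Saw w ∧ ∀ i : Fin (n + 1), i ≠ 0 → 0 < (path w i).1 ∧
      (path w i).1 ≤ (path w (Fin.last n)).1 := by
  have hlast : path w ((Fin.last n : Fin (n + 1)) : ℕ) = (dx w, dy w) := by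
    simp [path, ← hw]
  constructor
  · intro h
    refine ⟨h.br.saw, ?_⟩
    intro i hi
    have hi0 : 0 < (i : ℕ) := Nat.pos_of_ne_zero fun h' => hi (Fin.ext h')
    rw [hlast]
    refine ⟨?_, ?_⟩
    · refine h.br.hp _ (List.take_prefix _ _) ?_
      intro h3
      have := congrArg List.length h3
      rw [List.length_take, List.length_nil] at this
      have := i.2
      omega
    · have := h.br.le (List.take_prefix (i : ℕ) w)
      rw [h.wd_eq_dx] at this
      exact this
  · rintro ⟨hS, h⟩
    have hpre : ∀ u, u <+: w → u = w.take u.length := fun u hu => (List.prefix_iff_eq_take.mp hu)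
    have h0 : 0 ≤ dx w := by
      rcases Nat.eq_zero_or_pos n with h1 | h1
      · have : w = [] := List.length_eq_zero_iff.mp (by omega)
        simp [this]
      · have h2 := (h (Fin.last n) (by
          intro h3
          have := congrArg Fin.val h3
          simp at this; omega)).1
        rw [hlast] at h2
        exact h2.le
    have hwd : (wd w : ℤ) = dx w := by unfold wd; omega
    have key : ∀ u, u <+: w → u ≠ [] → 0 < dx u ∧ dx u ≤ dx w := by
      intro u hu hu0
      have hl := hu.length_le
      have hl0 : 0 < u.length := List.length_pos_iff.mpr hu0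
      have h2 := h ⟨u.length, by omega⟩ (by
        intro h3
        have := congrArg Fin.val h3
        simp at this; exact hu0 this)
      rw [hlast] at h2
      simp only [path] at h2
      rw [← hpre u hu] at h2
      exact h2
    refine ⟨wd w, hS, fun u hu hu0 => (key u hu hu0).1, ?_, hwd.symm⟩
    intro u hu
    rw [hwd]
    by_cases hu0 : u = []
    · subst hu0; simpa using h0
    · exact (key u hu hu0).2

theorem B_card_eq (n : ℕ) : B n = Nat.card {w : List St // IsB w ∧ w.length = n} := by
  unfold B
  symm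
  apply Nat.card_eq_of_bijective
    (f := fun w : {w : List St // IsB w ∧ w.length = n} =>
      (⟨fun i => path w.1 i, by
        have h1 := (isB_iff w.2.2).mp w.2.1
        refine ⟨⟨by simp [path], ?_, (saw_iff n w.2.2).mp h1.1⟩, h1.2⟩
        intro i
        have hi : (i : ℕ) < w.1.length := by rw [w.2.2]; exact i.2
        have h2 := path_succ hi
        simp only [Fin.val_succ, Fin.val_castSucc]
        rw [h2.1, h2.2]
        cases w.1[(i : ℕ)] <;> simp⟩ : {ω : Fin (n + 1) → ℤ × ℤ // IsBridge n ω}))
  constructor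
  · intro w w' h
    apply Subtype.ext
    apply path_injective w.2.2 w'.2.2
    intro i
    have := congrArg Subtype.val h
    exact congrFun this i
  · rintro ⟨ω, hω⟩
    obtain ⟨w, hw, h⟩ := exists_word' n ω hω.1
    refine ⟨⟨w, ?_, hw⟩, ?_⟩
    · rw [isB_iff hw]
      have h1 : (fun i : Fin (n + 1) => path w i) = ω := funext h
      refine ⟨?_, ?_⟩
      · rw [saw_iff n hw, h1]; exact hω.1.2.2
      · intro i hi
        rw [h i, h (Fin.last n)]
        exact hω.2 i hi
    · exact Subtype.ext (funext h)

theorem br'_eq (n : ℕ) : br' n = B n := by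
  rw [B_card_eq]
  unfold br'
  have h := bn_ne_top n
  rw [bn_eq] at h ⊢
  exact tsum_ind_eq_card _ h

end H981
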