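import Pool.Agent.H981R2.PolyLog
import Pool.Agent.H981R2.Plain
import Pool.Agent.H977R3.Sum

/-!
Quasi-polynomial bounds: assembly.
-/

namespace H981

open scoped ENNReal
open PowerSeries

lemma Es_bound {N : ℕ} (hN : 2 ≤ N) {W : ℕ} (hW1 : 1 ≤ W) (hW : W ≤ 2 * N) :
    LeT N (Es W) (cst (ENNReal.ofReal (400032 * Real.log N ^ 4)) * Us (8 * W)) := by
  intro n hn
  rw [coeff_cst_mul]
  refine (Pool.Agent.H977R3.coeff_Es_le n W).trans ?_
  refine mul_le_mul' (ENNReal.ofReal_le_ofReal ?_) le_rfl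
  have hNr : (2 : ℝ) ≤ N := by exact_mod_cast hN
  have hl2 := log_two_gt'
  have hlN : Real.log 2 ≤ Real.log N := Real.log_le_log (by norm_num) hNr
  obtain ⟨L, hL⟩ : ∃ L, L = Real.log N := ⟨_, rfl⟩
  have hL1 : 1 / 2 ≤ L := by rw [hL]; linarith
  have h1 : Real.log (n : ℝ) ≤ L := by
    rw [hL]
    rcases Nat.eq_zero_or_pos n with rfl | hn0
    · simp; linarith
    · exact Real.log_le_log (by exact_mod_cast hn0) (by exact_mod_cast hn)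
  have h2 : ((Nat.log 2 (2 * W) : ℕ) : ℝ) + 2 ≤ 10 * L := by
    have e1 : ((Nat.log 2 (2 * W) : ℕ) : ℝ) * Real.log 2 ≤ Real.log (2 * W : ℕ) := by
      rw [← Real.log_pow]
      apply Real.log_le_log (by positivity)
      exact_mod_cast Nat.pow_log_le_self 2 (by omega : 2 * W ≠ 0)
    have e2 : Real.log ((2 * W : ℕ) : ℝ) ≤ Real.log (4 * N) := by
      apply Real.log_le_log (by exact_mod_cast (by omega : 0 < 2 * W))
      have : ((2 * W : ℕ) : ℝ) ≤ ((4 * N : ℕ) : ℝ) := by exact_mod_cast (by omega : 2 * W ≤ 4 * N)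
      push_cast at this ⊢
      linarith
    have e3 : Real.log (4 * N) = 2 * Real.log 2 + L := by
      rw [Real.log_mul (by norm_num) (by positivity), hL]
      have : Real.log 4 = 2 * Real.log 2 := by
        rw [show (4 : ℝ) = 2 ^ 2 by norm_num, Real.log_pow]; push_cast; ring
      rw [this]
    have e4 : ((Nat.log 2 (2 * W) : ℕ) : ℝ) * Real.log 2 ≤ 2 * Real.log 2 + L := by linarith
    nlinarith
  have h3 : 0 ≤ ((Nat.log 2 (2 * W) : ℕ) : ℝ) + 2 := by positivity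
  have h4 : (((Nat.log 2 (2 * W) : ℕ) : ℝ) + 2) ^ 3 ≤ (10 * L) ^ 3 := pow_le_pow_left₀ h3 h2 3
  have h5 : 1 + 3 * Real.log (n : ℝ) ≤ 5 * L := by linarith
  have h6 : 0 ≤ 1 + 3 * Real.log (n : ℝ) := by
    have : 0 ≤ Real.log (n : ℝ) := Real.log_natCast_nonneg n
    linarith
  have h7 : (1 : ℝ) ≤ 16 * L ^ 4 := by
    have : (1 / 2 : ℝ) ^ 4 ≤ L ^ 4 := pow_le_pow_left₀ (by norm_num) hL1 4
    nlinarith
  calc 2 + 80 * (((Nat.log 2 (2 * W) : ℕ) : ℝ) + 2) ^ 3 * (1 + 3 * Real.log (n : ℝ))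
      ≤ 2 + 80 * (10 * L) ^ 3 * (5 * L) := by gcongr
    _ ≤ 400032 * L ^ 4 := by nlinarith
    _ = _ := by rw [hL]

theorem RB9 : ∃ K : ℝ, 0 ≤ K ∧ RB K 9 :=
  RB_of_T (C := 400032) (by norm_num) (k := 4) (by norm_num)
    (fun _ hN _ h1 h2 => Es_bound hN h1 h2)

theorem cr'_upper9 : ∃ K : ℝ, 0 ≤ K ∧ ∀ N : ℕ, 2 ≤ N →
    cr' N ≤ mu ^ N * Real.exp (K * Real.log N ^ 9) := by
  obtain ⟨K, hK, h⟩ := RB9
  exact cr'_upper_log (by norm_num) hK h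

theorem br'_lower9 : ∃ K : ℝ, 0 ≤ K ∧ ∀ N : ℕ, 2 ≤ N →
    mu ^ N * Real.exp (- (K * Real.log N ^ 9)) ≤ br' N := by
  obtain ⟨K, hK, h⟩ := RB9
  exact br'_lower_log (by norm_num) hK h

theorem PP_bounds9 : ∃ K : ℝ, 0 ≤ K ∧ ∀ N : ℕ, 2 ≤ N →
    mu ^ (2 * N) * Real.exp (-(K * Real.log N ^ 9)) ≤ PP N ∧
    PP N ≤ mu ^ (2 * N) * Real.exp (K * Real.log N ^ 9) := by
  obtain ⟨K, hK, h⟩ := RB9
  exact PP_bounds_log (by norm_num) hK h

end H981
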