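import Pool.Agent.H981R2.Plain

/-!
Polygons from bridges: rotating a bridge to an extremal point with respect to the line through
its end points, and gluing a walk above the line to a walk below the line.
-/

namespace H981

open scoped ENNReal

/-- bridges with given length and end point -/
noncomputable def bah (n : ℕ) (a h : ℤ) : ℝ≥0∞ :=
  ∑' u : List St, ind ((IsB u ∧ u.length = n) ∧ (dx u = a ∧ dy u = h)) * 1

/-- position relative to the line through the end points -/
def lv (a h : ℤ) (u : List St) : ℤ := a * dy u - h * dx u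

lemma lv_append (a h : ℤ) (u v : List St) : lv a h (u ++ v) = lv a h u + lv a h v := by
  simp [lv]; ring

@[simp] lemma lv_nil (a h : ℤ) : lv a h [] = 0 := by simp [lv]

lemma lv_self {a h : ℤ} {u : List St} (h1 : dx u = a) (h2 : dy u = h) : lv a h u = 0 := by
  simp [lv, h1, h2]; ring

/-- walks weakly above the line -/
def Abv (n : ℕ) (a h : ℤ) (w : List St) : Prop :=
  (Saw w ∧ w.length = n) ∧ (dx w = a ∧ dy w = h) ∧ ∀ u, u <+: w → 0 ≤ lv a h u

/-- walks weakly below the line -/
def Blw (n : ℕ) (a h : ℤ) (w : List St) : Prop :=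
  (Saw w ∧ w.length = n) ∧ (dx w = a ∧ dy w = h) ∧ ∀ u, u <+: w → lv a h u ≤ 0

noncomputable def ab (n : ℕ) (a h : ℤ) : ℝ≥0∞ := ∑' w : List St, ind (Abv n a h w) * 1
noncomputable def be (n : ℕ) (a h : ℤ) : ℝ≥0∞ := ∑' w : List St, ind (Blw n a h w) * 1

lemma saw_rot {β : List St} (h : IsB β) (i : ℕ) : Saw (β.drop i ++ β.take i) := by
  have h1 : IsB (β ++ β) := h.append h
  refine h1.br.saw.subw ⟨β.take i, β.drop i, ?_⟩
  rw [← List.append_assoc, List.take_append_drop, List.append_assoc, List.take_append_drop]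

lemma rot_back {β γ : List St} {i : ℕ} (hl : β.length = γ.length)
    (h : β.drop i ++ β.take i = γ.drop i ++ γ.take i) : β = γ := by
  obtain ⟨h1, h2⟩ := List.append_inj h (by simp [hl])
  rw [← List.take_append_drop i β, ← List.take_append_drop i γ, h1, h2]

lemma exists_min_rot {n : ℕ} {a h : ℤ} {β : List St} (hB : IsB β) (hn : β.length = n)
    (h1 : dx β = a) (h2 : dy β = h) : ∃ i, i < n + 1 ∧ Abv n a h (β.drop i ++ β.take i) := by
  obtain ⟨i, hi, hmin⟩ := Finset.exists_min_image (Finset.range (n + 1))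
    (fun i => lv a h (β.take i)) ⟨0, by simp⟩
  rw [Finset.mem_range] at hi
  refine ⟨i, hi, ⟨saw_rot hB i, by simp; omega⟩, ⟨?_, ?_⟩, ?_⟩
  · rw [dx_append, add_comm, ← dx_append, List.take_append_drop, h1]
  · rw [dy_append, add_comm, ← dy_append, List.take_append_drop, h2]
  · intro u hu
    have hz : lv a h β = 0 := lv_self h1 h2
    have hsplit : lv a h (β.take i) + lv a h (β.drop i) = 0 := by
      rw [← lv_append, List.take_append_drop, hz]
    rcases prefix_append_cases hu with h3 | ⟨v, h3, h4, rfl⟩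
    · have h5 : β.take i ++ u = β.take (i + u.length) := by
        have h6 : u = (β.drop i).take u.length := List.prefix_iff_eq_take.mp h3
        conv_lhs => rw [h6]
        rw [← List.take_add]
      have h7 := h3.length_le
      rw [List.length_drop] at h7
      have h8 := hmin (i + u.length) (by
        rw [Finset.mem_range]; omega)
      rw [← h5, lv_append] at h8
      omega
    · have h5 : v = β.take v.length := by
        have h6 : v = (β.take i).take v.length := List.prefix_iff_eq_take.mp h3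
        rw [List.take_take] at h6
        have h7 := h3.length_le
        rw [List.length_take] at h7
        rw [min_eq_left (by omega)] at h6
        exact h6
      have h7 := h3.length_le
      rw [List.length_take] at h7
      have h8 := hmin v.length (by rw [Finset.mem_range]; omega)
      rw [← h5] at h8
      rw [lv_append]
      omega

lemma exists_max_rot {n : ℕ} {a h : ℤ} {β : List St} (hB : IsB β) (hn : β.length = n)
    (h1 : dx β = a) (h2 : dy β = h) : ∃ i, i < n + 1 ∧ Blw n a h (β.drop i ++ β.take i) := by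
  obtain ⟨i, hi, hmin⟩ := Finset.exists_max_image (Finset.range (n + 1))
    (fun i => lv a h (β.take i)) ⟨0, by simp⟩
  rw [Finset.mem_range] at hi
  refine ⟨i, hi, ⟨saw_rot hB i, by simp; omega⟩, ⟨?_, ?_⟩, ?_⟩
  · rw [dx_append, add_comm, ← dx_append, List.take_append_drop, h1]
  · rw [dy_append, add_comm, ← dy_append, List.take_append_drop, h2]
  · intro u hu
    have hz : lv a h β = 0 := lv_self h1 h2
    have hsplit : lv a h (β.take i) + lv a h (β.drop i) = 0 := by
      rw [← lv_append, List.take_append_drop, hz]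
    rcases prefix_append_cases hu with h3 | ⟨v, h3, h4, rfl⟩
    · have h5 : β.take i ++ u = β.take (i + u.length) := by
        have h6 : u = (β.drop i).take u.length := List.prefix_iff_eq_take.mp h3
        conv_lhs => rw [h6]
        rw [← List.take_add]
      have h7 := h3.length_le
      rw [List.length_drop] at h7
      have h8 := hmin (i + u.length) (by
        rw [Finset.mem_range]; omega)
      rw [← h5, lv_append] at h8
      omega
    · have h5 : v = β.take v.length := by
        have h6 : v = (β.take i).take v.length := List.prefix_iff_eq_take.mp h3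
        rw [List.take_take] at h6
        have h7 := h3.length_le
        rw [List.length_take] at h7
        rw [min_eq_left (by omega)] at h6
        exact h6
      have h7 := h3.length_le
      rw [List.length_take] at h7
      have h8 := hmin v.length (by rw [Finset.mem_range]; omega)
      rw [← h5] at h8
      rw [lv_append]
      omega

lemma nat_mul_tsum {α : Type*} (k : ℕ) (P : α → Prop) :
    (k : ℝ≥0∞) * ∑' a, ind (P a) * 1 = ∑' q : ℕ × α, ind (q.1 < k ∧ P q.2) * 1 := by
  rw [ENNReal.tsum_prod', tsum_eq_sum (s := Finset.range k)]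
  · rw [Finset.sum_congr rfl (g := fun _ => ∑' a, ind (P a) * 1)]
    · rw [Finset.sum_const, Finset.card_range, nsmul_eq_mul]
    · intro m hm
      rw [Finset.mem_range] at hm
      congr 1; ext x
      simp only
      rw [ind_and, ind_of hm, one_mul]
  · intro m hm
    rw [Finset.mem_range] at hm
    simp only
    have : ∀ x, ind (m < k ∧ P x) * 1 = 0 := fun x => by
      rw [ind_and, ind_not hm, zero_mul, zero_mul]
    simp_rw [this]; simp

theorem bah_le_ab (n : ℕ) (a h : ℤ) : bah n a h ≤ ((n + 1 : ℕ) : ℝ≥0∞) * ab n a h := by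
  unfold ab bah
  rw [nat_mul_tsum]
  have hex : ∀ β : List St, ∃ i, (IsB β ∧ β.length = n) ∧ (dx β = a ∧ dy β = h) →
      (i < n + 1 ∧ Abv n a h (β.drop i ++ β.take i)) := by
    intro β
    by_cases hβ : (IsB β ∧ β.length = n) ∧ (dx β = a ∧ dy β = h)
    · obtain ⟨i, hi⟩ := exists_min_rot hβ.1.1 hβ.1.2 hβ.2.1 hβ.2.2
      exact ⟨i, fun _ => hi⟩
    · exact ⟨0, fun h' => absurd h' hβ⟩
  choose i hi using hex
  refine tsum_inj _ _ _ _ (fun β => (i β, β.drop (i β) ++ β.take (i β))) ?_ ?_ ?_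
  · intro β γ hβ hγ heq
    rw [Prod.mk.injEq] at heq
    obtain ⟨e1, e2⟩ := heq
    rw [← e1] at e2
    exact rot_back (hβ.1.2.trans hγ.1.2.symm) e2
  · intro β hβ
    exact hi β hβ
  · intro β _
    exact le_rfl

theorem bah_le_be (n : ℕ) (a h : ℤ) : bah n a h ≤ ((n + 1 : ℕ) : ℝ≥0∞) * be n a h := by
  unfold be bah
  rw [nat_mul_tsum]
  have hex : ∀ β : List St, ∃ i, (IsB β ∧ β.length = n) ∧ (dx β = a ∧ dy β = h) →
      (i < n + 1 ∧ Blw n a h (β.drop i ++ β.take i)) := by
    intro β
    by_cases hβ : (IsB β ∧ β.length = n) ∧ (dx β = a ∧ dy β = h)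
    · obtain ⟨i, hi⟩ := exists_max_rot hβ.1.1 hβ.1.2 hβ.2.1 hβ.2.2
      exact ⟨i, fun _ => hi⟩
    · exact ⟨0, fun h' => absurd h' hβ⟩
  choose i hi using hex
  refine tsum_inj _ _ _ _ (fun β => (i β, β.drop (i β) ++ β.take (i β))) ?_ ?_ ?_
  · intro β γ hβ hγ heq
    rw [Prod.mk.injEq] at heq
    obtain ⟨e1, e2⟩ := heq
    rw [← e1] at e2
    exact rot_back (hβ.1.2.trans hγ.1.2.symm) e2
  · intro β hβ
    exact hi β hβ
  · intro β _
    exact le_rfl

/-! ### closed loops -/

/-- rooted oriented self-avoiding closed loops with `m` steps through the origin -/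
def IsLoop (m : ℕ) (f : ZMod m → ℤ × ℤ) : Prop :=
  f 0 = 0 ∧ Function.Injective f ∧
    ∀ i : ZMod m, |(f (i+1)).1 - (f i).1| + |(f (i+1)).2 - (f i).2| = 1

lemma pf_adj {w : List St} {i : ℕ} (h : i < w.length) :
    |(pf w (i + 1)).1 - (pf w i).1| + |(pf w (i + 1)).2 - (pf w i).2| = 1 := by
  obtain ⟨h1, h2⟩ := pf_succ h
  rw [h1, h2]
  cases w[i] <;> simp

/-- the loop made of a walk above and a walk below the line -/
def glue (n : ℕ) (w₁ w₂ : List St) : ZMod (2 * (n + 1)) → ℤ × ℤ := fun i =>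
  if i.val = 0 then (0, 0)
  else if i.val ≤ n + 1 then ((pf w₁ (i.val - 1)).1, (pf w₁ (i.val - 1)).2 + 1)
  else pf w₂ (2 * n + 2 - i.val)

lemma lv_pf (a h : ℤ) (w : List St) (i : ℕ) :
    a * (pf w i).2 - h * (pf w i).1 = lv a h (w.take i) := rfl

lemma pf_inj_on {w : List St} (hS : Saw w) {i j : ℕ} (hi : i ≤ w.length) (hj : j ≤ w.length)
    (h : pf w i = pf w j) : i = j := (saw_pf hS).inj i j hi hj h

theorem glue_loop {n : ℕ} (hn : 1 ≤ n) {a h : ℤ} (ha : 0 < a) {w₁ w₂ : List St}
    (h1 : Abv n a h w₁) (h2 : Blw n a h w₂) : IsLoop (2 * (n + 1)) (glue n w₁ w₂) := by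
  obtain ⟨⟨S1, L1⟩, ⟨X1, Y1⟩, A1⟩ := h1
  obtain ⟨⟨S2, L2⟩, ⟨X2, Y2⟩, B2⟩ := h2
  have hA : ∀ k, 0 ≤ a * (pf w₁ k).2 - h * (pf w₁ k).1 := fun k => A1 _ (List.take_prefix _ _)
  have hB : ∀ k, a * (pf w₂ k).2 - h * (pf w₂ k).1 ≤ 0 := fun k => B2 _ (List.take_prefix _ _)
  have : NeZero (2 * (n + 1)) := ⟨by omega⟩
  have hlt : ∀ i : ZMod (2 * (n + 1)), i.val < 2 * (n + 1) := fun i => ZMod.val_lt i
  refine ⟨by simp [glue], ?_, ?_⟩
  · intro i j hij
    apply ZMod.val_injective
    have hi := hlt i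
    have hj := hlt j
    have up : ∀ k, (glue n w₁ w₂ k) = ((pf w₁ (k.val - 1)).1, (pf w₁ (k.val - 1)).2 + 1) →
        0 < a * (glue n w₁ w₂ k).2 - h * (glue n w₁ w₂ k).1 := by
      intro k hk
      rw [hk]
      have := hA (k.val - 1)
      simp only
      nlinarith
    by_cases i0 : i.val = 0
    · have gi : glue n w₁ w₂ i = (0, 0) := by simp [glue, i0]
      by_cases j0 : j.val = 0
      · omega
      · by_cases j1 : j.val ≤ n + 1
        · have gj : glue n w₁ w₂ j = ((pf w₁ (j.val - 1)).1, (pf w₁ (j.val - 1)).2 + 1) := by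
            simp [glue, j0, j1]
          have := up j gj
          rw [← hij, gi] at this
          simp at this
        · have gj : glue n w₁ w₂ j = pf w₂ (2 * n + 2 - j.val) := by simp [glue, j0, j1]
          have : pf w₂ 0 = pf w₂ (2 * n + 2 - j.val) := by rw [pf_zero, ← gj, ← hij, gi]
          have := pf_inj_on S2 (by omega) (by omega) this
          omega
    · by_cases i1 : i.val ≤ n + 1
      · have gi : glue n w₁ w₂ i = ((pf w₁ (i.val - 1)).1, (pf w₁ (i.val - 1)).2 + 1) := by
          simp [glue, i0, i1]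
        have hup := up i gi
        by_cases j0 : j.val = 0
        · have gj : glue n w₁ w₂ j = (0, 0) := by simp [glue, j0]
          rw [hij, gj] at hup
          simp at hup
        · by_cases j1 : j.val ≤ n + 1
          · have gj : glue n w₁ w₂ j = ((pf w₁ (j.val - 1)).1, (pf w₁ (j.val - 1)).2 + 1) := by
              simp [glue, j0, j1]
            rw [gi, gj, Prod.mk.injEq] at hij
            have : pf w₁ (i.val - 1) = pf w₁ (j.val - 1) := Prod.ext hij.1 (by omega)
            have := pf_inj_on S1 (by omega) (by omega) this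
            omega
          · have gj : glue n w₁ w₂ j = pf w₂ (2 * n + 2 - j.val) := by simp [glue, j0, j1]
            rw [hij, gj] at hup
            have := hB (2 * n + 2 - j.val)
            omega
      · have gi : glue n w₁ w₂ i = pf w₂ (2 * n + 2 - i.val) := by simp [glue, i0, i1]
        by_cases j0 : j.val = 0
        · have gj : glue n w₁ w₂ j = (0, 0) := by simp [glue, j0]
          have : pf w₂ 0 = pf w₂ (2 * n + 2 - i.val) := by rw [pf_zero, ← gi, hij, gj]
          have := pf_inj_on S2 (by omega) (by omega) this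
          omega
        · by_cases j1 : j.val ≤ n + 1
          · have gj : glue n w₁ w₂ j = ((pf w₁ (j.val - 1)).1, (pf w₁ (j.val - 1)).2 + 1) := by
              simp [glue, j0, j1]
            have hup := up j gj
            rw [← hij, gi] at hup
            have := hB (2 * n + 2 - i.val)
            omega
          · have gj : glue n w₁ w₂ j = pf w₂ (2 * n + 2 - j.val) := by simp [glue, j0, j1]
            rw [gi, gj] at hij
            have := pf_inj_on S2 (by omega) (by omega) hij
            omega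
  · intro i
    have hi := hlt i
    have hval : (i + 1).val = (i.val + 1) % (2 * (n + 1)) := by
      rw [ZMod.val_add, ZMod.val_one_eq_one_mod, Nat.mod_eq_of_lt (by omega : 1 < 2 * (n + 1))]
    rcases Nat.lt_or_ge (i.val + 1) (2 * (n + 1)) with hlast | hlast
    · rw [Nat.mod_eq_of_lt hlast] at hval
      have n0 : ¬ (i + 1).val = 0 := by omega
      by_cases i0 : i.val = 0
      · have gi : glue n w₁ w₂ i = (0, 0) := by simp [glue, i0]
        have gj : glue n w₁ w₂ (i + 1) = (0, 1) := by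
          have : (i + 1).val ≤ n + 1 := by omega
          simp only [glue, n0, this, if_false, if_true]
          rw [hval, i0]
          simp [pf_zero]
        rw [gi, gj]; simp
      · by_cases i1 : i.val ≤ n
        · have gi : glue n w₁ w₂ i = ((pf w₁ (i.val - 1)).1, (pf w₁ (i.val - 1)).2 + 1) := by
            have : i.val ≤ n + 1 := by omega
            simp [glue, i0, this]
          have gj : glue n w₁ w₂ (i + 1) =
              ((pf w₁ (i.val - 1 + 1)).1, (pf w₁ (i.val - 1 + 1)).2 + 1) := by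
            have : (i + 1).val ≤ n + 1 := by omega
            simp only [glue, n0, this, if_false, if_true]
            rw [hval]
            have : i.val + 1 - 1 = i.val - 1 + 1 := by omega
            rw [this]
          rw [gi, gj]
          have := pf_adj (w := w₁) (i := i.val - 1) (by omega)
          simpa using this
        · by_cases i2 : i.val = n + 1
          · have gi : glue n w₁ w₂ i = (a, h + 1) := by
              simp only [glue, i0, i2, if_false, if_true, le_refl]
              have : n + 1 - 1 = n := by omega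
              rw [this, ← L1, pf_ge le_rfl, X1, Y1]
              simp
            have gj : glue n w₁ w₂ (i + 1) = (a, h) := by
              have : ¬ (i + 1).val ≤ n + 1 := by omega
              simp only [glue, n0, this, if_false]
              rw [hval, i2]
              have : 2 * n + 2 - (n + 1 + 1) = n := by omega
              rw [this, ← L2, pf_ge le_rfl, X2, Y2]
            rw [gi, gj]; simp
          · have gi : glue n w₁ w₂ i = pf w₂ (2 * n + 2 - (i.val + 1) + 1) := by
              have : ¬ i.val ≤ n + 1 := by omega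
              simp only [glue, i0, this, if_false]
              congr 1; omega
            have gj : glue n w₁ w₂ (i + 1) = pf w₂ (2 * n + 2 - (i.val + 1)) := by
              have : ¬ (i + 1).val ≤ n + 1 := by omega
              simp only [glue, n0, this, if_false]
              rw [hval]
            rw [gi, gj]
            have := pf_adj (w := w₂) (i := 2 * n + 2 - (i.val + 1)) (by omega)
            rw [abs_sub_comm, abs_sub_comm (pf w₂ (2 * n + 2 - (i.val + 1))).2]
            exact this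
    · have hi' : i.val = 2 * n + 1 := by omega
      have hz : (i + 1).val = 0 := by
        rw [hval, hi']
        have : 2 * n + 1 + 1 = 2 * (n + 1) := by ring
        rw [this, Nat.mod_self]
      have gj : glue n w₁ w₂ (i + 1) = pf w₂ 0 := by simp [glue, hz, pf_zero]
      have gi : glue n w₁ w₂ i = pf w₂ (0 + 1) := by
        have h3 : ¬ i.val = 0 := by omega
        have h4 : ¬ i.val ≤ n + 1 := by omega
        simp only [glue, h3, h4, if_false]
        congr 1; omega
      rw [gi, gj]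
      have := pf_adj (w := w₂) (i := 0) (by omega)
      rw [abs_sub_comm, abs_sub_comm (pf w₂ 0).2]
      exact this

lemma glue_inj {n : ℕ} {w₁ w₂ v₁ v₂ : List St} (hw1 : w₁.length = n) (hw2 : w₂.length = n)
    (hv1 : v₁.length = n) (hv2 : v₂.length = n) (h : glue n w₁ w₂ = glue n v₁ v₂) :
    w₁ = v₁ ∧ w₂ = v₂ := by
  have : NeZero (2 * (n + 1)) := ⟨by omega⟩
  have hval : ∀ k : ℕ, k < 2 * (n + 1) → ((k : ZMod (2 * (n + 1)))).val = k := fun k hk => by
    rw [ZMod.val_natCast, Nat.mod_eq_of_lt hk]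
  constructor
  · apply pf_inj (by omega)
    have key : ∀ k, k ≤ n → pf w₁ k = pf v₁ k := by
      intro k hk
      have h1 := congrFun h ((k + 1 : ℕ) : ZMod (2 * (n + 1)))
      simp only [glue, hval (k + 1) (by omega)] at h1
      have h2 : ¬ (k + 1 = 0) := by omega
      have h3 : k + 1 ≤ n + 1 := by omega
      simp only [h2, h3, if_false, if_true, Nat.add_sub_cancel, Prod.mk.injEq] at h1
      exact Prod.ext h1.1 (by omega)
    funext k
    rcases le_total k n with hk | hk
    · exact key k hk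
    · have h1 := key n le_rfl
      rw [pf_ge (by omega), pf_ge (by omega)] at h1
      rw [pf_ge (by omega), pf_ge (by omega), h1]
  · apply pf_inj (by omega)
    have key : ∀ k, k ≤ n → pf w₂ k = pf v₂ k := by
      intro k hk
      rcases Nat.eq_zero_or_pos k with rfl | hk0
      · rw [pf_zero, pf_zero]
      · have h1 := congrFun h ((2 * n + 2 - k : ℕ) : ZMod (2 * (n + 1)))
        simp only [glue, hval (2 * n + 2 - k) (by omega)] at h1
        have h2 : ¬ (2 * n + 2 - k = 0) := by omega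
        have h3 : ¬ (2 * n + 2 - k ≤ n + 1) := by omega
        have h4 : 2 * n + 2 - (2 * n + 2 - k) = k := by omega
        simp only [h2, h3, if_false, h4] at h1
        exact h1
    funext k
    rcases le_total k n with hk | hk
    · exact key k hk
    · have h1 := key n le_rfl
      rw [pf_ge (by omega), pf_ge (by omega)] at h1
      rw [pf_ge (by omega), pf_ge (by omega), h1]

/-- number of loops -/
noncomputable def lp (m : ℕ) : ℝ≥0∞ := ∑' f : ZMod m → ℤ × ℤ, ind (IsLoop m f)

theorem ab_mul_be_le {n : ℕ} (hn : 1 ≤ n) {a h : ℤ} (ha : 0 < a) :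
    ab n a h * be n a h ≤ lp (2 * (n + 1)) := by
  unfold ab be lp
  rw [tsum_mul_tsum' (fun w => ind (Abv n a h w) * 1) (fun w => ind (Blw n a h w) * 1)]
  have h1 : ∀ p : LL, ind (Abv n a h p.1) * 1 * (ind (Blw n a h p.2) * 1) =
      ind (Abv n a h p.1 ∧ Blw n a h p.2) * 1 := by
    intro p; rw [ind_and]; ring
  have h2 : ∀ f : ZMod (2 * (n + 1)) → ℤ × ℤ, ind (IsLoop (2 * (n + 1)) f) =
      ind (IsLoop (2 * (n + 1)) f) * 1 := fun f => (mul_one _).symm
  simp_rw [h1]
  calc _ ≤ ∑' f : ZMod (2 * (n + 1)) → ℤ × ℤ, ind (IsLoop (2 * (n + 1)) f) * 1 := by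
        refine tsum_inj _ _ _ _ (fun p : LL => glue n p.1 p.2) ?_ ?_ ?_
        · rintro ⟨w₁, w₂⟩ ⟨v₁, v₂⟩ ⟨a1, a2⟩ ⟨b1, b2⟩ heq
          simp only at a1 a2 b1 b2 heq
          obtain ⟨e1, e2⟩ := glue_inj a1.1.2 a2.1.2 b1.1.2 b2.1.2 heq
          rw [e1, e2]
        · rintro ⟨w₁, w₂⟩ ⟨a1, a2⟩
          exact glue_loop hn ha a1 a2
        · intro p _
          exact le_rfl
    _ = _ := by simp

theorem bah_sq_le {n : ℕ} (hn : 1 ≤ n) {a h : ℤ} (ha : 0 < a) :
    bah n a h * bah n a h ≤ (((n + 1) * (n + 1) : ℕ) : ℝ≥0∞) * lp (2 * (n + 1)) := by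
  calc bah n a h * bah n a h ≤ (((n + 1 : ℕ) : ℝ≥0∞) * ab n a h) * (((n + 1 : ℕ) : ℝ≥0∞) * be n a h) :=
        mul_le_mul' (bah_le_ab n a h) (bah_le_be n a h)
    _ = (((n + 1) * (n + 1) : ℕ) : ℝ≥0∞) * (ab n a h * be n a h) := by push_cast; ring
    _ ≤ _ := by gcongr; exact ab_mul_be_le hn ha

lemma abs_dy_le (w : List St) : |dy w| ≤ w.length := by
  induction w with
  | nil => simp
  | cons s w ih =>
    rw [dy_cons, List.length_cons]
    rw [abs_le] at ih ⊢
    push_cast
    cases s <;> simp <;> omega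

/-- pigeonhole -/
theorem exists_bah {n : ℕ} (hn : 1 ≤ n) : ∃ a h : ℤ, 0 < a ∧
    bn n ≤ ((n * (2 * n + 1) : ℕ) : ℝ≥0∞) * bah n a h := by
  classical
  set S := Finset.Icc (1 : ℤ) n ×ˢ Finset.Icc (-(n : ℤ)) n with hS
  have hcard : S.card = n * (2 * n + 1) := by
    rw [hS, Finset.card_product, Int.card_Icc, Int.card_Icc]
    congr 1
    · simp
    · omega
  have hne : S.Nonempty := ⟨(1, 0), by
    rw [hS, Finset.mem_product, Finset.mem_Icc, Finset.mem_Icc]
    simp; omega⟩
  obtain ⟨p, hp, hmax⟩ := Finset.exists_max_image S (fun p => bah n p.1 p.2) hne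
  refine ⟨p.1, p.2, ?_, ?_⟩
  · rw [hS, Finset.mem_product, Finset.mem_Icc] at hp
    omega
  · have h1 : bn n ≤ ∑ q ∈ S, bah n q.1 q.2 := by
      unfold bah
      rw [bn_eq, ← Summable.tsum_finsetSum (fun _ _ => ENNReal.summable)]
      apply ENNReal.tsum_le_tsum
      intro u
      by_cases hu : IsB u ∧ u.length = n
      · have h2 := hu.1.br.hp u (List.prefix_refl _) (by
          rintro rfl; simp at hu; omega)
        have h3 := dx_le_length u
        have h4 := abs_dy_le u
        rw [hu.2] at h3 h4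
        rw [abs_le] at h4
        have hmem : (dx u, dy u) ∈ S := by
          rw [hS, Finset.mem_product, Finset.mem_Icc, Finset.mem_Icc]
          simp only
          omega
        calc ind (IsB u ∧ u.length = n)
            = ind ((IsB u ∧ u.length = n) ∧ (dx u = (dx u, dy u).1 ∧ dy u = (dx u, dy u).2)) * 1 := by
              rw [mul_one]; congr 1; simp
          _ ≤ _ := Finset.single_le_sum (f := fun q : ℤ × ℤ =>
              ind ((IsB u ∧ u.length = n) ∧ (dx u = q.1 ∧ dy u = q.2)) * 1)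
              (fun _ _ => zero_le) hmem
      · rw [ind_not hu]; exact zero_le
    calc bn n ≤ ∑ q ∈ S, bah n q.1 q.2 := h1
      _ ≤ ∑ _q ∈ S, bah n p.1 p.2 := Finset.sum_le_sum fun q hq => hmax q hq
      _ = _ := by rw [Finset.sum_const, hcard, nsmul_eq_mul]

/-- **bridges and loops** -/
theorem bn_sq_le {n : ℕ} (hn : 1 ≤ n) :
    bn n * bn n ≤ (((n * (2 * n + 1)) * (n * (2 * n + 1)) * ((n + 1) * (n + 1)) : ℕ) : ℝ≥0∞) *
      lp (2 * (n + 1)) := by
  obtain ⟨a, h, ha, hb⟩ := exists_bah hn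
  calc bn n * bn n ≤ (((n * (2 * n + 1) : ℕ) : ℝ≥0∞) * bah n a h) *
        (((n * (2 * n + 1) : ℕ) : ℝ≥0∞) * bah n a h) := mul_le_mul' hb hb
    _ = ((n * (2 * n + 1) * (n * (2 * n + 1)) : ℕ) : ℝ≥0∞) * (bah n a h * bah n a h) := by
        push_cast; ring
    _ ≤ ((n * (2 * n + 1) * (n * (2 * n + 1)) : ℕ) : ℝ≥0∞) *
        ((((n + 1) * (n + 1) : ℕ) : ℝ≥0∞) * lp (2 * (n + 1))) := by
        exact mul_le_mul' le_rfl (bah_sq_le hn ha)
    _ = _ := by push_cast; ring

/-- loops are at most as many as walks -/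
theorem lp_le_cc (n : ℕ) : lp (2 * (n + 1)) ≤ cc (2 * n + 1) := by
  have : NeZero (2 * (n + 1)) := ⟨by omega⟩
  unfold lp cc
  have h1 : ∑' f : ZMod (2 * (n + 1)) → ℤ × ℤ, ind (IsLoop (2 * (n + 1)) f) =
      ∑' f : ZMod (2 * (n + 1)) → ℤ × ℤ, ind (IsLoop (2 * (n + 1)) f) * 1 := by simp
  have h2 : ∑' w : List St, ind (Saw w ∧ w.length = 2 * n + 1) =
      ∑' w : List St, ind (Saw w ∧ w.length = 2 * n + 1) * 1 := by simp
  rw [h1, h2]
  have hval : ∀ k : ℕ, k < 2 * (n + 1) → ((k : ZMod (2 * (n + 1)))).val = k := fun k hk => by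
    rw [ZMod.val_natCast, Nat.mod_eq_of_lt hk]
  refine tsum_cover _ _ _ _ (fun w : List St => fun i : ZMod (2 * (n + 1)) => pf w i.val) ?_
  rintro f ⟨h0, hinj, hadj⟩
  obtain ⟨w, hw, hpw⟩ := exists_word' (2 * n + 1) (fun i => f ((i : ℕ) : ZMod (2 * (n + 1))))
    ⟨by simp [h0]; rfl, by
      intro i
      have := hadj ((i : ℕ) : ZMod (2 * (n + 1)))
      simpa using this, by
      intro i j hij
      have h3 := hinj hij
      have h4 := congrArg ZMod.val h3
      rw [hval _ (by omega), hval _ (by omega)] at h4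
      exact Fin.ext h4⟩
  refine ⟨w, ⟨?_, hw⟩, ?_, le_rfl⟩
  · rw [saw_iff (2 * n + 1) hw]
    have : (fun i : Fin (2 * n + 1 + 1) => path w i) =
        fun i : Fin (2 * n + 1 + 1) => f ((i : ℕ) : ZMod (2 * (n + 1))) := funext hpw
    rw [this]
    intro i j hij
    have h3 := hinj hij
    have h4 := congrArg ZMod.val h3
    rw [hval _ (by omega), hval _ (by omega)] at h4
    exact Fin.ext h4
  · funext i
    have hi := ZMod.val_lt i
    have h3 := hpw ⟨i.val, by omega⟩
    simp only [ZMod.natCast_zmod_val] at h3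
    exact h3

theorem lp_ne_top (n : ℕ) : lp (2 * (n + 1)) ≠ ⊤ :=
  ne_top_of_le_ne_top (cc_ne_top (2 * n + 1)) (lp_le_cc n)

/-- the number of polygons with `2 n` edges, up to translation -/
noncomputable def PP (n : ℕ) : ℝ := (Nat.card {f : ZMod (2 * n) → ℤ × ℤ // IsLoop (2 * n) f} : ℝ) /
  (4 * (n : ℝ))

lemma PP_eq (n : ℕ) : PP (n + 1) = (lp (2 * (n + 1))).toReal / (4 * ((n : ℝ) + 1)) := by
  unfold PP
  have h := tsum_ind_eq_card (fun f : ZMod (2 * (n + 1)) → ℤ × ℤ => IsLoop (2 * (n + 1)) f)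
    (lp_ne_top n)
  unfold lp
  rw [h]
  push_cast
  rfl

lemma PP_upper {n : ℕ} : PP (n + 1) ≤ cr' (2 * n + 1) := by
  rw [PP_eq]
  have h1 : (lp (2 * (n + 1))).toReal ≤ cr' (2 * n + 1) :=
    ENNReal.toReal_mono (cc_ne_top _) (lp_le_cc n)
  have h2 : 0 ≤ (lp (2 * (n + 1))).toReal := ENNReal.toReal_nonneg
  calc _ ≤ (lp (2 * (n + 1))).toReal := by
        apply div_le_self h2
        have : (0 : ℝ) ≤ n := by positivity
        linarith
    _ ≤ _ := h1

lemma PP_lower {n : ℕ} (hn : 1 ≤ n) : br' n ^ 2 ≤ 16 * ((n : ℝ) + 1) ^ 7 * PP (n + 1) := by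
  rw [PP_eq]
  have h1 := ENNReal.toReal_mono (ENNReal.mul_ne_top (ENNReal.natCast_ne_top _) (lp_ne_top n))
    (bn_sq_le hn)
  rw [ENNReal.toReal_mul, ENNReal.toReal_mul, ENNReal.toReal_natCast] at h1
  have h2 : 0 ≤ (lp (2 * (n + 1))).toReal := ENNReal.toReal_nonneg
  set L := (lp (2 * (n + 1))).toReal
  have hn0 : (1 : ℝ) ≤ n := by exact_mod_cast hn
  have h3 : 16 * ((n : ℝ) + 1) ^ 7 * (L / (4 * ((n : ℝ) + 1))) = 4 * ((n : ℝ) + 1) ^ 6 * L := by
    field_simp
    ring
  rw [h3]
  calc br' n ^ 2 = (bn n).toReal * (bn n).toReal := by unfold br'; ring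
    _ ≤ _ := h1
    _ ≤ _ := by
      gcongr
      push_cast
      have h4 : (n : ℝ) * (2 * n + 1) ≤ 2 * ((n : ℝ) + 1) ^ 2 := by nlinarith
      have h5 : 0 ≤ (n : ℝ) * (2 * n + 1) := by positivity
      calc (n : ℝ) * (2 * n + 1) * (n * (2 * n + 1)) * ((n + 1) * (n + 1))
          ≤ (2 * ((n : ℝ) + 1) ^ 2) * (2 * ((n : ℝ) + 1) ^ 2) * ((n + 1) * (n + 1)) := by gcongr
        _ = _ := by ring

/-- **Theorem**: polygons. -/
theorem PP_bounds {ε : ℝ} (hε : 0 < ε) : ∃ K : ℝ, 0 ≤ K ∧ ∀ N : ℕ, 2 ≤ N →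
    mu ^ (2 * N) * Real.exp (-(K * (N : ℝ) ^ ε)) ≤ PP N ∧
    PP N ≤ mu ^ (2 * N) * Real.exp (K * (N : ℝ) ^ ε) := by
  obtain ⟨K₁, hK₁, h1⟩ := br'_lower_eps hε
  obtain ⟨K₂, hK₂, h2⟩ := cr'_upper_eps hε
  have hlm : 0 ≤ Real.log mu := Real.log_nonneg one_le_mu
  refine ⟨2 * K₁ + (2 * Real.log mu + 3 + 7 / ε) + K₂ * 2 ^ ε, by positivity, ?_⟩
  intro N hN
  obtain ⟨n, rfl⟩ := Nat.exists_eq_succ_of_ne_zero (by omega : N ≠ 0)
  have hn : 1 ≤ n := by omega
  have hnr : (1 : ℝ) ≤ n := by exact_mod_cast hn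
  have hmu := one_le_mu
  have hmu0 := mu_pos
  set y : ℝ := ((n + 1 : ℕ) : ℝ) ^ ε with hy
  have hN0 : (0 : ℝ) < ((n + 1 : ℕ) : ℝ) := by positivity
  have hN1 : (1 : ℝ) ≤ ((n + 1 : ℕ) : ℝ) := by push_cast; linarith
  have hy1 : 1 ≤ y := Real.one_le_rpow hN1 hε.le
  have hny : (n : ℝ) ^ ε ≤ y := by
    rw [hy]
    apply Real.rpow_le_rpow (by positivity) _ hε.le
    push_cast; linarith
  constructor
  · have h3 := PP_lower hn
    have h4 := h1 n hn
    have h5 : mu ^ (2 * n) * Real.exp (-(2 * K₁ * y)) ≤ br' n ^ 2 := by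
      calc mu ^ (2 * n) * Real.exp (-(2 * K₁ * y)) = (mu ^ n * Real.exp (-(K₁ * y))) ^ 2 := by
            rw [mul_pow, ← pow_mul, mul_comm n 2, ← Real.exp_nat_mul]
            congr 2; push_cast; ring
        _ ≤ (mu ^ n * Real.exp (-(K₁ * (n : ℝ) ^ ε))) ^ 2 := by gcongr
        _ ≤ _ := pow_le_pow_left₀ (by positivity) h4 2
    have h6 : 16 * ((n : ℝ) + 1) ^ 7 * mu ^ 2 ≤ Real.exp ((2 * Real.log mu + 3 + 7 / ε) * y) := by
      have e1 : Real.log ((n + 1 : ℕ) : ℝ) ≤ y / ε := Real.log_le_rpow_div hN0.le hε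
      have e2 : (16 : ℝ) ≤ Real.exp 3 := by
        have h3 : (2.7:ℝ) ≤ Real.exp 1 := by
          have := Real.exp_one_gt_d9; linarith
        calc (16:ℝ) ≤ 2.7 ^ 3 := by norm_num
          _ ≤ (Real.exp 1) ^ 3 := by gcongr
          _ = Real.exp 3 := by rw [← Real.exp_nat_mul]; norm_num
      have e3 : ((n : ℝ) + 1) ^ 7 = Real.exp (7 * Real.log ((n + 1 : ℕ) : ℝ)) := by
        have : (7 : ℝ) = ((7 : ℕ) : ℝ) := by norm_num
        rw [this, Real.exp_nat_mul, Real.exp_log hN0]
        push_cast; rfl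
      have e4 : mu ^ 2 = Real.exp (2 * Real.log mu) := by
        have : (2 : ℝ) = ((2 : ℕ) : ℝ) := by norm_num
        rw [this, Real.exp_nat_mul, Real.exp_log hmu0]
      rw [e3, e4]
      calc 16 * Real.exp (7 * Real.log ((n + 1 : ℕ) : ℝ)) * Real.exp (2 * Real.log mu)
          ≤ Real.exp 3 * Real.exp (7 * Real.log ((n + 1 : ℕ) : ℝ)) * Real.exp (2 * Real.log mu) := by
            gcongr
        _ = Real.exp (3 + 7 * Real.log ((n + 1 : ℕ) : ℝ) + 2 * Real.log mu) := by
            rw [← Real.exp_add, ← Real.exp_add]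
        _ ≤ _ := by
            apply Real.exp_le_exp.mpr
            have f1 : 3 ≤ 3 * y := by linarith
            have f2 : 2 * Real.log mu ≤ 2 * Real.log mu * y := by nlinarith
            have f3 : 7 * Real.log ((n + 1 : ℕ) : ℝ) ≤ 7 / ε * y := by
              have : 7 / ε * y = 7 * (y / ε) := by ring
              rw [this]; linarith
            calc 3 + 7 * Real.log ((n + 1 : ℕ) : ℝ) + 2 * Real.log mu
                ≤ 3 * y + 7 / ε * y + 2 * Real.log mu * y := by linarith
              _ = _ := by ring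
    have hP0 : 0 ≤ PP (n + 1) := by unfold PP; positivity
    have h7 : mu ^ (2 * (n + 1)) * Real.exp (-(2 * K₁ * y)) ≤
        Real.exp ((2 * Real.log mu + 3 + 7 / ε) * y) * PP (n + 1) := by
      calc mu ^ (2 * (n + 1)) * Real.exp (-(2 * K₁ * y))
          = (mu ^ (2 * n) * Real.exp (-(2 * K₁ * y))) * mu ^ 2 := by ring
        _ ≤ (16 * ((n : ℝ) + 1) ^ 7 * PP (n + 1)) * mu ^ 2 :=
            mul_le_mul_of_nonneg_right (h5.trans h3) (by positivity)
        _ = (16 * ((n : ℝ) + 1) ^ 7 * mu ^ 2) * PP (n + 1) := by ring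
        _ ≤ _ := by gcongr
    calc mu ^ (2 * (n + 1)) *
          Real.exp (-((2 * K₁ + (2 * Real.log mu + 3 + 7 / ε) + K₂ * 2 ^ ε) * y))
        ≤ mu ^ (2 * (n + 1)) * Real.exp (-(2 * K₁ * y) - (2 * Real.log mu + 3 + 7 / ε) * y) := by
          gcongr
          have : 0 ≤ K₂ * 2 ^ ε * y := by positivity
          linarith
      _ = (mu ^ (2 * (n + 1)) * Real.exp (-(2 * K₁ * y))) *
            Real.exp (-((2 * Real.log mu + 3 + 7 / ε) * y)) := by
          rw [show -(2 * K₁ * y) - (2 * Real.log mu + 3 + 7 / ε) * y =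
            -(2 * K₁ * y) + -((2 * Real.log mu + 3 + 7 / ε) * y) by ring, Real.exp_add]
          ring
      _ ≤ (Real.exp ((2 * Real.log mu + 3 + 7 / ε) * y) * PP (n + 1)) *
            Real.exp (-((2 * Real.log mu + 3 + 7 / ε) * y)) := by gcongr
      _ = PP (n + 1) * (Real.exp ((2 * Real.log mu + 3 + 7 / ε) * y) *
            Real.exp (-((2 * Real.log mu + 3 + 7 / ε) * y))) := by ring
      _ = PP (n + 1) := by rw [← Real.exp_add, add_neg_cancel, Real.exp_zero, mul_one]
  · have h3 := PP_upper (n := n)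
    have h4 := h2 (2 * n + 1) (by omega)
    have h5 : ((2 * n + 1 : ℕ) : ℝ) ^ ε ≤ 2 ^ ε * y := by
      rw [hy, ← Real.mul_rpow (by norm_num) hN0.le]
      apply Real.rpow_le_rpow (by positivity) _ hε.le
      push_cast; linarith
    calc PP (n + 1) ≤ cr' (2 * n + 1) := h3
      _ ≤ mu ^ (2 * n + 1) * Real.exp (K₂ * ((2 * n + 1 : ℕ) : ℝ) ^ ε) := h4
      _ ≤ mu ^ (2 * (n + 1)) *
          Real.exp ((2 * K₁ + (2 * Real.log mu + 3 + 7 / ε) + K₂ * 2 ^ ε) * y) := by
          apply mul_le_mul (pow_le_pow_right₀ hmu (by omega)) (Real.exp_le_exp.mpr ?_)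
            (Real.exp_pos _).le (by positivity)
          calc K₂ * ((2 * n + 1 : ℕ) : ℝ) ^ ε ≤ K₂ * (2 ^ ε * y) :=
                mul_le_mul_of_nonneg_left h5 hK₂
            _ = K₂ * 2 ^ ε * y := by ring
            _ ≤ _ := by
              have : 0 ≤ (2 * K₁ + (2 * Real.log mu + 3 + 7 / ε)) * y := by positivity
              linarith

end H981
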