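import Pool.Agent.H981R2.FoldW

/-!
The sum over non-crossing pairs of bridges is at most `C W^ε` times the sum over bridges.
-/

namespace H981

open scoped ENNReal
open PowerSeries

lemma pf_inj {u v : List St} (hl : u.length = v.length) (h : pf u = pf v) : u = v := by
  apply List.ext_getElem hl
  intro i h1 h2
  have e1 := pf_succ h1
  have e2 := pf_succ h2
  rw [h] at e1
  have x1 := e1.1.symm.trans e2.1
  have x2 := e1.2.symm.trans e2.2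
  have a1 : (u[i]).x = (v[i]).x := by omega
  have a2 : (u[i]).y = (v[i]).y := by omega
  revert a1 a2
  cases u[i] <;> cases v[i] <;> simp

/-- non-crossing pairs -/
def PE (W : ℕ) (p : LL) : Prop :=
  (IsB p.1 ∧ wd p.1 ≤ W) ∧ ((IsB p.2 ∧ wd p.2 ≤ W) ∧ NCg p.1 p.2)

/-- non-crossing pairs of nonempty bridges, the first arriving upwards -/
def PU (W : ℕ) (p : LL) : Prop := PE W p ∧ p.2 ≠ [] ∧ ∃ X', p.1 = X' ++ [St.N]

lemma coeff_Es (W n : ℕ) : coeff n (Es W) =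
    ∑' p : LL, ind (PE W p ∧ (p.1 ++ p.2).length = n) * 1 := by
  have h1 : Es W = fs (fun p : LL => ii (PE W p) * xl (p.1 ++ p.2)) := by
    unfold Es Ns PE
    rw [fs_prod]
    apply fs_congr
    intro X
    rw [mul_fs, mul_fs]
    apply fs_congr
    intro Y
    simp only [xl_append]
    rw [ii_and (IsB X ∧ wd X ≤ W)]; ring
  rw [h1, coeff_fs]
  congr 1; ext p
  rw [coeff_ii_mul, coeff_xl, ind_and (PE W p), mul_one]

lemma JA_tsum (N W : ℕ) : ∑' q : (ℕ → ℤ × ℤ) × ℤ, ind (q.1 ∈ BrSet N W ∧ q.2 ∈ JA N W q.1) * 1 =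
    ((∑ w ∈ BrSet N W, (JA N W w).card : ℕ) : ℝ≥0∞) := by
  classical
  rw [ENNReal.tsum_prod']
  have h1 : ∀ w, ∑' m : ℤ, ind (w ∈ BrSet N W ∧ m ∈ JA N W w) * 1 =
      ind (w ∈ BrSet N W) * ((JA N W w).card : ℝ≥0∞) := by
    intro w
    rw [tsum_eq_sum (s := JA N W w)]
    · rw [Finset.sum_congr rfl (g := fun _ => ind (w ∈ BrSet N W))]
      · rw [Finset.sum_const, nsmul_eq_mul, mul_comm]
      · intro m hm
        rw [ind_and, ind_of hm, mul_one, mul_one]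
    · intro m hm
      rw [ind_and, ind_not hm, mul_zero, zero_mul]
  simp only
  simp_rw [h1]
  rw [tsum_eq_sum (s := BrSet N W)]
  · push_cast
    apply Finset.sum_congr rfl
    intro w hw
    rw [ind_of hw, one_mul]
  · intro w hw
    rw [ind_not hw, zero_mul]

lemma PU_le (N W : ℕ) : ∑' p : LL, ind (PU W p ∧ (p.1 ++ p.2).length = N) * 1 ≤
    ((∑ w ∈ BrSet N (2 * W), (JA N (2 * W) w).card : ℕ) : ℝ≥0∞) := by
  classical
  rw [← JA_tsum]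
  refine tsum_inj _ _ _ _ (fun p : LL => (pf (p.1 ++ p.2), (wd p.1 : ℤ))) ?_ ?_ ?_
  · rintro ⟨X, Y⟩ ⟨X', Y'⟩ ⟨⟨⟨⟨a1, a2⟩, ⟨a3, a4⟩, a5⟩, a6, a7⟩, a8⟩
      ⟨⟨⟨⟨b1, b2⟩, ⟨b3, b4⟩, b5⟩, b6, b7⟩, b8⟩ heq
    simp only at a1 a2 a3 a4 a5 a6 a7 a8 b1 b2 b3 b4 b5 b6 b7 b8 heq
    rw [Prod.mk.injEq] at heq
    obtain ⟨e1, e2⟩ := heq
    have e3 : X ++ Y = X' ++ Y' := pf_inj (a8.trans b8.symm) e1
    have e4 : wd X = wd X' := by exact_mod_cast e2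
    have s1 : Spl (wd X) (X ++ Y) X Y := ⟨rfl, a1.br, a3⟩
    have s2 : Spl (wd X) (X ++ Y) X' Y' := ⟨e3, by rw [e4]; exact b1.br, b3⟩
    obtain ⟨rfl, rfl⟩ := s1.unique s2
    rfl
  · rintro ⟨X, Y⟩ ⟨⟨⟨⟨a1, a2⟩, ⟨a3, a4⟩, a5⟩, a6, X', a7⟩, a8⟩
    simp only at a1 a2 a3 a4 a5 a6 a7 a8 ⊢
    have hX0 : X ≠ [] := by rw [a7]; simp
    have hcut := cut_pf a1 a3 a6
    rw [a8] at hcut
    have hct := Pool.Agent.H977R2.ct_eq hcut
    refine ⟨?_, ?_⟩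
    · rw [mem_BrSet]
      have h1 := fbr_pf (a1.br.append a3.br)
      rw [a8] at h1
      refine ⟨h1, ?_⟩
      rw [pf_ge a8.le]
      simp only [dx_append]
      have := a1.wd_eq_dx
      have := a3.wd_eq_dx
      push_cast
      omega
    · unfold JA
      simp only [Finset.mem_filter, Finset.mem_Icc]
      have := a1.wd_pos hX0
      refine ⟨⟨by omega, by push_cast; omega⟩, ?_⟩
      unfold FL
      rw [hct]
      refine ⟨hcut, ?_, ?_⟩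
      · rw [fl_pf a1]
        have h1 := saw_pf (saw_fold a1 a3 a5)
        have h2 : (X ++ sg Y).length = N := by
          rw [← a8]; simp
        rw [h2] at h1
        exact h1
      · rw [a7]
        exact up_pf
  · intro p _
    exact le_rfl

lemma PU_ng_le (N W : ℕ) : ∑' p : LL, ind ((PE W p ∧ p.2 ≠ [] ∧ ∃ X', p.1 = X' ++ [St.S]) ∧
    (p.1 ++ p.2).length = N) * 1 ≤ ∑' p : LL, ind (PU W p ∧ (p.1 ++ p.2).length = N) * 1 := by
  refine tsum_inj _ _ _ _ (fun p : LL => (ng p.1, ng p.2)) ?_ ?_ ?_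
  · rintro ⟨X, Y⟩ ⟨X', Y'⟩ - - h
    simp only [Prod.mk.injEq] at h ⊢
    exact ⟨ng_injective h.1, ng_injective h.2⟩
  · rintro ⟨X, Y⟩ ⟨⟨⟨⟨a1, a2⟩, ⟨a3, a4⟩, a5⟩, a6, X', a7⟩, a8⟩
    simp only at a1 a2 a3 a4 a5 a6 a7 a8 ⊢
    refine ⟨⟨⟨⟨isB_ng.mpr a1, by rw [wd_ng]; exact a2⟩, ⟨isB_ng.mpr a3, by rw [wd_ng]; exact a4⟩,
      a5.ng2⟩, ?_, ng X', ?_⟩, ?_⟩
    · simpa using a6
    · simp only
      rw [a7]; simp; rfl
    · simpa using a8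
  · intro p _
    exact le_rfl

lemma PE_split (N W : ℕ) : coeff N (Es W) ≤ 2 * coeff N (Us W) +
    2 * ∑' p : LL, ind (PU W p ∧ (p.1 ++ p.2).length = N) * 1 := by
  rw [coeff_Es]
  have h1 : ∑' p : LL, ind ((p.1 = [] ∧ IsB p.2 ∧ wd p.2 ≤ W) ∧ (p.1 ++ p.2).length = N) * 1 ≤
      coeff N (Us W) := by
    rw [coeff_Us]
    refine tsum_inj _ _ _ _ (fun p : LL => p.2) ?_ ?_ ?_
    · rintro ⟨X, Y⟩ ⟨X', Y'⟩ ⟨⟨a1, a2, a3⟩, a4⟩ ⟨⟨b1, b2, b3⟩, b4⟩ h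
      simp only at a1 b1 h
      rw [a1, b1, h]
    · rintro ⟨X, Y⟩ ⟨⟨a1, a2, a3⟩, a4⟩
      simp only at a1 a2 a3 a4 ⊢
      rw [a1] at a4
      exact ⟨⟨a2, a3⟩, by simpa using a4⟩
    · intro p _
      exact le_rfl
  have h2 : ∑' p : LL, ind ((p.2 = [] ∧ IsB p.1 ∧ wd p.1 ≤ W) ∧ (p.1 ++ p.2).length = N) * 1 ≤
      coeff N (Us W) := by
    rw [coeff_Us]
    refine tsum_inj _ _ _ _ (fun p : LL => p.1) ?_ ?_ ?_
    · rintro ⟨X, Y⟩ ⟨X', Y'⟩ ⟨⟨a1, a2, a3⟩, a4⟩ ⟨⟨b1, b2, b3⟩, b4⟩ h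
      simp only at a1 b1 h
      rw [a1, b1, h]
    · rintro ⟨X, Y⟩ ⟨⟨a1, a2, a3⟩, a4⟩
      simp only at a1 a2 a3 a4 ⊢
      rw [a1] at a4
      exact ⟨⟨a2, a3⟩, by simpa using a4⟩
    · intro p _
      exact le_rfl
  have h3 := PU_ng_le N W
  calc ∑' p : LL, ind (PE W p ∧ (p.1 ++ p.2).length = N) * 1
      ≤ ∑' p : LL, ((ind ((p.1 = [] ∧ IsB p.2 ∧ wd p.2 ≤ W) ∧ (p.1 ++ p.2).length = N) * 1 +
        ind ((p.2 = [] ∧ IsB p.1 ∧ wd p.1 ≤ W) ∧ (p.1 ++ p.2).length = N) * 1) +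
        (ind (PU W p ∧ (p.1 ++ p.2).length = N) * 1 +
        ind ((PE W p ∧ p.2 ≠ [] ∧ ∃ X', p.1 = X' ++ [St.S]) ∧ (p.1 ++ p.2).length = N) * 1)) := by
        apply ENNReal.tsum_le_tsum
        intro p
        by_cases hp : PE W p ∧ (p.1 ++ p.2).length = N
        · rw [ind_of hp, one_mul]
          obtain ⟨⟨⟨a1, a2⟩, ⟨a3, a4⟩, a5⟩, a6⟩ := hp
          by_cases hX : p.1 = []
          · rw [ind_of (p := (p.1 = [] ∧ IsB p.2 ∧ wd p.2 ≤ W) ∧ (p.1 ++ p.2).length = N)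
              ⟨⟨hX, a3, a4⟩, a6⟩, one_mul, add_assoc]
            exact le_self_add
          · by_cases hY : p.2 = []
            · rw [ind_of (p := (p.2 = [] ∧ IsB p.1 ∧ wd p.1 ≤ W) ∧ (p.1 ++ p.2).length = N)
                ⟨⟨hY, a1, a2⟩, a6⟩, one_mul]
              exact le_trans le_add_self le_self_add
            · rcases last_step a1 a3 hX hY a5 with h4 | h4
              · rw [ind_of (p := PU W p ∧ (p.1 ++ p.2).length = N)
                  ⟨⟨⟨⟨a1, a2⟩, ⟨a3, a4⟩, a5⟩, hY, h4⟩, a6⟩, one_mul]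
                exact le_trans le_self_add le_add_self
              · rw [ind_of (p := (PE W p ∧ p.2 ≠ [] ∧ ∃ X', p.1 = X' ++ [St.S]) ∧
                  (p.1 ++ p.2).length = N) ⟨⟨⟨⟨a1, a2⟩, ⟨a3, a4⟩, a5⟩, hY, h4⟩, a6⟩, one_mul]
                exact le_trans le_add_self le_add_self
        · rw [ind_not hp, zero_mul]; exact zero_le
    _ = (∑' p : LL, ind ((p.1 = [] ∧ IsB p.2 ∧ wd p.2 ≤ W) ∧ (p.1 ++ p.2).length = N) * 1 +
        ∑' p : LL, ind ((p.2 = [] ∧ IsB p.1 ∧ wd p.1 ≤ W) ∧ (p.1 ++ p.2).length = N) * 1) +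
        (∑' p : LL, ind (PU W p ∧ (p.1 ++ p.2).length = N) * 1 +
        ∑' p : LL, ind ((PE W p ∧ p.2 ≠ [] ∧ ∃ X', p.1 = X' ++ [St.S]) ∧
          (p.1 ++ p.2).length = N) * 1) := by
        rw [ENNReal.tsum_add, ENNReal.tsum_add, ENNReal.tsum_add]
    _ ≤ (coeff N (Us W) + coeff N (Us W)) +
        (∑' p : LL, ind (PU W p ∧ (p.1 ++ p.2).length = N) * 1 +
        ∑' p : LL, ind (PU W p ∧ (p.1 ++ p.2).length = N) * 1) :=
        add_le_add (add_le_add h1 h2) (add_le_add le_rfl h3)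
    _ = _ := by ring

lemma log_bound {ε : ℝ} (hε : 0 < ε) {W : ℕ} (hW : 1 ≤ W) :
    (Nat.log 2 (2 * W) : ℝ) + 1 ≤ (2 + 2 / ε) * (W : ℝ) ^ ε := by
  have hWr : (1 : ℝ) ≤ W := by exact_mod_cast hW
  have hW0 : (0 : ℝ) < W := by linarith
  have h1 : (Nat.log 2 (2 * W) : ℝ) = Nat.log 2 W + 1 := by
    have : Nat.log 2 (2 * W) = Nat.log 2 W + 1 := by
      rw [mul_comm]; exact Nat.log_mul_base (by norm_num) (by omega)
    rw [this]; push_cast; ring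
  have h2 : (Nat.log 2 W : ℝ) ≤ Real.logb 2 W := by
    have := Real.natLog_le_logb W 2
    exact_mod_cast this
  have h3 : Real.logb 2 W ≤ 2 * Real.log W := by
    unfold Real.logb
    have h4 : (1 : ℝ) / 2 ≤ Real.log 2 := by
      have := Real.log_two_gt_d9; linarith
    have h5 : 0 ≤ Real.log W := Real.log_nonneg hWr
    rw [div_le_iff₀ (by linarith)]
    nlinarith
  have h6 : Real.log W ≤ (W : ℝ) ^ ε / ε := Real.log_le_rpow_div hW0.le hε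
  have h7 : (1 : ℝ) ≤ (W : ℝ) ^ ε := Real.one_le_rpow hWr hε.le
  rw [h1]
  calc (Nat.log 2 W : ℝ) + 1 + 1 ≤ 2 * ((W : ℝ) ^ ε / ε) + 2 := by linarith
    _ ≤ 2 * ((W : ℝ) ^ ε / ε) + 2 * (W : ℝ) ^ ε := by linarith
    _ = _ := by ring

/-- **Main estimate for folds.** -/
theorem Es_le {ε : ℝ} (hε : 0 < ε) : ∃ C : ℝ, 0 ≤ C ∧ ∀ W : ℕ, 1 ≤ W →
    Es W ≤ cst (ENNReal.ofReal (C * (W : ℝ) ^ ε)) * Us (2 * W) := by
  obtain ⟨C, hC, h⟩ := sum_JA_le (ε := ε / 2) (by positivity)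
  refine ⟨2 + 4 * ((2 + 4 / ε) * (C * 2 ^ (ε / 2))), by positivity, ?_⟩
  intro W hW N
  have hWr : (1 : ℝ) ≤ W := by exact_mod_cast hW
  have hW0 : (0 : ℝ) < W := by linarith
  rw [coeff_cst_mul]
  have h1 := h N (2 * W) (by omega)
  have h2 := PU_le N W
  have h3 := card_BrSet_le N (2 * W)
  have h4 : coeff N (Us W) ≤ coeff N (Us (2 * W)) := Us_mono (by omega) N
  set K : ℝ := 2 * (Nat.log 2 (2 * W) + 1) * (C * ((2 * W : ℕ) : ℝ) ^ (ε / 2)) with hK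
  have hK0 : 0 ≤ K := by positivity
  have h5 : ((∑ w ∈ BrSet N (2 * W), (JA N (2 * W) w).card : ℕ) : ℝ≥0∞) ≤
      ENNReal.ofReal K * coeff N (Us (2 * W)) := by
    calc ((∑ w ∈ BrSet N (2 * W), (JA N (2 * W) w).card : ℕ) : ℝ≥0∞)
        = ENNReal.ofReal ((∑ w ∈ BrSet N (2 * W), (JA N (2 * W) w).card : ℕ) : ℝ) := by
          rw [ENNReal.ofReal_natCast]
      _ ≤ ENNReal.ofReal (K * ((BrSet N (2 * W)).card : ℝ)) := ENNReal.ofReal_le_ofReal h1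
      _ = ENNReal.ofReal K * ((BrSet N (2 * W)).card : ℝ≥0∞) := by
          rw [ENNReal.ofReal_mul hK0, ENNReal.ofReal_natCast]
      _ ≤ _ := by gcongr
  have h6 : K ≤ 2 * ((2 + 4 / ε) * (C * 2 ^ (ε / 2))) * (W : ℝ) ^ ε := by
    have e1 := log_bound (ε := ε / 2) (by positivity) hW
    have e2 : (2 : ℝ) / (ε / 2) = 4 / ε := by field_simp; norm_num
    rw [e2] at e1
    have e3 : ((2 * W : ℕ) : ℝ) ^ (ε / 2) = 2 ^ (ε / 2) * (W : ℝ) ^ (ε / 2) := by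
      push_cast
      exact Real.mul_rpow (by norm_num) hW0.le
    have e4 : (W : ℝ) ^ (ε / 2) * (W : ℝ) ^ (ε / 2) = (W : ℝ) ^ ε := by
      rw [← Real.rpow_add hW0]; congr 1; ring
    calc K ≤ 2 * ((2 + 4 / ε) * (W : ℝ) ^ (ε / 2)) * (C * (2 ^ (ε / 2) * (W : ℝ) ^ (ε / 2))) := by
          rw [hK, e3]
          gcongr
      _ = 2 * ((2 + 4 / ε) * (C * 2 ^ (ε / 2))) * ((W : ℝ) ^ (ε / 2) * (W : ℝ) ^ (ε / 2)) := by ring
      _ = _ := by rw [e4]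
  have h7 : (1 : ℝ) ≤ (W : ℝ) ^ ε := Real.one_le_rpow hWr hε.le
  calc coeff N (Es W) ≤ 2 * coeff N (Us W) +
        2 * ∑' p : LL, ind (PU W p ∧ (p.1 ++ p.2).length = N) * 1 := PE_split N W
    _ ≤ 2 * coeff N (Us (2 * W)) + 2 * (ENNReal.ofReal K * coeff N (Us (2 * W))) := by
        gcongr
        exact h2.trans h5
    _ = ENNReal.ofReal (2 + 2 * K) * coeff N (Us (2 * W)) := by
        have e1 : ENNReal.ofReal (2 + 2 * K) = 2 + 2 * ENNReal.ofReal K := by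
          have : ENNReal.ofReal 2 = 2 := by norm_num
          rw [ENNReal.ofReal_add (by norm_num) (by linarith),
            ENNReal.ofReal_mul (p := 2) (q := K) (by norm_num), this]
        rw [e1]; ring
    _ ≤ _ := by
        gcongr
        nlinarith

end H981
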