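import Pool.Agent.H981R2.Words

/-!
Parity crossing lemma: two disjoint bridges spanning the same strip keep their vertical order.
-/

namespace H981

/-- the step `s` from `(px,py)` crosses the line `x + 1/2` below height `y` -/
def ecr (x y px py : ℤ) (s : St) : ZMod 2 :=
  if (s = St.E ∧ px = x ∧ py < y) ∨ (s = St.W ∧ px = x + 1 ∧ py < y) then 1 else 0

/-- number (mod 2) of crossings of the line `x + 1/2` below height `y` -/
def cr (x y : ℤ) : ℤ → ℤ → List St → ZMod 2
  | _, _, [] => 0
  | px, py, s :: w => ecr x y px py s + cr x y (px + s.x) (py + s.y) w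

/-- `(x,y)` is on the path `w` started at `(px,py)` -/
def OnP (px py : ℤ) (w : List St) (x y : ℤ) : Prop :=
  ∃ u, u <+: w ∧ px + dx u = x ∧ py + dy u = y

/-- half-line indicator -/
def ihl (x y px py : ℤ) : ZMod 2 := if px = x ∧ py < y then 1 else 0

lemma onP_start (px py : ℤ) (w : List St) : OnP px py w px py :=
  ⟨[], by simp, by simp, by simp⟩

lemma onP_cons {px py : ℤ} {s : St} {w : List St} {x y : ℤ}
    (h : OnP (px + s.x) (py + s.y) w x y) : OnP px py (s :: w) x y := by
  obtain ⟨u, hu, h1, h2⟩ := h
  exact ⟨s :: u, by simpa using hu, by simp; omega, by simp; omega⟩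

lemma cr_append (x y : ℤ) (u w : List St) (px py : ℤ) :
    cr x y px py (u ++ w) = cr x y px py u + cr x y (px + dx u) (py + dy u) w := by
  induction u generalizing px py with
  | nil => simp [cr]
  | cons s u ih =>
    simp only [List.cons_append, cr, ih, dx_cons, dy_cons]
    rw [add_assoc, add_assoc, add_assoc]

lemma zmod2_add_self (a : ZMod 2) : a + a = 0 := by
  revert a; decide

lemma zmod2_eq_of_add_eq_zero {a b : ZMod 2} (h : a + b = 0) : a = b := by
  revert a b; decide

lemma ecr_col {x y px py : ℤ} {s : St} (h1 : ¬ (px = x + 1 ∧ py = y))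
    (h2 : ¬ (px + s.x = x + 1 ∧ py + s.y = y)) :
    ecr x y px py s + ecr (x + 1) y px py s = ihl (x+1) y px py + ihl (x+1) y (px + s.x) (py + s.y) := by
  cases s
  · -- E
    by_cases hy : py < y
    · by_cases ha : px = x
      · subst ha; simp [ecr, ihl, hy]
      · by_cases hb : px = x + 1
        · subst hb; simp [ecr, ihl, hy]
        · simp [ecr, ihl, hy, ha, hb]
    · simp [ecr, ihl, hy]
  · by_cases hy : py < y
    · by_cases ha : px = x + 1
      · subst ha; simp [ecr, ihl, hy]
      · by_cases hb : px = x + 1 + 1
        · subst hb; simp [ecr, ihl, hy]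
        · have : ¬ (px + -1 = x + 1) := by omega
          simp [ecr, ihl, hy, ha, hb, this]
    · simp [ecr, ihl, hy]
  · simp at h1 h2
    by_cases ha : px = x + 1
    · subst ha
      have h1' := h1 rfl
      have h2' := h2 rfl
      by_cases hy : py < y
      · have : py + 1 < y := by omega
        simp [ecr, ihl, hy, this, zmod2_add_self]
      · have : ¬ (py + 1 < y) := by omega
        simp [ecr, ihl, hy, this]
    · simp [ecr, ihl, ha]
  · simp at h1 h2
    by_cases ha : px = x + 1
    · subst ha
      have h1' := h1 rfl
      have h2' := h2 rfl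
      by_cases hy : py < y
      · have : py + -1 < y := by omega
        simp [ecr, ihl, hy, this, zmod2_add_self]
      · have : ¬ (py + -1 < y) := by omega
        simp [ecr, ihl, hy, this]
    · simp [ecr, ihl, ha]

lemma cr_col (x y : ℤ) (w : List St) (px py : ℤ) (h : ¬ OnP px py w (x + 1) y) :
    cr x y px py w + cr (x + 1) y px py w
      = ihl (x+1) y px py + ihl (x+1) y (px + dx w) (py + dy w) := by
  induction w generalizing px py with
  | nil => simp [cr, zmod2_add_self]
  | cons s w ih =>
    have h1 : ¬ (px = x + 1 ∧ py = y) := by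
      rintro ⟨rfl, rfl⟩; exact h (onP_start _ _ _)
    have h2 : ¬ OnP (px + s.x) (py + s.y) w (x + 1) y := fun h' => h (onP_cons h')
    have h3 : ¬ (px + s.x = x + 1 ∧ py + s.y = y) := by
      rintro ⟨h4, h5⟩; apply h2; rw [← h4, ← h5]; exact onP_start _ _ _
    have h6 := ih (px + s.x) (py + s.y) h2
    have h7 := ecr_col (s := s) h1 h3
    simp only [cr, dx_cons, dy_cons]
    calc _ = (ecr x y px py s + ecr (x+1) y px py s)
        + (cr x y (px + s.x) (py + s.y) w + cr (x+1) y (px + s.x) (py + s.y) w) := by ring
      _ = ihl (x+1) y px py + ihl (x+1) y (px + (s.x + dx w)) (py + (s.y + dy w))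
          + (ihl (x+1) y (px + s.x) (py + s.y) + ihl (x+1) y (px + s.x) (py + s.y)) := by
        rw [h6, h7, add_assoc px, add_assoc py]; ring
      _ = _ := by rw [zmod2_add_self, add_zero]

lemma ecr_up {x y px py : ℤ} {s : St} (h1 : ¬ (px = x ∧ py = y))
    (h2 : ¬ (px + s.x = x ∧ py + s.y = y)) :
    ecr x y px py s = ecr x (y + 1) px py s := by
  cases s
  · simp at h1 h2
    by_cases ha : px = x
    · have := h1 ha
      by_cases hy : py < y
      · have : py < y + 1 := by omega
        simp [ecr, hy, this]
      · have : ¬ (py < y + 1) := by omega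
        simp [ecr, hy, this]
    · simp [ecr, ha]
  · simp at h1 h2
    by_cases ha : px = x + 1
    · have := h2 (by omega)
      by_cases hy : py < y
      · have : py < y + 1 := by omega
        simp [ecr, hy, this]
      · have : ¬ (py < y + 1) := by omega
        simp [ecr, hy, this]
    · simp [ecr, ha]
  · simp [ecr]
  · simp [ecr]

lemma cr_up (x y : ℤ) (w : List St) (px py : ℤ) (h : ¬ OnP px py w x y) :
    cr x y px py w = cr x (y + 1) px py w := by
  induction w generalizing px py with
  | nil => simp [cr]
  | cons s w ih =>
    have h1 : ¬ (px = x ∧ py = y) := by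
      rintro ⟨rfl, rfl⟩; exact h (onP_start _ _ _)
    have h2 : ¬ OnP (px + s.x) (py + s.y) w x y := fun h' => h (onP_cons h')
    have h3 : ¬ (px + s.x = x ∧ py + s.y = y) := by
      rintro ⟨h4, h5⟩; apply h2; rw [← h4, ← h5]; exact onP_start _ _ _
    have h6 := ih (px + s.x) (py + s.y) h2
    have h7 := ecr_up (s := s) h1 h3
    simp only [cr, h6, h7]

lemma cr_right (x y : ℤ) (w : List St) (px py : ℤ) (h : ∀ u, u <+: w → x < px + dx u) :
    cr x y px py w = 0 := by
  induction w generalizing px py with
  | nil => simp [cr]
  | cons s w ih =>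
    have h1 : x < px := by have := h [] (by simp); simpa using this
    have h2 : x < px + s.x := by have := h [s] ⟨w, rfl⟩; simpa using this
    have h3 := ih (px + s.x) (py + s.y) (fun u hu => by
      have := h (s :: u) (by simpa using hu)
      simp at this; omega)
    simp only [cr, h3, add_zero]
    cases s
    · have : ¬ px = x := by omega
      simp [ecr, this]
    · have : ¬ px = x + 1 := by simp at h2; omega
      simp [ecr, this]
    · simp [ecr]
    · simp [ecr]

lemma cr_left (x y : ℤ) (w : List St) (px py : ℤ) (h : ∀ u, u <+: w → px + dx u ≤ x) :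
    cr x y px py w = 0 := by
  induction w generalizing px py with
  | nil => simp [cr]
  | cons s w ih =>
    have h1 : px ≤ x := by have := h [] (by simp); simpa using this
    have h2 : px + s.x ≤ x := by have := h [s] ⟨w, rfl⟩; simpa using this
    have h3 := ih (px + s.x) (py + s.y) (fun u hu => by
      have := h (s :: u) (by simpa using hu)
      simp at this; omega)
    simp only [cr, h3, add_zero]
    cases s
    · have : ¬ px = x := by simp at h2; omega
      simp [ecr, this]
    · have : ¬ px = x + 1 := by omega
      simp [ecr, this]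
    · simp [ecr]
    · simp [ecr]

/-- two disjoint bridges spanning the same strip keep their vertical order -/
theorem order_preserved {a : ℕ} (ha : 0 < a) {M M' : List St} (hM : IsBr a M) (hM' : IsBr a M')
    (h h' : ℤ)
    (hd : ∀ u u', u <+: M → u' <+: M' → dx u = dx u' → h + dy u ≠ h' + dy u') :
    h < h' ↔ h + dy M < h' + dy M' := by
  set P := M ++ [St.E] with hP
  -- points of Q are not on P
  have hoff : ∀ u', u' <+: M' → ¬ OnP 0 h P (dx u') (h' + dy u') := by
    rintro u' hu' ⟨u, hu, h1, h2⟩
    rw [hP] at hu
    rcases prefix_append_cases hu with h3 | ⟨v, h3, h4, h5⟩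
    · exact hd u u' h3 hu' (by simpa using h1) h2
    · have h6 : v = [St.E] := by
        obtain ⟨t, ht⟩ := h3
        cases v with
        | nil => exact absurd rfl h4
        | cons s v => 
          simp at ht
          obtain ⟨rfl, rfl, rfl⟩ := ht
          rfl
      subst h6
      subst h5
      have h7 := hM.dx
      have h8 := hM'.le hu'
      simp at h1; omega
  have hmove : ∀ u', u' <+: M' → cr (dx u') (h' + dy u') 0 h P = cr 0 h' 0 h P := by
    intro u'
    induction u' using List.reverseRecOn with
    | nil => intro _; simp
    | append_singleton u s ih =>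
      intro hu
      have hu0 : u <+: M' := (List.prefix_append u [s]).trans hu
      rw [← ih hu0]
      have hn := hM'.hp _ hu (by simp)
      have hle := hM'.le hu
      have hle0 := hM'.le hu0
      have hend : P.length = P.length := rfl
      have hdP : dx P = a + 1 := by rw [hP]; simp [hM.dx]
      have o1 := hoff _ hu0
      have o2 := hoff _ hu
      simp only [dx_append, dy_append, dx_cons, dy_cons, dx_nil, dy_nil, add_zero] at hn hle o2 ⊢
      cases s
      · -- E
        simp only [St.x_E, St.y_E, add_zero] at hn hle o2 ⊢
        have := cr_col (dx u) (h' + dy u) P 0 h o2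
        rw [hdP] at this
        have e1 : ihl (dx u + 1) (h' + dy u) 0 h = 0 := by
          have : ¬ (0 = dx u + 1) := by omega
          simp [ihl, this]
        have e2 : ihl (dx u + 1) (h' + dy u) (0 + (a + 1)) (h + dy P) = 0 := by
          have : ¬ ((a:ℤ) = dx u) := by omega
          simp [ihl, this]
        rw [e1, e2, add_zero] at this
        exact (zmod2_eq_of_add_eq_zero this).symm
      · -- W
        simp only [St.x_W, St.y_W, add_zero] at hn hle o2 ⊢
        have := cr_col (dx u + -1) (h' + dy u) P 0 h (by simpa using o1)
        rw [hdP] at this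
        have hr : dx u + -1 + 1 = dx u := by ring
        rw [hr] at this
        have e1 : ihl (dx u) (h' + dy u) 0 h = 0 := by
          have : ¬ (0 = dx u) := by omega
          simp [ihl, this]
        have e2 : ihl (dx u) (h' + dy u) (0 + (a + 1)) (h + dy P) = 0 := by
          have : ¬ ((a:ℤ) + 1 = dx u) := by omega
          simp [ihl, this]
        rw [e1, e2, add_zero] at this
        exact zmod2_eq_of_add_eq_zero this
      · -- N
        simp only [St.x_N, St.y_N, add_zero] at hn hle o2 ⊢
        have := cr_up (dx u) (h' + dy u) P 0 h o1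
        rw [this]; congr 1; ring
      · -- S
        simp only [St.x_S, St.y_S, add_zero] at hn hle o2 ⊢
        have := cr_up (dx u) (h' + (dy u + -1)) P 0 h o2
        rw [this]; congr 1; ring
  obtain ⟨p, hp⟩ := hM.cons (hM.ne_nil ha)
  have hstart : cr 0 h' 0 h P = if h < h' then 1 else 0 := by
    rw [hP, hp]
    simp only [List.cons_append, cr]
    rw [cr_right]
    · simp [ecr]
    · intro u hu
      rcases prefix_append_cases hu with h3 | ⟨v, h3, h4, h5⟩
      · have := hM.hp (St.E :: u) (by rw [hp]; simpa using h3) (by simp)
        simpa using this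
      · have h6 : v = [St.E] := by
          obtain ⟨t, ht⟩ := h3
          cases v with
          | nil => exact absurd rfl h4
          | cons s v => 
            simp at ht
            obtain ⟨rfl, rfl, rfl⟩ := ht
            rfl
        subst h6
        have h7 := hM.dx
        rw [hp] at h7
        simp at h7
        subst h5
        simp; omega
  have hfin : cr a (h' + dy M') 0 h P = if h + dy M < h' + dy M' then 1 else 0 := by
    rw [hP, cr_append, cr_left]
    · simp [cr, ecr, hM.dx]
    · intro u hu
      simpa using hM.le hu
  have := hmove M' (List.prefix_refl _)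
  rw [hM'.dx, hstart, hfin] at this
  by_cases c1 : h < h' <;> by_cases c2 : h + dy M < h' + dy M' <;> simp [c1, c2] at this ⊢

end H981
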