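import Pool.Agent.H981R2.Gen
import Pool.Agent.H981R2.Cross

/-!
The main bound for pairs of bridges, and non-crossing pairs.
-/

namespace H981

open scoped ENNReal

lemma R_ne_zero (z x : ℝ≥0∞) : SS z x PR ≠ 0 := by
  have h : (1:ℝ≥0∞) ≤ SS z x PR := by
    unfold SS
    calc (1:ℝ≥0∞) = ind (PR ([], [])) * (z ^ len2 ([], []) * x ^ wd (([], []) : LL).2) := by
          rw [ind_of ⟨isB_nil, isB_nil, rfl⟩]
          simp [len2, wd]
      _ ≤ _ := ENNReal.le_tsum (f := fun p : LL => ind (PR p) * (z ^ len2 p * x ^ wd p.2)) ([], [])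
  intro h0
  rw [h0] at h
  simp at h

lemma R_le (z x : ℝ≥0∞) (hx : x ≤ 1) : SS z x PR ≤ BB z * BB z := by
  unfold BB SS
  rw [tsum_mul_tsum' (fun X => ind (IsB X) * z ^ X.length)
    (fun X => ind (IsB X) * z ^ X.length)]
  apply ENNReal.tsum_le_tsum
  rintro ⟨X, X'⟩
  simp only [PR, len2]
  calc ind (IsB X ∧ IsB X' ∧ wd X = wd X') * (z ^ (X.length + X'.length) * x ^ wd X')
      ≤ ind (IsB X ∧ IsB X') * (z ^ (X.length + X'.length) * 1) := by
        gcongr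
        · exact ind_mono (fun h => ⟨h.1, h.2.1⟩)
        · exact pow_le_one' hx _
    _ = _ := by rw [ind_and, pow_add]; ring

theorem F_sq_le (z x : ℝ≥0∞) (hx : x ≤ 1) (hB : BB z ≠ ⊤) :
    SS z x PF * SS z x PF ≤ (BB z * BB z) * ∑' n : ℕ, x ^ n := by
  set F := SS z x PF
  set Z := SS z x PZ
  set N := SS z x PN
  set R := SS z x PR
  set T := SS z x PT
  set t := ∑' n : ℕ, x ^ n
  have hR0 : R ≠ 0 := R_ne_zero z x
  have hRt : R ≠ ⊤ := ne_top_of_le_ne_top (ENNReal.mul_ne_top hB hB) (R_le z x hx)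
  have h1 : F ≤ Z * N := F_le_ZN z x
  have h2 : Z * Z ≤ R := Z_sq_le_R z x
  have h3 : R * N ≤ BB z * UU z x := (RN_le_T z x).trans (T_le_BU z x)
  have h4 : UU z x * UU z x ≤ R * t := U_sq_le z x
  have h5 : R * (F * F) ≤ R * ((BB z * BB z) * t) := by
    calc R * (F * F) ≤ R * ((Z * N) * (Z * N)) := by gcongr
      _ = (Z * Z) * (R * (N * N)) := by ring
      _ ≤ R * (R * (N * N)) := by gcongr
      _ = (R * N) * (R * N) := by ring
      _ ≤ (BB z * UU z x) * (BB z * UU z x) := by gcongr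
      _ = (BB z * BB z) * (UU z x * UU z x) := by ring
      _ ≤ (BB z * BB z) * (R * t) := by gcongr
      _ = R * ((BB z * BB z) * t) := by ring
  exact (ENNReal.mul_le_mul_iff_right hR0 hRt).mp h5

/-- pairs of bridges of widths `a`, `a'`, first below second -/
noncomputable def ff (z : ℝ≥0∞) (a a' : ℕ) : ℝ≥0∞ :=
  ∑' p : LL, ind (IsBr a p.1 ∧ IsBr a' p.2 ∧ Pos p.1 p.2) * z ^ len2 p

/-- pairs of bridges, second of width `a'`, first at least as wide, first below second -/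
noncomputable def Fa (z : ℝ≥0∞) (a' : ℕ) : ℝ≥0∞ :=
  ∑' p : LL, ind (IsB p.1 ∧ IsBr a' p.2 ∧ a' ≤ wd p.1 ∧ Pos p.1 p.2) * z ^ len2 p

lemma Pos.append {a a' : ℕ} {X X' Y : List St} (hX : IsBr a X) (hX' : IsBr a' X') (haa : a' ≤ a)
    (h : Pos X X') (hY : IsB Y) : Pos (X ++ Y) X' := by
  intro c X1 X2 X1' X2' hc h1 h2
  have hca : c ≤ a := by
    have := h2.1
    have h3 := hX'.wd
    rw [this, wd_append h2.2.1.isB h2.2.2, h2.2.1.wd] at h3
    omega
  have s2 : Spl a (X ++ Y) X Y := ⟨rfl, hX, hY⟩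
  obtain ⟨M, e1, e2, e3⟩ := h1.refine s2 hca
  exact h c X1 M X1' X2' hc ⟨e1, h1.2.1, e3.isB⟩ h2

theorem ff_mul_B_le (z : ℝ≥0∞) {a a' : ℕ} (haa : a' ≤ a) : ff z a a' * BB z ≤ Fa z a' := by
  unfold ff BB Fa
  rw [tsum_mul_tsum' (fun p : LL => ind (IsBr a p.1 ∧ IsBr a' p.2 ∧ Pos p.1 p.2) * z ^ len2 p)
    (fun X => ind (IsB X) * z ^ X.length)]
  have : ∀ p : LL × List St, ind (IsBr a p.1.1 ∧ IsBr a' p.1.2 ∧ Pos p.1.1 p.1.2) * z ^ len2 p.1
      * (ind (IsB p.2) * z ^ p.2.length) = ind ((IsBr a p.1.1 ∧ IsBr a' p.1.2 ∧ Pos p.1.1 p.1.2)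
        ∧ IsB p.2) * (z ^ len2 p.1 * z ^ p.2.length) := by
    intro p; rw [ind_and (_ ∧ _) (IsB p.2)]; ring
  simp_rw [this]
  refine tsum_inj _ _ _ _ (fun p : LL × List St => ((p.1.1 ++ p.2, p.1.2) : LL)) ?_ ?_ ?_
  · rintro ⟨⟨X, X'⟩, Y⟩ ⟨⟨U, U'⟩, V⟩ ⟨⟨hX, hX', hP⟩, hY⟩ ⟨⟨hU, hU', hP'⟩, hV⟩ heq
    simp only [Prod.mk.injEq] at heq hX hX' hP hY hU hU' hP' hV ⊢
    obtain ⟨h1, h2⟩ := heq
    have s1 : Spl a (X ++ Y) X Y := ⟨rfl, hX, hY⟩
    have s2 : Spl a (X ++ Y) U V := ⟨h1, hU, hV⟩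
    obtain ⟨e1, e2⟩ := s1.unique s2
    exact ⟨⟨e1, h2⟩, e2⟩
  · rintro ⟨⟨X, X'⟩, Y⟩ ⟨⟨hX, hX', hP⟩, hY⟩
    simp only at hX hX' hP hY
    refine ⟨hX.isB.append hY, hX', ?_, Pos.append hX hX' haa hP hY⟩
    simp only
    rw [wd_append hX.isB hY, hX.wd]; omega
  · rintro ⟨⟨X, X'⟩, Y⟩ ⟨⟨hX, hX', hP⟩, hY⟩
    apply le_of_eq
    simp only [len2, List.length_append, pow_add]
    ring

theorem Fa_sum (z x : ℝ≥0∞) : ∑' a', Fa z a' * x ^ a' = SS z x PF := by
  unfold Fa SS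
  simp_rw [← ENNReal.tsum_mul_right]
  rw [ENNReal.tsum_comm]
  congr 1; ext p
  have h1 := ind_isB_mul p.2 (fun a' => ind (IsB p.1 ∧ a' ≤ wd p.1 ∧ Pos p.1 p.2)
    * z ^ len2 p * x ^ a')
  have h2 : ind (PF p) = ind (IsB p.2) * ind (IsB p.1 ∧ wd p.2 ≤ wd p.1 ∧ Pos p.1 p.2) := by
    rw [← ind_and]
    congr 1
    apply propext
    unfold PF; tauto
  rw [h2]
  calc _ = ∑' a, ind (IsBr a p.2) * (ind (IsB p.1 ∧ a ≤ wd p.1 ∧ Pos p.1 p.2)
            * z ^ len2 p * x ^ a) := by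
        congr 1; ext a
        rw [← mul_assoc, ← mul_assoc, ← ind_and]
        congr 3
        apply propext; tauto
    _ = _ := by rw [← h1]; ring

/-- `v z a' = Fa z a' / BB z` -/
noncomputable def vv (z : ℝ≥0∞) (a' : ℕ) : ℝ≥0∞ := Fa z a' / BB z

lemma BB_ne_zero (z : ℝ≥0∞) : BB z ≠ 0 := by
  have h : (1:ℝ≥0∞) ≤ BB z := by
    unfold BB
    calc (1:ℝ≥0∞) = ind (IsB []) * (z ^ ([] : List St).length) := by
          rw [ind_of isB_nil]; simp
      _ ≤ _ := ENNReal.le_tsum (f := fun X : List St => ind (IsB X) * (z ^ X.length)) []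
  intro h0
  rw [h0] at h
  simp at h

theorem ff_le_vv {z : ℝ≥0∞} (hB : BB z ≠ ⊤) {a a' : ℕ} (haa : a' ≤ a) : ff z a a' ≤ vv z a' := by
  unfold vv
  rw [ENNReal.le_div_iff_mul_le (Or.inl (BB_ne_zero z)) (Or.inl hB)]
  exact ff_mul_B_le z haa

theorem vv_sum_sq_le {z : ℝ≥0∞} (hB : BB z ≠ ⊤) (x : ℝ≥0∞) (hx : x ≤ 1) :
    (∑' a, vv z a * x ^ a) * (∑' a, vv z a * x ^ a) ≤ ∑' n : ℕ, x ^ n := by
  have h0 : ∑' a, vv z a * x ^ a = SS z x PF / BB z := by
    rw [← Fa_sum, ENNReal.div_eq_inv_mul, ← ENNReal.tsum_mul_left]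
    congr 1; ext a
    unfold vv
    rw [ENNReal.div_eq_inv_mul]; ring
  rw [h0]
  have h1 := F_sq_le z x hx hB
  have hB0 := BB_ne_zero z
  have h2 : SS z x PF / BB z * (SS z x PF / BB z)
      = (SS z x PF * SS z x PF) / (BB z * BB z) := by
    rw [ENNReal.div_eq_inv_mul, ENNReal.div_eq_inv_mul, ENNReal.mul_inv (Or.inl hB0) (Or.inl hB)]
    ring
  rw [h2]
  rw [ENNReal.div_le_iff (mul_ne_zero hB0 hB0) (ENNReal.mul_ne_top hB hB), mul_comm (∑' n : ℕ, x ^ n)]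
  exact h1

/-! ### non-crossing pairs of consecutive bridges of a folded walk -/

/-- after the bridge `β`, the word `sg β'` does not hit `β` again -/
def NCg (β β' : List St) : Prop :=
  ∀ m m', m <:+ β → m' <+: β' → dx m = dx m' → dy m = - dy m' → m = [] ∧ m' = []

lemma Spl.ng {c X X1 X2} (h : Spl c X X1 X2) : Spl c (ng X) (ng X1) (ng X2) :=
  ⟨by rw [h.1]; simp, h.2.1.ng, isB_ng.mpr h.2.2⟩

lemma isBr_E : IsBr 1 [St.E] := by
  refine ⟨?_, ?_, ?_, by simp⟩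
  · intro m hm h1 h2
    rcases List.infix_cons_iff.mp hm with h | h
    · rcases List.prefix_cons_iff.mp h with h | ⟨t, rfl, h⟩
      · exact h
      · have : t = [] := by simpa using h
        subst this; simp at h1
    · simpa using h
  · intro u hu h0
    rcases List.prefix_cons_iff.mp hu with h | ⟨t, rfl, h⟩
    · exact absurd h h0
    · have : t = [] := by simpa using h
      subst this; simp
  · intro u hu
    rcases List.prefix_cons_iff.mp hu with h | ⟨t, rfl, h⟩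
    · simp [h]
    · have : t = [] := by simpa using h
      subst this; simp

lemma IsBr.consE {a w} (h : IsBr a w) : IsBr (a + 1) (St.E :: w) := by
  have := isBr_E.append h
  rw [add_comm]; simpa using this

theorem pos_or_pos {A A' : ℕ} (hA' : 0 < A') (hAA : A' < A) {β β' : List St}
    (hβ : IsBr A β) (hβ' : IsBr A' β') (hN : NCg β β') :
    Pos (ng (rs β)) (St.E :: β') ∨ Pos (ng (ng (rs β))) (ng (St.E :: β')) := by
  obtain ⟨p, rfl⟩ := hβ.cons (hβ.ne_nil (by omega))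
  obtain ⟨q, hq⟩ := hβ'.cons (hβ'.ne_nil hA')
  set X := ng (rs (St.E :: p)) with hXdef
  set X' := St.E :: β' with hX'def
  have hXE : X = St.E :: ng p.reverse := by rw [hXdef]; rfl
  have hXbr : IsBr A X := hβ.rs.ng
  have hX'br : IsBr (A' + 1) X' := hβ'.consE
  -- common points
  have hA : ∀ u u', u <+: X → u' <+: X' → dx u = dx u' → dy u = dy u' →
      (u = [] ∧ u' = []) ∨ (u = [St.E] ∧ u' = [St.E]) := by
    intro u u' hu hu' h1 h2
    by_cases hu0 : u = []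
    · left
      refine ⟨hu0, ?_⟩
      by_contra hu'0
      have := hX'br.hp u' hu' hu'0
      rw [hu0] at h1; simp at h1; omega
    · by_cases hu'0 : u' = []
      · exfalso
        have := hXbr.hp u hu hu0
        rw [hu'0] at h1; simp at h1; omega
      · right
        rw [hXE] at hu
        rcases List.prefix_cons_iff.mp hu with h | ⟨v, rfl, hv⟩
        · exact absurd h hu0
        rcases List.prefix_cons_iff.mp hu' with h | ⟨m', rfl, hm'⟩
        · exact absurd h hu'0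
        have hs : (ng v).reverse <:+ p := by
          rw [← List.reverse_prefix, List.reverse_reverse]
          have := hv.map St.ng
          change H981.ng v <+: H981.ng (ng p.reverse) at this
          rwa [ng_ng] at this
        have := hN (ng v).reverse m' (hs.trans (List.suffix_cons _ _)) hm'
          (by simp at h1 ⊢; omega) (by simp at h2 ⊢; omega)
        obtain ⟨e1, e2⟩ := this
        simp at e1
        subst e1 e2
        exact ⟨rfl, rfl⟩
  -- heights differ at common renewal lines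
  have hB : ∀ c X1 X2 X1' X2', 0 < c → Spl c X X1 X2 → Spl c X' X1' X2' → dy X1 ≠ dy X1' := by
    intro c X1 X2 X1' X2' hc h1 h2 heq
    have hx : dx X1 = dx X1' := by rw [h1.2.1.dx, h2.2.1.dx]
    rcases hA X1 X1' ⟨X2, h1.1.symm⟩ ⟨X2', h2.1.symm⟩ hx heq with ⟨e1, -⟩ | ⟨e1, e2⟩
    · exact h1.2.1.ne_nil hc e1
    · have hc1 : c = 1 := by
        have := h1.2.1.dx
        rw [e1] at this; simp at this; omega
      have e3 : X2' = St.E :: q := by
        have := h2.1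
        rw [hX'def, e2] at this
        simp at this
        rw [← this, hq]
      have hX2 : X2 ≠ [] := by
        rintro rfl
        have h3 := h1.1
        rw [e1] at h3
        have h4 := hXbr.dx
        rw [h3] at h4; simp at h4; omega
      obtain ⟨a, h5⟩ := h1.2.2
      obtain ⟨r, hr⟩ := h5.cons hX2
      have h6 := hA [St.E, St.E] [St.E, St.E] ⟨r, by rw [h1.1, e1, hr]; rfl⟩
        ⟨q, by rw [h2.1, e2, e3]; rfl⟩ rfl rfl
      simp at h6
  -- sign constancy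
  have hC : ∀ c d X1 X2 X1' X2' Y1 Y2 Y1' Y2', 0 < c → c < d → Spl c X X1 X2 → Spl c X' X1' X2' →
      Spl d X Y1 Y2 → Spl d X' Y1' Y2' → (dy X1 < dy X1' ↔ dy Y1 < dy Y1') := by
    intro c d X1 X2 X1' X2' Y1 Y2 Y1' Y2' hc hcd h1 h2 h3 h4
    obtain ⟨M, e1, e2, e3⟩ := h1.refine h3 hcd.le
    obtain ⟨M', e1', e2', e3'⟩ := h2.refine h4 hcd.le
    have := order_preserved (by omega) e3 e3' (dy X1) (dy X1') ?_
    · rw [this, e1, e1']; simp
    · intro u u' hu hu' h5 h6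
      have hp1 : X1 ++ u <+: X := by
        obtain ⟨t, ht⟩ := hu
        exact ⟨t ++ Y2, by rw [h3.1, e1, ← ht]; simp⟩
      have hp2 : X1' ++ u' <+: X' := by
        obtain ⟨t, ht⟩ := hu'
        exact ⟨t ++ Y2', by rw [h4.1, e1', ← ht]; simp⟩
      have hxx : dx X1 = dx X1' := by rw [h1.2.1.dx, h2.2.1.dx]
      rcases hA _ _ hp1 hp2 (by simp; omega) (by simp; omega) with ⟨e4, -⟩ | ⟨e4, e5⟩
      · have := h1.2.1.ne_nil hc
        simp at e4; exact this e4.1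
      · have g1 : X1 = [St.E] := by
          have := h1.2.1.ne_nil hc
          rcases List.append_eq_singleton_iff.mp e4 with ⟨h, _⟩ | ⟨h, _⟩
          · exact absurd h this
          · exact h
        have g2 : X1' = [St.E] := by
          have := h2.2.1.ne_nil hc
          rcases List.append_eq_singleton_iff.mp e5 with ⟨h, _⟩ | ⟨h, _⟩
          · exact absurd h this
          · exact h
        exact hB c X1 X2 X1' X2' hc h1 h2 (by rw [g1, g2])
  have hC' : ∀ c d X1 X2 X1' X2' Y1 Y2 Y1' Y2', 0 < c → 0 < d → Spl c X X1 X2 → Spl c X' X1' X2' →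
      Spl d X Y1 Y2 → Spl d X' Y1' Y2' → (dy X1 < dy X1' ↔ dy Y1 < dy Y1') := by
    intro c d X1 X2 X1' X2' Y1 Y2 Y1' Y2' hc hd h1 h2 h3 h4
    rcases lt_trichotomy c d with h | h | h
    · exact hC c d _ _ _ _ _ _ _ _ hc h h1 h2 h3 h4
    · subst h
      rw [(h1.unique h3).1, (h2.unique h4).1]
    · exact (hC d c _ _ _ _ _ _ _ _ hd h h3 h4 h1 h2).symm
  by_cases hex : ∃ c X1 X2 X1' X2', 0 < c ∧ Spl c X X1 X2 ∧ Spl c X' X1' X2' ∧ dy X1 < dy X1'
  · left
    obtain ⟨c, X1, X2, X1', X2', hc, h1, h2, h3⟩ := hex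
    intro d Y1 Y2 Y1' Y2' hd h4 h5
    exact (hC' c d _ _ _ _ _ _ _ _ hc hd h1 h2 h4 h5).mp h3
  · right
    intro d Y1 Y2 Y1' Y2' hd h4 h5
    have h4' := h4.ng
    have h5' := h5.ng
    rw [ng_ng] at h4' h5'
    have h6 := hB d _ _ _ _ hd h4' h5'
    have h7 : ¬ (dy (ng Y1) < dy (ng Y1')) := fun h => hex ⟨d, _, _, _, _, hd, h4', h5', h⟩
    simp at h6 h7
    omega

/-- non-crossing pairs -/
noncomputable def om (z : ℝ≥0∞) (A A' : ℕ) : ℝ≥0∞ :=
  ∑' p : LL, ind (IsBr A p.1 ∧ IsBr A' p.2 ∧ NCg p.1 p.2) * z ^ len2 p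

theorem om_le {z : ℝ≥0∞} {A A' : ℕ} (hA' : 0 < A') (hAA : A' < A) :
    z * om z A A' ≤ 2 * ff z A (A' + 1) := by
  have h1 : ∑' p : LL, ind (IsBr A p.1 ∧ IsBr A' p.2 ∧ Pos (ng (rs p.1)) (St.E :: p.2))
      * z ^ (len2 p + 1) ≤ ff z A (A' + 1) := by
    unfold ff
    refine tsum_inj _ _ _ _ (fun p : LL => ((ng (rs p.1), St.E :: p.2) : LL)) ?_ ?_ ?_
    · rintro ⟨X, X'⟩ ⟨Y, Y'⟩ - - h
      simp only [Prod.mk.injEq, List.cons.injEq, true_and] at h ⊢
      refine ⟨?_, h.2⟩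
      have := congrArg rs (ng_injective h.1)
      simpa using this
    · rintro ⟨X, X'⟩ ⟨hX, hX', hP⟩
      exact ⟨hX.rs.ng, hX'.consE, hP⟩
    · rintro ⟨X, X'⟩ -
      apply le_of_eq
      simp only [len2, length_ng, length_rs, List.length_cons]
      rw [add_assoc]
  have h2 : ∑' p : LL, ind (IsBr A p.1 ∧ IsBr A' p.2 ∧ Pos (ng (ng (rs p.1))) (ng (St.E :: p.2)))
      * z ^ (len2 p + 1) ≤ ff z A (A' + 1) := by
    unfold ff
    refine tsum_inj _ _ _ _ (fun p : LL => ((ng (ng (rs p.1)), ng (St.E :: p.2)) : LL)) ?_ ?_ ?_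
    · rintro ⟨X, X'⟩ ⟨Y, Y'⟩ - - h
      simp only [Prod.mk.injEq, ng_ng] at h ⊢
      obtain ⟨h1, h2⟩ := h
      have := congrArg rs h1
      have h3 := ng_injective h2
      simp at this h3
      exact ⟨this, h3⟩
    · rintro ⟨X, X'⟩ ⟨hX, hX', hP⟩
      exact ⟨hX.rs.ng.ng, hX'.consE.ng, hP⟩
    · rintro ⟨X, X'⟩ -
      apply le_of_eq
      simp only [len2, length_ng, length_rs, List.length_cons]
      rw [add_assoc]
  rw [two_mul]
  calc z * om z A A' = ∑' p : LL, ind (IsBr A p.1 ∧ IsBr A' p.2 ∧ NCg p.1 p.2)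
        * z ^ (len2 p + 1) := by
        unfold om
        rw [← ENNReal.tsum_mul_left]
        congr 1; ext p; rw [pow_succ]; ring
    _ ≤ ∑' p : LL, (ind (IsBr A p.1 ∧ IsBr A' p.2 ∧ Pos (ng (rs p.1)) (St.E :: p.2))
      * z ^ (len2 p + 1) + ind (IsBr A p.1 ∧ IsBr A' p.2 ∧
        Pos (ng (ng (rs p.1))) (ng (St.E :: p.2))) * z ^ (len2 p + 1)) := by
        apply ENNReal.tsum_le_tsum
        intro p
        rw [← add_mul]
        gcongr
        by_cases h : IsBr A p.1 ∧ IsBr A' p.2 ∧ NCg p.1 p.2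
        · rw [ind_of h]
          rcases pos_or_pos hA' hAA h.1 h.2.1 h.2.2 with h3 | h3
          · rw [ind_of ⟨h.1, h.2.1, h3⟩]
            exact le_self_add
          · rw [ind_of (p := _ ∧ _ ∧ Pos (ng (ng (rs p.1))) (ng (St.E :: p.2))) ⟨h.1, h.2.1, h3⟩]
            exact le_add_self
        · rw [ind_not h]
          exact zero_le
    _ = _ := ENNReal.tsum_add
    _ ≤ _ := add_le_add h1 h2

end H981
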