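import Pool.Agent.H981R2.Count

/-!
The analytic estimate.
-/

namespace H981

open scoped ENNReal

/-- the total sum of the square roots -/
noncomputable def SG (z x : ℝ≥0∞) : ℝ≥0∞ := ∑' B : ℕ, gg z (B + 1) * x ^ (B + 1)

lemma SG_bound {z x : ℝ≥0∞} (hz0 : z ≠ 0) (hzt : z ≠ ⊤) (hB : BB z ≠ ⊤) (hx : x ≤ 1) :
    (z * x * (SG z x * SG z x)) * (z * x * (SG z x * SG z x)) ≤
      4 * ((∑' n : ℕ, x ^ n) * (∑' n : ℕ, x ^ n) * (∑' n : ℕ, x ^ n)) := by
  set t := ∑' n : ℕ, x ^ n with ht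
  set V := ∑' a, vv z a * x ^ a with hV
  have hVV : V * V ≤ t := vv_sum_sq_le hB x hx
  have h1 : SG z x * SG z x ≤ (∑' B : ℕ, FF z (B + 1) * x ^ (B + 1)) * t := by
    have h := cauchy_schwarz (fun B : ℕ => gg z (B + 1) * (x ^ (B + 1)) ^ (1/2:ℝ))
      (fun B : ℕ => (x ^ (B + 1)) ^ (1/2:ℝ))
    have e1 : ∑' B : ℕ, gg z (B + 1) * (x ^ (B + 1)) ^ (1/2:ℝ) * (x ^ (B + 1)) ^ (1/2:ℝ)
        = SG z x := by
      unfold SG
      congr 1; ext B
      rw [mul_assoc, sq_rpow_half]
    have e2 : ∑' B : ℕ, (gg z (B + 1) * (x ^ (B + 1)) ^ (1/2:ℝ)) *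
        (gg z (B + 1) * (x ^ (B + 1)) ^ (1/2:ℝ)) = ∑' B : ℕ, FF z (B + 1) * x ^ (B + 1) := by
      congr 1; ext B
      calc _ = (gg z (B + 1) * gg z (B + 1)) *
            ((x ^ (B + 1)) ^ (1/2:ℝ) * (x ^ (B + 1)) ^ (1/2:ℝ)) := by ring
        _ = _ := by unfold gg; rw [sq_rpow_half, sq_rpow_half]
    have e3 : ∑' B : ℕ, (x ^ (B + 1)) ^ (1/2:ℝ) * (x ^ (B + 1)) ^ (1/2:ℝ) ≤ t := by
      simp_rw [sq_rpow_half]
      exact ENNReal.tsum_comp_le_tsum_of_injective (f := fun B : ℕ => B + 1)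
        (fun a b h => by simpa using h) (fun n => x ^ n)
    rw [e1, e2] at h
    exact h.trans (by gcongr)
  have h2 : z * x * ∑' B : ℕ, FF z (B + 1) * x ^ (B + 1) ≤ 2 * V := by
    have e1 : z * x * ∑' B : ℕ, FF z (B + 1) * x ^ (B + 1)
        = 2 * ∑' B : ℕ, vv z (B + 2) * x ^ (B + 2) := by
      rw [← ENNReal.tsum_mul_left, ← ENNReal.tsum_mul_left]
      congr 1; ext B
      unfold FF
      calc z * x * (2 * z⁻¹ * vv z (B + 1 + 1) * x ^ (B + 1))
          = (z * z⁻¹) * (2 * (vv z (B + 2) * x ^ (B + 2))) := by ring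
        _ = _ := by rw [ENNReal.mul_inv_cancel hz0 hzt, one_mul]
    rw [e1]
    gcongr
    exact ENNReal.tsum_comp_le_tsum_of_injective (f := fun B : ℕ => B + 2)
        (fun a b h => by simpa using h) (fun a => vv z a * x ^ a)
  have h3 : z * x * (SG z x * SG z x) ≤ 2 * V * t := by
    calc z * x * (SG z x * SG z x) ≤ z * x * ((∑' B : ℕ, FF z (B + 1) * x ^ (B + 1)) * t) := by
          gcongr
      _ = (z * x * ∑' B : ℕ, FF z (B + 1) * x ^ (B + 1)) * t := by ring
      _ ≤ _ := by gcongr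
  calc _ ≤ (2 * V * t) * (2 * V * t) := by gcongr
    _ = 4 * (V * V * t * t) := by ring
    _ ≤ 4 * (t * t * t) := by gcongr

lemma prod_le_exp {z x : ℝ≥0∞} (hS : SG z x ≠ ⊤) (M : ℕ) :
    ∏ B ∈ Finset.range M, (1 + gg z (B + 1) * x ^ (B + 1))
      ≤ ENNReal.ofReal (Real.exp (SG z x).toReal) := by
  have hfin : ∀ B, gg z (B + 1) * x ^ (B + 1) ≠ ⊤ := fun B =>
    ne_top_of_le_ne_top hS (ENNReal.le_tsum (f := fun B : ℕ => gg z (B + 1) * x ^ (B + 1)) B)
  have h1 : ∀ B, 1 + gg z (B + 1) * x ^ (B + 1)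
      ≤ ENNReal.ofReal (Real.exp (gg z (B + 1) * x ^ (B + 1)).toReal) := by
    intro B
    calc 1 + gg z (B + 1) * x ^ (B + 1)
        = ENNReal.ofReal (1 + (gg z (B + 1) * x ^ (B + 1)).toReal) := by
          rw [ENNReal.ofReal_add zero_le_one ENNReal.toReal_nonneg, ENNReal.ofReal_one,
            ENNReal.ofReal_toReal (hfin B)]
      _ ≤ _ := by
          apply ENNReal.ofReal_le_ofReal
          rw [add_comm]
          exact Real.add_one_le_exp _
  calc ∏ B ∈ Finset.range M, (1 + gg z (B + 1) * x ^ (B + 1))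
      ≤ ∏ B ∈ Finset.range M, ENNReal.ofReal (Real.exp (gg z (B + 1) * x ^ (B + 1)).toReal) :=
        Finset.prod_le_prod' fun B _ => h1 B
    _ = ENNReal.ofReal (∏ B ∈ Finset.range M, Real.exp (gg z (B + 1) * x ^ (B + 1)).toReal) := by
        rw [ENNReal.ofReal_prod_of_nonneg]
        intro B _; exact (Real.exp_pos _).le
    _ = ENNReal.ofReal (Real.exp (∑ B ∈ Finset.range M, (gg z (B + 1) * x ^ (B + 1)).toReal)) := by
        rw [Real.exp_sum]
    _ ≤ _ := by
        apply ENNReal.ofReal_le_ofReal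
        apply Real.exp_le_exp.mpr
        rw [← ENNReal.toReal_sum (fun B _ => hfin B)]
        exact ENNReal.toReal_mono hS (ENNReal.sum_le_tsum _)

theorem cr'_upper {N : ℕ} (hN : 1 ≤ N) :
    cr' N ≤ mu ^ N * Real.exp ((15 + 11 * mu) * (N:ℝ) ^ (3/7 : ℝ)) := by
  have hmu := one_le_mu
  have hmu0 := mu_pos
  have hN' : (1:ℝ) ≤ N := by exact_mod_cast hN
  have hN0 : (0:ℝ) < N := by linarith
  set L : ℝ := (N:ℝ) ^ (3/7 : ℝ) with hL
  set D : ℝ := (N:ℝ) ^ (4/7 : ℝ) with hD
  have hL1 : 1 ≤ L := Real.one_le_rpow hN' (by norm_num)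
  have hD1 : 1 ≤ D := Real.one_le_rpow hN' (by norm_num)
  have hLD : L * D = N := by
    rw [hL, hD, ← Real.rpow_add hN0]; norm_num
  have hL4 : L ^ 4 = D ^ 3 := by
    rw [hL, hD, ← Real.rpow_natCast, ← Real.rpow_natCast, ← Real.rpow_mul hN0.le,
      ← Real.rpow_mul hN0.le]
    norm_num
  have hNL : (N:ℝ) ≤ L ^ 3 := by
    rw [hL, ← Real.rpow_natCast, ← Real.rpow_mul hN0.le]
    calc (N:ℝ) = (N:ℝ) ^ (1:ℝ) := (Real.rpow_one _).symm
      _ ≤ _ := Real.rpow_le_rpow_of_exponent_le hN' (by norm_num)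
  -- parameters
  set δ : ℝ := 1 / (2 * D) with hδ
  have hδ0 : 0 < δ := by positivity
  have hδ2 : δ ≤ 1 / 2 := by
    rw [hδ, div_le_div_iff₀ (by positivity) (by norm_num)]; linarith
  set ζ : ℝ := (N + 1) / ((N + 2) * mu) with hζ
  have hζ0 : 0 < ζ := by positivity
  have hζmu : ζ * mu = (N + 1) / (N + 2) := by
    rw [hζ]; field_simp
  have hζ1 : ζ * mu < 1 := by
    rw [hζmu, div_lt_one (by positivity)]; linarith
  set z : ℝ≥0∞ := ENNReal.ofReal ζ with hz
  set x : ℝ≥0∞ := ENNReal.ofReal (1 - δ) with hx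
  have hz0 : z ≠ 0 := by
    rw [hz, Ne, ENNReal.ofReal_eq_zero, not_le]; exact hζ0
  have hzt : z ≠ ⊤ := ENNReal.ofReal_ne_top
  have hB : BB z ≠ ⊤ := BB_ne_top hζ0 hζ1
  have hx1 : x ≤ 1 := by
    rw [hx, ← ENNReal.ofReal_one]
    exact ENNReal.ofReal_le_ofReal (by linarith)
  have ht : ∑' n : ℕ, x ^ n = ENNReal.ofReal (2 * D) := by
    rw [ENNReal.tsum_geometric]
    have h1x : 1 - x = ENNReal.ofReal δ := by
      rw [hx, ← ENNReal.ofReal_one, ← ENNReal.ofReal_sub _ (by linarith)]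
      congr 1; ring
    rw [h1x, ← ENNReal.ofReal_inv_of_pos hδ0]
    congr 1
    rw [hδ]; field_simp
  -- bound for the sum of square roots
  have hb := SG_bound hz0 hzt hB hx1
  rw [ht] at hb
  have hq0 : 0 < ζ * (1 - δ) := by
    have : 0 < 1 - δ := by linarith
    positivity
  have hzx : z * x = ENNReal.ofReal (ζ * (1 - δ)) := by
    rw [hz, hx, ENNReal.ofReal_mul hζ0.le]
  have hzx0 : z * x ≠ 0 := by
    rw [hzx, Ne, ENNReal.ofReal_eq_zero, not_le]; exact hq0
  have hSt : SG z x ≠ ⊤ := by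
    intro h
    rw [h] at hb
    have : z * x * (⊤ * ⊤) = ⊤ := by
      rw [ENNReal.top_mul_top, ENNReal.mul_top hzx0]
    rw [this, ENNReal.top_mul_top] at hb
    have h2 : (4:ℝ≥0∞) * (ENNReal.ofReal (2 * D) * ENNReal.ofReal (2 * D) * ENNReal.ofReal (2 * D)) ≠ ⊤ := by
      apply ENNReal.mul_ne_top (by norm_num)
      exact ENNReal.mul_ne_top (ENNReal.mul_ne_top ENNReal.ofReal_ne_top ENNReal.ofReal_ne_top)
        ENNReal.ofReal_ne_top
    exact h2 (top_le_iff.mp hb)
  set s : ℝ := (SG z x).toReal with hs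
  have hs0 : 0 ≤ s := ENNReal.toReal_nonneg
  have hSs : SG z x = ENNReal.ofReal s := (ENNReal.ofReal_toReal hSt).symm
  have hb' : (ζ * (1 - δ) * (s * s)) * (ζ * (1 - δ) * (s * s)) ≤ 4 * (2 * D * (2 * D) * (2 * D)) := by
    rw [hzx, hSs] at hb
    have h4 : (4:ℝ≥0∞) = ENNReal.ofReal 4 := by norm_num
    rw [h4, ← ENNReal.ofReal_mul hs0, ← ENNReal.ofReal_mul hq0.le,
      ← ENNReal.ofReal_mul (by positivity), ← ENNReal.ofReal_mul (by positivity),
      ← ENNReal.ofReal_mul (by positivity), ← ENNReal.ofReal_mul (by positivity)] at hb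
    exact (ENNReal.ofReal_le_ofReal_iff (by positivity)).mp hb
  have hq3 : 1 / (3 * mu) ≤ ζ * (1 - δ) := by
    have h1 : (2:ℝ) / 3 ≤ (N + 1) / (N + 2) := by
      rw [div_le_div_iff₀ (by norm_num) (by positivity)]; linarith
    have h2 : ζ = ((N + 1) / (N + 2)) / mu := by rw [hζ]; field_simp
    have h3 : (1:ℝ) / 2 ≤ 1 - δ := by linarith
    calc 1 / (3 * mu) = (2 / 3) / mu * (1 / 2) := by field_simp
      _ ≤ ζ * (1 - δ) := by rw [h2]; gcongr
  have hs4 : s ^ 4 ≤ (5 * mu * L) ^ 4 := by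
    have h1 : (1 / (3 * mu) * (s * s)) * (1 / (3 * mu) * (s * s)) ≤ 4 * (2 * D * (2 * D) * (2 * D)) :=
      le_trans (by gcongr) hb'
    have h2 : s ^ 4 ≤ 288 * mu ^ 2 * D ^ 3 := by
      have : (1 / (3 * mu) * (s * s)) * (1 / (3 * mu) * (s * s)) = s ^ 4 / (9 * mu ^ 2) := by
        field_simp; ring
      rw [this, div_le_iff₀ (by positivity)] at h1
      calc s ^ 4 ≤ _ := h1
        _ = _ := by ring
    calc s ^ 4 ≤ 288 * mu ^ 2 * D ^ 3 := h2
      _ = 288 * mu ^ 2 * L ^ 4 := by rw [hL4]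
      _ ≤ 625 * mu ^ 4 * L ^ 4 := by
        have : mu ^ 2 ≤ mu ^ 4 := pow_le_pow_right₀ hmu (by norm_num)
        gcongr
        norm_num
      _ = _ := by ring
  have hs5 : s ≤ 5 * mu * L := (pow_le_pow_iff_left₀ hs0 (by positivity) (by norm_num)).mp hs4
  -- bound for the half-plane counts
  set E : ℝ := Real.exp (5 * mu * L) with hE
  have hE1 : 1 ≤ E := Real.one_le_exp (by positivity)
  set q : ℝ := ζ * (1 - δ) with hq
  have hhM : ∀ M, M ≤ N + 1 → hh M ≤ ENNReal.ofReal ((N + 1) * E / q ^ M) := by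
    intro M hM
    rcases Nat.eq_zero_or_pos M with rfl | hM0
    · refine hh_zero_le.trans ?_
      rw [← ENNReal.ofReal_one]
      apply ENNReal.ofReal_le_ofReal
      rw [pow_zero, div_one]
      nlinarith
    · have h1 := hh_le hz0 hzt hB hx1 (N := M) hM0.ne'
      have h2 := prod_le_exp hSt M
      have h3 : hh M * ENNReal.ofReal (q ^ M) ≤ ENNReal.ofReal ((N + 1) * E) := by
        rw [ENNReal.ofReal_pow hq0.le, ← hzx]
        calc hh M * (z * x) ^ M ≤ M * _ := h1
          _ ≤ ENNReal.ofReal (N + 1) * ENNReal.ofReal E := by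
            gcongr
            · rw [← ENNReal.ofReal_natCast]
              apply ENNReal.ofReal_le_ofReal
              exact_mod_cast hM
            · refine h2.trans ?_
              apply ENNReal.ofReal_le_ofReal
              exact Real.exp_le_exp.mpr hs5
          _ = _ := by rw [← ENNReal.ofReal_mul (by positivity)]
      have hqM : 0 < q ^ M := by positivity
      rw [ENNReal.ofReal_div_of_pos hqM, ENNReal.le_div_iff_mul_le]
      · exact h3
      · left; rw [Ne, ENNReal.ofReal_eq_zero, not_le]; exact hqM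
      · left; exact ENNReal.ofReal_ne_top
  have hcc : cc N ≤ ENNReal.ofReal ((N + 1) * ((N + 1) * E * ((N + 1) * E) / q ^ (N + 1))) := by
    calc cc N ≤ ∑ k ∈ Finset.range (N + 1), hh (k + 1) * hh (N - k) := cc_le N
      _ ≤ ∑ k ∈ Finset.range (N + 1),
          ENNReal.ofReal ((N + 1) * E * ((N + 1) * E) / q ^ (N + 1)) := by
        apply Finset.sum_le_sum
        intro k hk
        rw [Finset.mem_range] at hk
        calc hh (k + 1) * hh (N - k) ≤ ENNReal.ofReal ((N + 1) * E / q ^ (k + 1)) *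
              ENNReal.ofReal ((N + 1) * E / q ^ (N - k)) := by
              gcongr
              · exact hhM _ (by omega)
              · exact hhM _ (by omega)
          _ = _ := by
            rw [← ENNReal.ofReal_mul (by positivity)]
            congr 1
            rw [div_mul_div_comm, ← pow_add]
            congr 2
            omega
      _ = _ := by
        rw [Finset.sum_const, Finset.card_range, nsmul_eq_mul]
        rw [ENNReal.ofReal_mul (by positivity)]
        congr 1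
        rw [← Nat.cast_succ, ENNReal.ofReal_natCast]
  have hcr : cr' N ≤ (N + 1) * ((N + 1) * E * ((N + 1) * E) / q ^ (N + 1)) := by
    have := ENNReal.toReal_mono ENNReal.ofReal_ne_top hcc
    rwa [ENNReal.toReal_ofReal (by positivity)] at this
  -- final numerics
  have hqinv : 1 / q ≤ mu * Real.exp (1 / (N + 1)) * Real.exp (2 * δ) := by
    have h1 : 1 / (1 - δ) ≤ Real.exp (2 * δ) := by
      have h2 : 1 + 2 * δ ≤ Real.exp (2 * δ) := by
        have := Real.add_one_le_exp (2 * δ); linarith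
      have h3 : 0 < 1 - δ := by linarith
      rw [div_le_iff₀ h3]
      calc (1:ℝ) ≤ (1 + 2 * δ) * (1 - δ) := by nlinarith
        _ ≤ _ := by gcongr
    have h4 : 1 / ζ ≤ mu * Real.exp (1 / (N + 1)) := by
      have h5 : 1 / ζ = mu * (1 / (N + 1) + 1) := by
        rw [hζ]; field_simp; ring
      rw [h5]
      gcongr
      exact Real.add_one_le_exp _
    have h6 : 0 ≤ 1 / (1 - δ) := by
      have : 0 < 1 - δ := by linarith
      positivity
    calc 1 / q = (1 / ζ) * (1 / (1 - δ)) := by rw [hq]; field_simp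
      _ ≤ _ := mul_le_mul h4 h1 h6 (by positivity)
  have hqpow : 1 / q ^ (N + 1) ≤ mu ^ (N + 1) * Real.exp 1 * Real.exp (2 * L) := by
    calc 1 / q ^ (N + 1) = (1 / q) ^ (N + 1) := by rw [one_div_pow]
      _ ≤ (mu * Real.exp (1 / (N + 1)) * Real.exp (2 * δ)) ^ (N + 1) := by gcongr
      _ = mu ^ (N + 1) * Real.exp (((N + 1 : ℕ) : ℝ) * (1 / (N + 1))) *
            Real.exp (((N + 1 : ℕ) : ℝ) * (2 * δ)) := by
          rw [mul_pow, mul_pow, ← Real.exp_nat_mul, ← Real.exp_nat_mul]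
      _ ≤ _ := by
          have h7 : ((N + 1 : ℕ) : ℝ) * (1 / (N + 1)) ≤ 1 := by
            push_cast
            apply le_of_eq
            field_simp
          have h8 : ((N + 1 : ℕ) : ℝ) * (2 * δ) ≤ 2 * L := by
            push_cast
            have : (N + 1 : ℝ) * (2 * δ) = (N + 1) / D := by rw [hδ]; field_simp
            rw [this, div_le_iff₀ (by positivity)]
            calc (N + 1 : ℝ) ≤ 2 * N := by linarith
              _ = 2 * L * D := by rw [mul_assoc, hLD]
          have h9 := Real.exp_le_exp.mpr h7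
          have h10 := Real.exp_le_exp.mpr h8
          exact mul_le_mul (mul_le_mul le_rfl h9 (Real.exp_pos _).le (by positivity)) h10
            (Real.exp_pos _).le (by positivity)
  have hN1 : (N + 1 : ℝ) ≤ Real.exp (4 * L) := by
    have h1 : L ^ 3 / 6 ≤ Real.exp L := by
      have := Real.pow_div_factorial_le_exp L (by linarith) 3
      simpa [Nat.factorial] using this
    have h2 : (12:ℝ) ≤ Real.exp 3 := by
      have h3 : (2.7:ℝ) ≤ Real.exp 1 := by
        have := Real.exp_one_gt_d9; linarith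
      calc (12:ℝ) ≤ 2.7 ^ 3 := by norm_num
        _ ≤ (Real.exp 1) ^ 3 := by gcongr
        _ = Real.exp 3 := by rw [← Real.exp_nat_mul]; norm_num
    calc (N + 1 : ℝ) ≤ 2 * N := by linarith
      _ ≤ 12 * Real.exp L := by linarith
      _ ≤ Real.exp 3 * Real.exp L := by gcongr
      _ = Real.exp (3 + L) := by rw [Real.exp_add]
      _ ≤ Real.exp (4 * L) := Real.exp_le_exp.mpr (by linarith)
  have hmuexp : mu ≤ Real.exp (mu * L) := by
    calc mu ≤ mu * L := le_mul_of_one_le_right hmu0.le hL1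
      _ ≤ mu * L + 1 := by linarith
      _ ≤ _ := Real.add_one_le_exp _
  have h1L : Real.exp 1 ≤ Real.exp L := Real.exp_le_exp.mpr hL1
  have f1 : (N + 1 : ℝ) * ((N + 1) * (N + 1)) ≤ Real.exp (12 * L) := by
    calc (N + 1 : ℝ) * ((N + 1) * (N + 1)) ≤ Real.exp (4 * L) * (Real.exp (4 * L) *
          Real.exp (4 * L)) := by gcongr
      _ = _ := by rw [← Real.exp_add, ← Real.exp_add]; congr 1; ring
  have f2 : mu ^ (N + 1) * Real.exp 1 * Real.exp (2 * L)
      ≤ mu ^ N * Real.exp ((3 + mu) * L) := by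
    calc mu ^ (N + 1) * Real.exp 1 * Real.exp (2 * L)
        = mu ^ N * (mu * Real.exp 1 * Real.exp (2 * L)) := by ring
      _ ≤ mu ^ N * (Real.exp (mu * L) * Real.exp L * Real.exp (2 * L)) := by gcongr
      _ = _ := by rw [← Real.exp_add, ← Real.exp_add]; congr 2; ring
  have hEpos : 0 < E := Real.exp_pos _
  calc cr' N ≤ (N + 1) * ((N + 1) * E * ((N + 1) * E) / q ^ (N + 1)) := hcr
    _ = ((N + 1) * ((N + 1) * (N + 1))) * (E * E) * (1 / q ^ (N + 1)) := by ring
    _ ≤ Real.exp (12 * L) * (E * E) * (mu ^ N * Real.exp ((3 + mu) * L)) := by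
        refine mul_le_mul (mul_le_mul f1 le_rfl (by positivity) (Real.exp_pos _).le)
          (hqpow.trans f2) (by positivity) (by positivity)
    _ = mu ^ N * (Real.exp (12 * L) * (E * E) * Real.exp ((3 + mu) * L)) := by ring
    _ = mu ^ N * Real.exp ((15 + 11 * mu) * L) := by
        rw [hE, ← Real.exp_add, ← Real.exp_add, ← Real.exp_add]
        congr 2; ring

end H981
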