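import Pool.Agent.H981R2.HalfP

/-!
`c_n ≤ μ^n exp (K n^ε)` and `b_n ≥ μ^n exp (- K n^ε)`.
-/

namespace H981

open scoped ENNReal
open PowerSeries

lemma bn_le_cc (n : ℕ) : bn n ≤ cc n := by
  rw [bn_eq]
  unfold cc
  apply ENNReal.tsum_le_tsum
  intro u
  apply ind_mono
  rintro ⟨⟨a, h⟩, h2⟩
  exact ⟨h.saw, h2⟩

lemma bn_ne_top (n : ℕ) : bn n ≠ ⊤ := ne_top_of_le_ne_top (cc_ne_top n) (bn_le_cc n)

lemma bn_mul_le (m n : ℕ) : bn m * bn n ≤ bn (m + n) := by
  rw [bn_eq, bn_eq, bn_eq, tsum_mul_tsum' (fun u => ind (IsB u ∧ u.length = m))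
    (fun u => ind (IsB u ∧ u.length = n))]
  have h1 : ∀ p : LL, ind (IsB p.1 ∧ p.1.length = m) * ind (IsB p.2 ∧ p.2.length = n) =
      ind ((IsB p.1 ∧ p.1.length = m) ∧ (IsB p.2 ∧ p.2.length = n)) * 1 := by
    intro p; rw [mul_one, ind_and (_ ∧ _) (_ ∧ _)]
  have h2 : ∀ u : List St, ind (IsB u ∧ u.length = m + n) =
      ind (IsB u ∧ u.length = m + n) * 1 := fun u => (mul_one _).symm
  simp_rw [h1]
  calc _ ≤ ∑' u : List St, ind (IsB u ∧ u.length = m + n) * 1 := by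
        refine tsum_inj _ _ _ _ (fun p : LL => p.1 ++ p.2) ?_ ?_ ?_
        · rintro ⟨X, Y⟩ ⟨X', Y'⟩ ⟨⟨a1, a2⟩, ⟨a3, a4⟩⟩ ⟨⟨b1, b2⟩, ⟨b3, b4⟩⟩ h
          simp only at a1 a2 a3 a4 b1 b2 b3 b4 h
          obtain ⟨e1, e2⟩ := List.append_inj h (by omega)
          rw [e1, e2]
        · rintro ⟨X, Y⟩ ⟨⟨a1, a2⟩, ⟨a3, a4⟩⟩
          simp only at a1 a2 a3 a4 ⊢
          exact ⟨a1.append a3, by simp; omega⟩
        · intro p _
          exact le_rfl
    _ = _ := by simp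

lemma one_le_bn (n : ℕ) : 1 ≤ bn n := by
  have h0 : 1 ≤ bn 1 := by
    rw [bn_eq]
    calc (1 : ℝ≥0∞) = ind (IsB [St.E] ∧ [St.E].length = 1) := by
          rw [ind_of ⟨isBr_E.isB, rfl⟩]
      _ ≤ _ := ENNReal.le_tsum (f := fun u : List St => ind (IsB u ∧ u.length = 1)) [St.E]
  induction n with
  | zero =>
    rw [bn_eq]
    calc (1 : ℝ≥0∞) = ind (IsB [] ∧ ([] : List St).length = 0) := by
          rw [ind_of ⟨isB_nil, rfl⟩]
      _ ≤ _ := ENNReal.le_tsum (f := fun u : List St => ind (IsB u ∧ u.length = 0)) []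
  | succ n ih =>
    calc (1 : ℝ≥0∞) = 1 * 1 := (one_mul 1).symm
      _ ≤ bn n * bn 1 := mul_le_mul' ih h0
      _ ≤ _ := bn_mul_le n 1

lemma bn_pow_le (n k : ℕ) : bn n ^ k ≤ bn (n * k) := by
  induction k with
  | zero => simpa using one_le_bn 0
  | succ k ih =>
    calc bn n ^ (k + 1) = bn n ^ k * bn n := pow_succ _ _
      _ ≤ bn (n * k) * bn n := by gcongr
      _ ≤ bn (n * k + n) := bn_mul_le _ _
      _ = _ := by rw [Nat.mul_succ]

/-- number of bridges, as a real -/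
noncomputable def br' (n : ℕ) : ℝ := (bn n).toReal

lemma ofReal_br' (n : ℕ) : ENNReal.ofReal (br' n) = bn n := ENNReal.ofReal_toReal (bn_ne_top n)

lemma one_le_br' (n : ℕ) : 1 ≤ br' n := by
  have := ENNReal.toReal_mono (bn_ne_top n) (one_le_bn n)
  simpa [br'] using this

lemma br'_mul_le (m n : ℕ) : br' m * br' n ≤ br' (m + n) := by
  have := ENNReal.toReal_mono (bn_ne_top (m + n)) (bn_mul_le m n)
  simpa [br', ENNReal.toReal_mul] using this

/-- `b_n ≤ μ^n` -/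
theorem br'_le (n : ℕ) : br' n ≤ mu ^ n := by
  rcases Nat.eq_zero_or_pos n with rfl | hn
  · have h1 : bn 0 ≤ 1 := (bn_le_cc 0).trans cc_zero_le
    have := ENNReal.toReal_mono ENNReal.one_ne_top h1
    simpa [br'] using this
  have key : ∀ r : ℝ, mu < r → br' n ≤ r ^ n := by
    intro r hr
    have hr0 : 0 < r := mu_pos.trans hr
    obtain ⟨m, hm⟩ := (eventually_le hr).exists_forall_of_atTop
    have h1 := hm (n * (m + 1)) (by nlinarith)
    have h2 : br' n ^ (m + 1) ≤ (r ^ n) ^ (m + 1) := by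
      have h3 := ENNReal.toReal_mono (cc_ne_top _) ((bn_pow_le n (m + 1)).trans (bn_le_cc _))
      rw [ENNReal.toReal_pow] at h3
      calc br' n ^ (m + 1) ≤ cr' (n * (m + 1)) := h3
        _ ≤ r ^ (n * (m + 1)) := h1
        _ = _ := pow_mul _ _ _
    have h4 := one_le_br' n
    exact (pow_le_pow_iff_left₀ (by linarith) (by positivity) (by omega)).mp h2
  have h1 : Filter.Tendsto (fun r : ℝ => r ^ n) (nhdsWithin mu (Set.Ioi mu)) (nhds (mu ^ n)) :=
    (continuous_pow n).continuousWithinAt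
  refine ge_of_tendsto h1 ?_
  filter_upwards [self_mem_nhdsWithin] with r hr
  exact key r hr

lemma hh_le_bn' {ε : ℝ} (hε : 0 < ε) : ∃ K : ℝ, 0 ≤ K ∧ ∀ N : ℕ,
    hh N ≤ ENNReal.ofReal (Real.exp (K * (N : ℝ) ^ ε)) * bn N := by
  obtain ⟨K, hK, h⟩ := hh_le_bn hε
  refine ⟨K, hK, fun N => ?_⟩
  rcases Nat.eq_zero_or_pos N with rfl | hN
  · calc hh 0 ≤ 1 * 1 := by rw [one_mul]; exact hh_zero_le
      _ ≤ _ := by
        gcongr
        · rw [← ENNReal.ofReal_one]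
          apply ENNReal.ofReal_le_ofReal
          exact Real.one_le_exp (by positivity)
        · exact one_le_bn 0
  · exact h N hN

/-- all self-avoiding walks versus bridges with one more step -/
theorem cr'_le_br' {ε : ℝ} (hε : 0 < ε) : ∃ K : ℝ, 0 ≤ K ∧ ∀ N : ℕ,
    cr' N ≤ (N + 1) * Real.exp (K * ((N : ℝ) + 1) ^ ε) * br' (N + 1) := by
  obtain ⟨K, hK, h⟩ := hh_le_bn' hε
  refine ⟨2 * K, by positivity, fun N => ?_⟩
  have h1 : cc N ≤ ENNReal.ofReal ((N + 1) * Real.exp (2 * K * ((N : ℝ) + 1) ^ ε) * br' (N + 1)) := by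
    calc cc N ≤ ∑ k ∈ Finset.range (N + 1), hh (k + 1) * hh (N - k) := cc_le N
      _ ≤ ∑ k ∈ Finset.range (N + 1),
          ENNReal.ofReal (Real.exp (2 * K * ((N : ℝ) + 1) ^ ε) * br' (N + 1)) := by
        apply Finset.sum_le_sum
        intro k hk
        rw [Finset.mem_range] at hk
        have e1 : ∀ m : ℕ, m ≤ N + 1 → hh m ≤
            ENNReal.ofReal (Real.exp (K * ((N : ℝ) + 1) ^ ε)) * bn m := by
          intro m hm
          refine (h m).trans ?_
          gcongr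
          have : (m : ℝ) ≤ N + 1 := by exact_mod_cast hm
          exact this
        calc hh (k + 1) * hh (N - k) ≤
              (ENNReal.ofReal (Real.exp (K * ((N : ℝ) + 1) ^ ε)) * bn (k + 1)) *
              (ENNReal.ofReal (Real.exp (K * ((N : ℝ) + 1) ^ ε)) * bn (N - k)) :=
              mul_le_mul' (e1 _ (by omega)) (e1 _ (by omega))
          _ = ENNReal.ofReal (Real.exp (2 * K * ((N : ℝ) + 1) ^ ε)) *
              (bn (k + 1) * bn (N - k)) := by
              have : Real.exp (2 * K * ((N : ℝ) + 1) ^ ε) =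
                  Real.exp (K * ((N : ℝ) + 1) ^ ε) * Real.exp (K * ((N : ℝ) + 1) ^ ε) := by
                rw [← Real.exp_add]; congr 1; ring
              rw [this, ENNReal.ofReal_mul (Real.exp_pos _).le]
              ring
          _ ≤ ENNReal.ofReal (Real.exp (2 * K * ((N : ℝ) + 1) ^ ε)) * bn (N + 1) := by
              gcongr
              have := bn_mul_le (k + 1) (N - k)
              have e2 : k + 1 + (N - k) = N + 1 := by omega
              rwa [e2] at this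
          _ = _ := by rw [ENNReal.ofReal_mul (Real.exp_pos _).le, ofReal_br']
      _ = _ := by
        rw [Finset.sum_const, Finset.card_range, nsmul_eq_mul]
        have e3 : ((N + 1 : ℕ) : ℝ≥0∞) = ENNReal.ofReal ((N : ℝ) + 1) := by
          rw [← Nat.cast_succ, ENNReal.ofReal_natCast]
        rw [e3, ← ENNReal.ofReal_mul (by positivity)]
        congr 1
        ring
  have h2 := ENNReal.toReal_mono ENNReal.ofReal_ne_top h1
  have h3 := one_le_br' (N + 1)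
  rwa [ENNReal.toReal_ofReal (by positivity)] at h2

lemma aux_num {ε K : ℝ} (hε : 0 < ε) (hK : 0 ≤ K) : ∃ K' : ℝ, 0 ≤ K' ∧ ∀ N : ℕ, 1 ≤ N →
    ((N : ℝ) + 1) * Real.exp (K * ((N : ℝ) + 1) ^ ε) * mu ≤ Real.exp (K' * (N : ℝ) ^ ε) := by
  refine ⟨1 + 1 / ε + K * 2 ^ ε + Real.log mu, ?_, ?_⟩
  · have := Real.log_nonneg one_le_mu
    positivity
  intro N hN
  have hNr : (1 : ℝ) ≤ N := by exact_mod_cast hN
  have hN0 : (0 : ℝ) < N := by linarith
  set y := (N : ℝ) ^ ε with hy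
  have hy1 : 1 ≤ y := Real.one_le_rpow hNr hε.le
  have h1 : ((N : ℝ) + 1) ^ ε ≤ 2 ^ ε * y := by
    rw [hy, ← Real.mul_rpow (by norm_num) hN0.le]
    exact Real.rpow_le_rpow (by positivity) (by linarith) hε.le
  have h2 : (N : ℝ) + 1 ≤ Real.exp (y + y / ε) := by
    have e1 : Real.log N ≤ y / ε := Real.log_le_rpow_div hN0.le hε
    calc (N : ℝ) + 1 ≤ 2 * N := by linarith
      _ ≤ Real.exp 1 * N := by
        have := Real.exp_one_gt_d9
        gcongr; linarith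
      _ = Real.exp 1 * Real.exp (Real.log N) := by rw [Real.exp_log hN0]
      _ = Real.exp (1 + Real.log N) := by rw [Real.exp_add]
      _ ≤ _ := Real.exp_le_exp.mpr (by linarith)
  have h3 : mu ≤ Real.exp (Real.log mu * y) := by
    calc mu = Real.exp (Real.log mu) := (Real.exp_log mu_pos).symm
      _ ≤ _ := by
        apply Real.exp_le_exp.mpr
        have := Real.log_nonneg one_le_mu
        nlinarith
  calc ((N : ℝ) + 1) * Real.exp (K * ((N : ℝ) + 1) ^ ε) * mu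
      ≤ Real.exp (y + y / ε) * Real.exp (K * (2 ^ ε * y)) * Real.exp (Real.log mu * y) := by
        have := mu_pos
        gcongr
    _ = _ := by rw [← Real.exp_add, ← Real.exp_add]; congr 1; ring

/-- **Theorem**: `c_n ≤ μ^n exp (K n^ε)` -/
theorem cr'_upper_eps {ε : ℝ} (hε : 0 < ε) : ∃ K : ℝ, 0 ≤ K ∧ ∀ N : ℕ, 1 ≤ N →
    cr' N ≤ mu ^ N * Real.exp (K * (N : ℝ) ^ ε) := by
  obtain ⟨K, hK, h⟩ := cr'_le_br' hε
  obtain ⟨K', hK', h'⟩ := aux_num hε hK
  refine ⟨K', hK', fun N hN => ?_⟩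
  have h1 := h N
  have h2 := br'_le (N + 1)
  calc cr' N ≤ (N + 1) * Real.exp (K * ((N : ℝ) + 1) ^ ε) * br' (N + 1) := h1
    _ ≤ (N + 1) * Real.exp (K * ((N : ℝ) + 1) ^ ε) * mu ^ (N + 1) := by gcongr
    _ = mu ^ N * ((N + 1) * Real.exp (K * ((N : ℝ) + 1) ^ ε) * mu) := by ring
    _ ≤ _ := by
      have := mu_pos
      gcongr
      exact h' N hN

/-- **Theorem**: `b_n ≥ μ^n exp (- K n^ε)` -/
theorem br'_lower_eps {ε : ℝ} (hε : 0 < ε) : ∃ K : ℝ, 0 ≤ K ∧ ∀ N : ℕ, 1 ≤ N →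
    mu ^ N * Real.exp (- (K * (N : ℝ) ^ ε)) ≤ br' N := by
  obtain ⟨K, hK, h⟩ := cr'_le_br' hε
  obtain ⟨K', hK', h'⟩ := aux_num hε hK
  refine ⟨K', hK', fun N hN => ?_⟩
  obtain ⟨n, rfl⟩ := Nat.exists_eq_succ_of_ne_zero (by omega : N ≠ 0)
  have h1 := h n
  have h2 := mu_pow_le n
  have h3 := h' (n + 1) hN
  have hb := one_le_br' (n + 1)
  have hmu := one_le_mu
  have hmu0 := mu_pos
  have h4 : ((n : ℝ) + 1) * Real.exp (K * ((n : ℝ) + 1) ^ ε) * mu ≤
      Real.exp (K' * ((n + 1 : ℕ) : ℝ) ^ ε) := by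
    refine le_trans ?_ h3
    push_cast
    have : (n : ℝ) + 1 ≤ (n : ℝ) + 1 + 1 := by linarith
    gcongr
  rw [Real.exp_neg, ← div_eq_mul_inv, div_le_iff₀ (Real.exp_pos _)]
  calc mu ^ (n + 1) = mu ^ n * mu := pow_succ _ _
    _ ≤ ((n + 1) * Real.exp (K * ((n : ℝ) + 1) ^ ε) * br' (n + 1)) * mu := by
        gcongr
        exact h2.trans h1
    _ = br' (n + 1) * ((n + 1) * Real.exp (K * ((n : ℝ) + 1) ^ ε) * mu) := by ring
    _ ≤ _ := by gcongr

end H981
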