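import Pool.Agent.H977R2.Decode
import Pool.Agent.H977R2.Comb

/-!
Bridges with many foldable cut levels are rare (bridge version of the counting of H977R2).
-/

namespace H981

open Pool.Agent.H977R2

/-- bridges, as functions -/
structure FBr (N : ℕ) (w : ℕ → ℤ × ℤ) : Prop where
  saw : Pool.Agent.H977R2.Saw N w
  pos : ∀ i, 1 ≤ i → i ≤ N → 0 < (w i).1
  le : ∀ i, i ≤ N → (w i).1 ≤ (w N).1

open scoped Classical in
/-- the set of `N`-step bridges of width at most `W` -/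
noncomputable def BrSet (N W : ℕ) : Finset (ℕ → ℤ × ℤ) :=
  (SawSet N).filter (fun w => FBr N w ∧ (w N).1 ≤ W)

theorem mem_BrSet {N W : ℕ} {w : ℕ → ℤ × ℤ} : w ∈ BrSet N W ↔ FBr N w ∧ (w N).1 ≤ W := by
  classical
  unfold BrSet
  simp only [Finset.mem_filter, mem_SawSet]
  exact ⟨fun h => h.2, fun h => ⟨h.1.saw, h⟩⟩

theorem Z_br {N : ℕ} {w : ℕ → ℤ × ℤ} {a b j j' d : ℤ} (hw : FBr N w)
    (h : Cell N w a b j j' d) : FBr N (Z N w j j') ∧ (Z N w j j' N).1 ≤ (w N).1 := by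
  have hj := h.cj.ct
  have hj' := h.cj'.ct
  have ha := h.ca.ct
  have hd := h.cd.ct
  have i1 := h.h1
  have i2 := h.h2
  have i3 := h.h3
  have i4 := h.h4
  have i5 := h.h5
  have htt' : ct N w j < ct N w j' := hj.lt hw.saw hj' h.h4
  have a0 : 0 ≤ a := by
    have := ha.2.1 0 (by omega)
    rw [hw.saw.zero] at this
    exact this
  have hdN : d + 1 ≤ (w N).1 := hd.2.2 N hd.1
  have hN : (Z N w j j' N).1 = (w N).1 - 2 * (j' - j) := by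
    rw [Z, zf_gt hj.1 hj'.1]
  refine ⟨⟨h.saw, ?_, ?_⟩, by rw [hN]; omega⟩
  · intro i hi hiN
    rcases Nat.lt_or_ge (ct N w j) i with h6 | h6
    · rcases Nat.lt_or_ge (ct N w j') i with h7 | h7
      · rw [Z, zf_gt h6 h7]
        have := hj'.2.2 i h7
        simp only; omega
      · rw [Z, zf_mid h6 h7]
        have := hj'.2.1 i h7
        simp only; omega
    · rw [Z, zf_le h6]
      exact hw.pos i hi hiN
  · intro i hiN
    rw [hN]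
    rcases Nat.lt_or_ge (ct N w j) i with h6 | h6
    · rcases Nat.lt_or_ge (ct N w j') i with h7 | h7
      · rw [Z, zf_gt h6 h7]
        have := hw.le i hiN
        simp only; omega
      · rw [Z, zf_mid h6 h7]
        have := hj.2.2 i h6
        simp only; omega
    · rw [Z, zf_le h6]
      have := hj.2.1 i h6
      omega

theorem Zs_br {N : ℕ} {w : ℕ → ℤ × ℤ} {a b j j' d : ℕ → ℤ} {s : ℕ} (hw : FBr N w)
    (h : ∀ k, k < s → Cell N w (a k) (b k) (j k) (j' k) (d k))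
    (hch : ∀ k, k + 1 < s → d (k + 1) ≤ a k) :
    ∀ k, k ≤ s → FBr N (Zs N w j j' k) ∧ (Zs N w j j' k N).1 ≤ (w N).1 := by
  intro k
  induction k with
  | zero => intro _; exact ⟨hw, le_rfl⟩
  | succ k ih =>
    intro hk
    obtain ⟨ih1, ih2⟩ := ih (by omega)
    obtain ⟨A1, A2⟩ := Zs_inv hw.saw h hch k (by omega)
    have hc := A2 k le_rfl (by omega)
    obtain ⟨g1, g2⟩ := Z_br ih1 hc
    exact ⟨g1, g2.trans ih2⟩

/-- a set of foldable cut levels in good position -/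
structure GoodJ (N : ℕ) (w : ℕ → ℤ × ℤ) (J : Finset ℤ) : Prop where
  cut : ∀ m ∈ J, Cut N w m (ct N w m)
  fold : ∀ m ∈ J, Pool.Agent.H977R2.Saw N (fl w m (ct N w m))
  up : ∀ m ∈ J, Up w (ct N w m)
  pair : ∀ x ∈ J, ∀ y ∈ J, x < y → 2 * y - x ≤ (w N).1 ∧ y ≤ 2 * x

theorem cell_of_good {N : ℕ} {J : Finset ℤ} {w : ℕ → ℤ × ℤ} {a b j j' d : ℤ}
    (hw : Pool.Agent.H977R2.Saw N w)
    (hJ : GoodJ N w J) (ha : a ∈ J) (hb : b ∈ J) (hj : j ∈ J)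
    (hj' : j' ∈ J) (hd : d ∈ J) (h1 : a < 2 * j - j') (h2 : 2 * j - j' ≤ b)
    (h3 : b < j) (h4 : j < j') (h5 : 2 * j' - j ≤ d) : Cell N w a b j j' d := by
  have e1 := (hJ.pair a ha j hj (by omega)).1
  have e2 := (hJ.pair j' hj' d hd (by omega)).2
  exact ⟨⟨_, hJ.cut a ha⟩, ⟨_, hJ.cut b hb⟩, ⟨_, hJ.cut j hj⟩, ⟨_, hJ.cut j' hj'⟩,
    ⟨_, hJ.cut d hd⟩, h1, h2, h3, h4, h5,
    zf_saw hw (hJ.cut j hj) (hJ.cut j' hj') h4 (hJ.fold j hj) (hJ.fold j' hj') (hJ.up j hj)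
      (hJ.up j' hj') (hJ.cut a ha) h1 (hJ.cut d hd) h5 e1 e2⟩

/-- Extend a function on `Fin s` by zero. -/
def ext0 {s : ℕ} (f : Fin s → ℤ) : ℕ → ℤ := fun k => if h : k < s then f ⟨k, h⟩ else 0

theorem ext0_lt {s : ℕ} (f : Fin s → ℤ) {k : ℕ} (h : k < s) : ext0 f k = f ⟨k, h⟩ := by
  simp [ext0, h]

open scoped Classical in
/-- Counting at a fixed scale. -/
theorem count_scale (N W : ℕ) (Λ θ s T n0 i : ℕ) (hs : 1 ≤ s)
    (hΛ : 2 ≤ Λ) (hi : i < T) (hT : (W : ℤ) < (Λ : ℤ) ^ T) (B : Finset (ℕ → ℤ × ℤ))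
    (Jf : (ℕ → ℤ × ℤ) → Finset ℤ)
    (hB : ∀ w ∈ B, FBr N w ∧ (w N).1 ≤ W ∧ n0 ≤ (Jf w).card ∧ GoodJ N w (Jf w))
    (q : (ℕ → ℤ × ℤ) → ℤ) (a b0 d : (ℕ → ℤ × ℤ) → ℕ → ℤ)
    (P P' : (ℕ → ℤ × ℤ) → ℕ → Finset ℤ)
    (hC : ∀ w ∈ B, ∀ k < s,
      a w k ∈ Jf w ∧ b0 w k ∈ Jf w ∧ d w k ∈ Jf w ∧
      P w k ⊆ Jf w ∧ P' w k ⊆ Jf w ∧
      (Jf w).card ≤ 2 * Λ * θ ^ T * (P w k).card ∧
      (Jf w).card ≤ 2 * Λ * θ ^ T * (P' w k).card ∧
      (∀ j ∈ P w k, ∀ j' ∈ P' w k, a w k < 2 * j - j' ∧ 2 * j - j' ≤ b0 w k ∧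
        b0 w k + (Λ : ℤ) ^ i ≤ j ∧ j < j' ∧ 2 * j' - j ≤ d w k) ∧
      (∀ j ∈ P w k, q w * (Λ : ℤ) ^ (i + 1) ≤ j - (Λ : ℤ) ^ i ∧
        j < (q w + 1) * (Λ : ℤ) ^ (i + 1)) ∧
      (k + 1 < s → d w (k + 1) ≤ a w k)) :
    B.card * n0 ^ (2 * s) ≤ Λ ^ (T + s) * (2 * Λ * θ ^ T) ^ (2 * s) * (BrSet N W).card := by
  obtain ⟨B', hB'⟩ : ∃ B', B' = BrSet N W := ⟨_, rfl⟩
  rw [← hB']
  have hΛi : 0 < Λ ^ i := by positivity
  -- the domain
  obtain ⟨D, hD⟩ : ∃ D : Finset ((_ : ℕ → ℤ × ℤ) × (Fin s → ℤ × ℤ × ℕ)), D =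
      B.sigma (fun w => Fintype.piFinset (fun k : Fin s =>
        P w k ×ˢ (P' w k ×ˢ Finset.range (Λ ^ i)))) := ⟨_, rfl⟩
  have hDcard : D.card = ∑ w ∈ B, ∏ k : Fin s, ((P w k).card * ((P' w k).card * Λ ^ i)) := by
    rw [hD, Finset.card_sigma]
    refine Finset.sum_congr rfl (fun w _ => ?_)
    rw [Fintype.card_piFinset]
    refine Finset.prod_congr rfl (fun k _ => ?_)
    rw [Finset.card_product, Finset.card_product, Finset.card_range]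
  -- lower bound for the domain
  have hlow : B.card * (n0 ^ (2 * s) * (Λ ^ i) ^ s) ≤ (2 * Λ * θ ^ T) ^ (2 * s) * D.card := by
    rw [hDcard, Finset.mul_sum, ← smul_eq_mul, ← Finset.sum_const]
    refine Finset.sum_le_sum (fun w hw => ?_)
    have h1 : n0 ^ (2 * s) * (Λ ^ i) ^ s = ∏ _k : Fin s, (n0 ^ 2 * Λ ^ i) := by
      rw [Finset.prod_const, Finset.card_univ, Fintype.card_fin, mul_pow, pow_mul]
    have h2 : (2 * Λ * θ ^ T) ^ (2 * s) * ∏ k : Fin s, ((P w k).card * ((P' w k).card * Λ ^ i))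
        = ∏ k : Fin s, ((2 * Λ * θ ^ T) ^ 2 * ((P w k).card * ((P' w k).card * Λ ^ i))) := by
      conv_rhs => rw [Finset.prod_mul_distrib, Finset.prod_const, Finset.card_univ,
        Fintype.card_fin, ← pow_mul]
    rw [h1, h2]
    refine Finset.prod_le_prod' (fun k _ => ?_)
    obtain ⟨-, -, -, -, -, c1, c2, -⟩ := hC w hw k k.2
    have c0 := (hB w hw).2.2.1
    calc n0 ^ 2 * Λ ^ i = (n0 * n0) * Λ ^ i := by ring
      _ ≤ ((2 * Λ * θ ^ T * (P w k).card) * (2 * Λ * θ ^ T * (P' w k).card)) * Λ ^ i := by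
          gcongr
          · exact c0.trans c1
          · exact c0.trans c2
      _ = (2 * Λ * θ ^ T) ^ 2 * ((P w k).card * ((P' w k).card * Λ ^ i)) := by ring
  -- the codomain
  obtain ⟨Q, hQ⟩ : ∃ Q : Finset (Fin s → ℤ), Q = (Finset.range (Λ ^ (T - i - 1))).biUnion
      (fun r => Fintype.piFinset (fun _ : Fin s =>
        Finset.Ico ((r : ℤ) * (Λ : ℤ) ^ (i + 1)) (((r : ℤ) + 1) * (Λ : ℤ) ^ (i + 1)))) := ⟨_, rfl⟩
  have hQcard : Q.card ≤ Λ ^ (T - i - 1) * (Λ ^ (i + 1)) ^ s := by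
    rw [hQ]
    refine Finset.card_biUnion_le.trans ?_
    refine (Finset.sum_le_card_nsmul _ _ ((Λ ^ (i + 1)) ^ s) (fun r _ => ?_)).trans ?_
    · rw [Fintype.card_piFinset, Finset.prod_const, Finset.card_univ, Fintype.card_fin,
        Int.card_Ico]
      apply le_of_eq
      congr 1
      have : ((r : ℤ) + 1) * (Λ : ℤ) ^ (i + 1) - (r : ℤ) * (Λ : ℤ) ^ (i + 1) =
          ((Λ ^ (i + 1) : ℕ) : ℤ) := by push_cast; ring
      rw [this, Int.toNat_natCast]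
    · rw [Finset.card_range, smul_eq_mul]
  -- cells
  have hcell : ∀ x ∈ D, ∀ k (hk : k < s),
      Cell N x.1 (a x.1 k) (b0 x.1 k) (x.2 ⟨k, hk⟩).1 (x.2 ⟨k, hk⟩).2.1 (d x.1 k) ∧
      b0 x.1 k < (x.2 ⟨k, hk⟩).1 - (x.2 ⟨k, hk⟩).2.2 ∧
      q x.1 * (Λ : ℤ) ^ (i + 1) ≤ (x.2 ⟨k, hk⟩).1 - (x.2 ⟨k, hk⟩).2.2 ∧
      (x.2 ⟨k, hk⟩).1 < (q x.1 + 1) * (Λ : ℤ) ^ (i + 1) ∧
      0 ≤ (x.2 ⟨k, hk⟩).1 ∧ (x.2 ⟨k, hk⟩).1 ≤ W ∧
      (k + 1 < s → d x.1 (k + 1) ≤ a x.1 k) := by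
    rintro ⟨w, f⟩ hx k hk
    rw [hD, Finset.mem_sigma] at hx
    obtain ⟨hw, hf⟩ := hx
    simp only at hw hf ⊢
    rw [Fintype.mem_piFinset] at hf
    have hfk := hf ⟨k, hk⟩
    rw [Finset.mem_product, Finset.mem_product, Finset.mem_range] at hfk
    obtain ⟨f1, f2, f3⟩ := hfk
    obtain ⟨c1, c2, c3, c4, c5, -, -, c6, c7, c8⟩ := hC w hw k hk
    obtain ⟨hbr, hK, -, hG⟩ := hB w hw
    have m4' := c4 f1
    have m5 := c5 f2
    obtain ⟨i1, i2, i3, i4, i5⟩ := c6 _ f1 _ f2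
    obtain ⟨i6, i7⟩ := c7 _ f1
    have hpos : (0 : ℤ) < (Λ : ℤ) ^ i := by positivity
    have f3' : ((f ⟨k, hk⟩).2.2 : ℤ) < (Λ : ℤ) ^ i := by exact_mod_cast f3
    have hcut := hG.cut _ m4'
    have hJ0 := hcut.2.1 0 (by omega)
    rw [hbr.saw.zero] at hJ0
    have hJ1 := (hcut.spec hbr.saw).1
    have hJ2 := hbr.le _ hcut.1.le
    refine ⟨cell_of_good hbr.saw hG c1 c2 m4' m5 c3 i1 i2 (by omega) i4 i5, by omega,
      by omega, i7, hJ0, ?_, c8⟩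
    rw [hJ1] at hJ2; omega
  -- the map
  obtain ⟨Φ, hΦ⟩ : ∃ Φ : ((_ : ℕ → ℤ × ℤ) × (Fin s → ℤ × ℤ × ℕ)) →
      (ℕ → ℤ × ℤ) × (Fin s → ℤ), ∀ x, Φ x =
      (Zs N x.1 (ext0 (fun k => (x.2 k).1)) (ext0 (fun k => (x.2 k).2.1)) s,
        fun k => (x.2 k).1 - (x.2 k).2.2) := ⟨_, fun _ => rfl⟩
  have hcell' : ∀ x ∈ D, ∀ k, k < s → Cell N x.1 (a x.1 k) (b0 x.1 k)
      (ext0 (fun k => (x.2 k).1) k) (ext0 (fun k => (x.2 k).2.1) k) (d x.1 k) := by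
    intro x hx k hk
    rw [ext0_lt _ hk, ext0_lt _ hk]
    exact (hcell x hx k hk).1
  have hchain : ∀ x ∈ D, ∀ k, k + 1 < s → d x.1 (k + 1) ≤ a x.1 k := by
    intro x hx k hk
    exact (hcell x hx k (by omega)).2.2.2.2.2.2 hk
  have hDB : ∀ x ∈ D, x.1 ∈ B := by
    intro x hx
    rw [hD, Finset.mem_sigma] at hx
    exact hx.1
  have hcard : D.card ≤ (B' ×ˢ Q).card := by
    refine Finset.card_le_card_of_injOn Φ ?_ ?_
    · intro x hx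
      rw [Finset.mem_coe] at hx ⊢
      have hxB := hB x.1 (hDB x hx)
      rw [Finset.mem_product, hΦ]
      constructor
      · rw [hB', mem_BrSet]
        obtain ⟨g1, g2⟩ := Zs_br hxB.1 (hcell' x hx) (hchain x hx) s le_rfl
        exact ⟨g1, g2.trans hxB.2.1⟩
      · have h0 := hcell x hx 0 (by omega)
        have hq0 : 0 ≤ q x.1 := by
          by_contra hcon
          have h1 : (q x.1 + 1) * (Λ : ℤ) ^ (i + 1) ≤ 0 :=
            mul_nonpos_of_nonpos_of_nonneg (by omega) (by positivity)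
          have := h0.2.2.2.1
          have := h0.2.2.2.2.1
          omega
        have hq1 : q x.1 < (Λ : ℤ) ^ (T - i - 1) := by
          by_contra hcon
          have h1 : (Λ : ℤ) ^ (T - i - 1) * (Λ : ℤ) ^ (i + 1) ≤ q x.1 * (Λ : ℤ) ^ (i + 1) :=
            mul_le_mul_of_nonneg_right (by omega) (by positivity)
          rw [← pow_add] at h1
          have e : T - i - 1 + (i + 1) = T := by omega
          rw [e] at h1
          have h3 := h0.2.2.1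
          have h4 := h0.2.2.2.2.2.1
          omega
        rw [hQ, Finset.mem_biUnion]
        refine ⟨(q x.1).toNat, ?_, ?_⟩
        · rw [Finset.mem_range]
          zify
          rw [Int.toNat_of_nonneg hq0]
          exact hq1
        · rw [Fintype.mem_piFinset]
          intro k
          rw [Finset.mem_Ico, Int.toNat_of_nonneg hq0]
          have hk := hcell x hx k k.2
          refine ⟨hk.2.2.1, ?_⟩
          have hk1 : (x.2 k).1 < (q x.1 + 1) * (Λ : ℤ) ^ (i + 1) := hk.2.2.2.1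
          have hk2 : (x.2 k).1 - ((x.2 k).2.2 : ℤ) ≤ (x.2 k).1 := by omega
          exact lt_of_le_of_lt hk2 hk1
    · intro x hx y hy heq
      rw [Finset.mem_coe] at hx hy
      have hxB := hB x.1 (hDB x hx)
      have hyB := hB y.1 (hDB y hy)
      rw [hΦ, hΦ, Prod.mk.injEq] at heq
      obtain ⟨e1, e2⟩ := heq
      have hdec := Zs_decode (p := ext0 (fun k => (x.2 k).1 - (x.2 k).2.2)) hxB.1.saw hyB.1.saw
        (hcell' x hx) (hchain x hx) (hcell' y hy) (hchain y hy)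
        (by
          intro k hk
          rw [ext0_lt _ hk, ext0_lt _ hk]
          refine ⟨(hcell x hx k hk).2.1, by omega⟩)
        (by
          intro k hk
          rw [ext0_lt _ hk, ext0_lt _ hk]
          have e3 := congrFun e2 ⟨k, hk⟩
          rw [e3]
          refine ⟨(hcell y hy k hk).2.1, by omega⟩) s le_rfl e1
      obtain ⟨g1, g2⟩ := hdec
      have g3 : x.2 = y.2 := by
        funext k
        obtain ⟨g4, g5⟩ := g2 k k.2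
        rw [ext0_lt _ k.2, ext0_lt _ k.2] at g4 g5
        have e3 : (x.2 k).1 - ((x.2 k).2.2 : ℤ) = (y.2 k).1 - ((y.2 k).2.2 : ℤ) := congrFun e2 k
        have g4' : (x.2 k).1 = (y.2 k).1 := g4
        have g5' : (x.2 k).2.1 = (y.2 k).2.1 := g5
        have g6 : (x.2 k).2.2 = (y.2 k).2.2 := by omega
        exact Prod.ext g4' (Prod.ext g5' g6)
      obtain ⟨x1, x2⟩ := x
      obtain ⟨y1, y2⟩ := y
      simp only at g1 g3
      subst g1 g3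
      rfl
  rw [Finset.card_product] at hcard
  -- put together
  have h1 : B.card * n0 ^ (2 * s) * (Λ ^ i) ^ s ≤
      (Λ ^ (T + s) * (2 * Λ * θ ^ T) ^ (2 * s) * B'.card) * (Λ ^ i) ^ s := by
    calc B.card * n0 ^ (2 * s) * (Λ ^ i) ^ s = B.card * (n0 ^ (2 * s) * (Λ ^ i) ^ s) := by ring
      _ ≤ (2 * Λ * θ ^ T) ^ (2 * s) * D.card := hlow
      _ ≤ (2 * Λ * θ ^ T) ^ (2 * s) * (B'.card * (Λ ^ (T - i - 1) * (Λ ^ (i + 1)) ^ s)) := by
          gcongr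
          exact hcard.trans (Nat.mul_le_mul_left _ hQcard)
      _ = (Λ ^ (T - i - 1) * Λ ^ s) * ((2 * Λ * θ ^ T) ^ (2 * s) * B'.card) * (Λ ^ i) ^ s := by
          rw [pow_succ Λ i, mul_pow]; ring
      _ ≤ Λ ^ (T + s) * ((2 * Λ * θ ^ T) ^ (2 * s) * B'.card) * (Λ ^ i) ^ s := by
          gcongr
          rw [← pow_add]
          exact Nat.pow_le_pow_right (by omega) (by omega)
      _ = _ := by ring
  exact Nat.le_of_mul_le_mul_right h1 (by positivity)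

/-- The output of the combinatorial lemma on finite sets of integers. -/
def CombData (Λ θ s T : ℕ) : Prop :=
  ∀ J : Finset ℤ, (∀ m ∈ J, 0 ≤ m ∧ m < (Λ : ℤ) ^ T) → θ ^ T < J.card →
    ∃ (i : ℕ) (q : ℤ) (a b0 d : ℕ → ℤ) (P P' : ℕ → Finset ℤ), i < T ∧ ∀ k < s,
      a k ∈ J ∧ b0 k ∈ J ∧ d k ∈ J ∧ P k ⊆ J ∧ P' k ⊆ J ∧
      J.card ≤ 2 * Λ * θ ^ T * (P k).card ∧ J.card ≤ 2 * Λ * θ ^ T * (P' k).card ∧
      (∀ j ∈ P k, ∀ j' ∈ P' k, a k < 2 * j - j' ∧ 2 * j - j' ≤ b0 k ∧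
        b0 k + (Λ : ℤ) ^ i ≤ j ∧ j < j' ∧ 2 * j' - j ≤ d k) ∧
      (∀ j ∈ P k, q * (Λ : ℤ) ^ (i + 1) ≤ j - (Λ : ℤ) ^ i ∧ j < (q + 1) * (Λ : ℤ) ^ (i + 1)) ∧
      (k + 1 < s → d (k + 1) ≤ a k)

open scoped Classical in
/-- Bridges with many foldable cut levels are rare. -/
theorem count_big (N W : ℕ) (Λ θ s T n0 : ℕ) (hs : 1 ≤ s)
    (hΛ : 2 ≤ Λ) (hT : (W : ℤ) < (Λ : ℤ) ^ T) (hn0 : θ ^ T < n0) (hC : CombData Λ θ s T)
    (Jf : (ℕ → ℤ × ℤ) → Finset ℤ) (hJf : ∀ w ∈ BrSet N W, GoodJ N w (Jf w)) :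
    ((BrSet N W).filter (fun w => n0 ≤ (Jf w).card)).card * n0 ^ (2 * s) ≤
      T * (Λ ^ (T + s) * (2 * Λ * θ ^ T) ^ (2 * s) * (BrSet N W).card) := by
  obtain ⟨B, hB⟩ : ∃ B, B = (BrSet N W).filter (fun w => n0 ≤ (Jf w).card) := ⟨_, rfl⟩
  rw [← hB]
  have hBm : ∀ w ∈ B, w ∈ BrSet N W ∧ n0 ≤ (Jf w).card := by
    intro w hw
    rwa [hB, Finset.mem_filter] at hw
  have key : ∀ w : ℕ → ℤ × ℤ, ∃ (i : ℕ) (q : ℤ) (a b0 d : ℕ → ℤ) (P P' : ℕ → Finset ℤ),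
      w ∈ B → (i < T ∧ ∀ k < s,
      a k ∈ Jf w ∧ b0 k ∈ Jf w ∧ d k ∈ Jf w ∧
      P k ⊆ Jf w ∧ P' k ⊆ Jf w ∧
      (Jf w).card ≤ 2 * Λ * θ ^ T * (P k).card ∧
      (Jf w).card ≤ 2 * Λ * θ ^ T * (P' k).card ∧
      (∀ j ∈ P k, ∀ j' ∈ P' k, a k < 2 * j - j' ∧ 2 * j - j' ≤ b0 k ∧
        b0 k + (Λ : ℤ) ^ i ≤ j ∧ j < j' ∧ 2 * j' - j ≤ d k) ∧
      (∀ j ∈ P k, q * (Λ : ℤ) ^ (i + 1) ≤ j - (Λ : ℤ) ^ i ∧
        j < (q + 1) * (Λ : ℤ) ^ (i + 1)) ∧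
      (k + 1 < s → d (k + 1) ≤ a k)) := by
    intro w
    by_cases hw : w ∈ B
    · obtain ⟨h1, h3⟩ := hBm w hw
      have hG := hJf w h1
      rw [mem_BrSet] at h1
      obtain ⟨i, q, a, b0, d, P, P', h⟩ := hC (Jf w) (by
        intro m hm
        have hcut := hG.cut _ hm
        have hJ0 := hcut.2.1 0 (by omega)
        rw [h1.1.saw.zero] at hJ0
        have hJ1 := (hcut.spec h1.1.saw).1
        have hJ2 := h1.1.le _ hcut.1.le
        rw [hJ1] at hJ2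
        have := h1.2
        exact ⟨hJ0, by omega⟩) (by omega)
      exact ⟨i, q, a, b0, d, P, P', fun _ => h⟩
    · exact ⟨0, 0, 0, 0, 0, fun _ => ∅, fun _ => ∅, fun h => absurd h hw⟩
  choose i q a b0 d P P' hkey using key
  have hfib : B.card = ∑ r ∈ Finset.range T, (B.filter (fun w => i w = r)).card := by
    apply Finset.card_eq_sum_card_fiberwise
    intro w hw
    rw [Finset.mem_coe, Finset.mem_range]
    exact (hkey w hw).1
  rw [hfib, Finset.sum_mul]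
  refine (Finset.sum_le_card_nsmul _ _ (Λ ^ (T + s) * (2 * Λ * θ ^ T) ^ (2 * s) *
      (BrSet N W).card) (fun r hr => ?_)).trans ?_
  · rw [Finset.mem_range] at hr
    refine count_scale N W Λ θ s T n0 r hs hΛ hr hT _ Jf ?_ q a b0 d P P' ?_
    · intro w hw
      rw [Finset.mem_filter] at hw
      obtain ⟨h1, h2⟩ := hBm w hw.1
      have h3 := h1
      rw [mem_BrSet] at h3
      exact ⟨h3.1, h3.2, h2, hJf w h1⟩
    · intro w hw k hk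
      rw [Finset.mem_filter] at hw
      have := (hkey w hw.1).2 k hk
      rw [hw.2] at this
      exact this
  · rw [Finset.card_range, smul_eq_mul]

/-- the average number of foldable levels (in good position) is at most `C W^ε` -/
theorem sum_Jf_le {ε : ℝ} (hε : 0 < ε) : ∃ C : ℝ, 0 ≤ C ∧ ∀ (N W : ℕ), 1 ≤ W →
    ∀ (Jf : (ℕ → ℤ × ℤ) → Finset ℤ), (∀ w ∈ BrSet N W, GoodJ N w (Jf w)) →
    ((∑ w ∈ BrSet N W, (Jf w).card : ℕ) : ℝ) ≤ C * (W : ℝ) ^ ε * ((BrSet N W).card : ℝ) := by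
  classical
  -- parameters
  obtain ⟨b, hb⟩ : ∃ b : ℕ, 2 / ε < b := exists_nat_gt _
  obtain ⟨s, hs⟩ : ∃ s : ℕ, 3 / ε < s := exists_nat_gt _
  have hb0 : 0 < b := by
    have : (0 : ℝ) < b := lt_trans (by positivity) hb
    exact_mod_cast this
  have hs0 : 1 ≤ s := by
    have : (0 : ℝ) < s := lt_trans (by positivity) hs
    exact_mod_cast this
  have hbε : (1 : ℝ) / b ≤ ε / 2 := by
    rw [div_lt_iff₀ hε] at hb
    rw [div_le_iff₀ (by exact_mod_cast hb0)]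
    linarith
  have hsε : 3 ≤ ε * s := by
    rw [div_lt_iff₀ hε] at hs
    linarith
  obtain ⟨Λ, θ, hΛ, hθ, hθΛ, hcomb⟩ := comb_lemma s b
  have hΛ' : (2 : ℝ) ≤ Λ := by exact_mod_cast hΛ
  obtain ⟨C₁, hC₁⟩ : ∃ C₁ : ℝ, C₁ = 4 * Λ ^ (s + 1) * (2 * Λ) ^ (2 * s) := ⟨_, rfl⟩
  have hC₁0 : 0 ≤ C₁ := by rw [hC₁]; positivity
  refine ⟨Λ + 2 + C₁, by positivity, ?_⟩
  intro N W hW Jf hJf
  have hNr : (1 : ℝ) ≤ W := by exact_mod_cast hW
  have hNpos : (0 : ℝ) < W := by linarith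
  -- T
  obtain ⟨T, hT⟩ : ∃ T, T = Nat.log Λ W + 1 := ⟨_, rfl⟩
  have hTlt : W < Λ ^ T := by rw [hT]; exact Nat.lt_pow_succ_log_self (by omega) W
  have hTle : Λ ^ T ≤ Λ * W := by
    rw [hT, pow_succ, mul_comm]
    exact Nat.mul_le_mul_left _ (Nat.pow_log_le_self Λ (by omega))
  have hTN : T ≤ 2 * W := by
    have : Nat.log Λ W ≤ W := Nat.log_le_self Λ W
    omega
  -- θ^T
  have hθT : ((θ ^ T : ℕ) : ℝ) ≤ Λ * (W : ℝ) ^ (ε / 2) := by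
    have h1 : ((θ ^ T : ℕ) : ℝ) ^ b ≤ (Λ : ℝ) * W := by
      have : (θ ^ T) ^ b ≤ Λ * W := by
        calc (θ ^ T) ^ b = (θ ^ b) ^ T := by rw [← pow_mul, ← pow_mul, mul_comm]
          _ ≤ Λ ^ T := Nat.pow_le_pow_left hθΛ T
          _ ≤ Λ * W := hTle
      exact_mod_cast this
    have h2 : ((θ ^ T : ℕ) : ℝ) = (((θ ^ T : ℕ) : ℝ) ^ b) ^ ((1 : ℝ) / b) := by
      rw [← Real.rpow_natCast, ← Real.rpow_mul (by positivity)]
      rw [mul_one_div_cancel (by exact_mod_cast hb0.ne'), Real.rpow_one]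
    rw [h2]
    calc (((θ ^ T : ℕ) : ℝ) ^ b) ^ ((1 : ℝ) / b) ≤ ((Λ : ℝ) * W) ^ ((1 : ℝ) / b) :=
          Real.rpow_le_rpow (by positivity) h1 (by positivity)
      _ = (Λ : ℝ) ^ ((1 : ℝ) / b) * (W : ℝ) ^ ((1 : ℝ) / b) :=
          Real.mul_rpow (by positivity) (by positivity)
      _ ≤ (Λ : ℝ) ^ (1 : ℝ) * (W : ℝ) ^ (ε / 2) := by
          refine mul_le_mul ?_ ?_ (by positivity) (by positivity)
          · apply Real.rpow_le_rpow_of_exponent_le (by linarith)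
            rw [div_le_one (by exact_mod_cast hb0)]
            exact_mod_cast hb0
          · exact Real.rpow_le_rpow_of_exponent_le hNr hbε
      _ = Λ * (W : ℝ) ^ (ε / 2) := by rw [Real.rpow_one]
  -- n0
  have hNε : (1 : ℝ) ≤ (W : ℝ) ^ ε := Real.one_le_rpow hNr hε.le
  have hNε2 : (W : ℝ) ^ (ε / 2) * (W : ℝ) ^ (ε / 2) = (W : ℝ) ^ ε := by
    rw [← Real.rpow_add hNpos]; congr 1; ring
  have hNε2' : (1 : ℝ) ≤ (W : ℝ) ^ (ε / 2) := Real.one_le_rpow hNr (by positivity)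
  obtain ⟨n0, hn0⟩ : ∃ n0 : ℕ, n0 = ⌈(Λ : ℝ) * (W : ℝ) ^ ε⌉₊ + 1 := ⟨_, rfl⟩
  have hn0lo : (Λ : ℝ) * (W : ℝ) ^ ε < n0 := by
    rw [hn0]; push_cast
    have := Nat.le_ceil ((Λ : ℝ) * (W : ℝ) ^ ε)
    linarith
  have hn0hi : (n0 : ℝ) ≤ (Λ + 2) * (W : ℝ) ^ ε := by
    rw [hn0]; push_cast
    have := Nat.ceil_lt_add_one (a := (Λ : ℝ) * (W : ℝ) ^ ε) (by positivity)
    nlinarith
  have hθn0 : θ ^ T < n0 := by
    have : ((θ ^ T : ℕ) : ℝ) < n0 := by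
      refine lt_of_le_of_lt hθT (lt_of_le_of_lt ?_ hn0lo)
      rw [← hNε2]
      nlinarith [hNε2']
    exact_mod_cast this
  -- the main counting inputs
  have hJW : ∀ w ∈ BrSet N W, (Jf w).card ≤ W + 1 := by
    intro w hw
    have hG := hJf w hw
    rw [mem_BrSet] at hw
    have hsub : Jf w ⊆ Finset.Icc (0 : ℤ) W := by
      intro m hm
      have hcut := hG.cut _ hm
      have hJ0 := hcut.2.1 0 (by omega)
      rw [hw.1.saw.zero] at hJ0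
      have hJ1 := (hcut.spec hw.1.saw).1
      have hJ2 := hw.1.le _ hcut.1.le
      rw [hJ1] at hJ2
      have := hw.2
      rw [Finset.mem_Icc]
      exact ⟨hJ0, by omega⟩
    refine (Finset.card_le_card hsub).trans ?_
    rw [Int.card_Icc]; omega
  have c2 : ∑ w ∈ BrSet N W, (Jf w).card ≤ n0 * (BrSet N W).card +
      ((BrSet N W).filter (fun w => n0 ≤ (Jf w).card)).card * (W + 1) := by
    have h1 : ∀ w ∈ BrSet N W, (Jf w).card ≤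
        n0 + (if n0 ≤ (Jf w).card then (W + 1) else 0) := by
      intro w hw
      split_ifs with h
      · have := hJW w hw; omega
      · omega
    refine (Finset.sum_le_sum h1).trans ?_
    rw [Finset.sum_add_distrib, Finset.sum_const, smul_eq_mul, ← Finset.sum_filter,
      Finset.sum_const, smul_eq_mul, mul_comm n0]
  have c3 := count_big N W Λ θ s T n0 hs0 hΛ (by exact_mod_cast hTlt)
    hθn0 (fun J hJ hJ' => hcomb T J hJ hJ') Jf hJf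
  generalize hX1 : (BrSet N W).card = B' at *
  generalize hX2 : ((BrSet N W).filter (fun w => n0 ≤ (Jf w).card)).card = Bb at *
  generalize hX3 : ∑ w ∈ BrSet N W, (Jf w).card = SJ at *
  -- real versions
  have r2 : (SJ : ℝ) ≤ n0 * B' + Bb * (W + 1) := by exact_mod_cast c2
  have r3 : (Bb : ℝ) * (n0 : ℝ) ^ (2 * s) ≤
      T * ((Λ : ℝ) ^ (T + s) * (2 * Λ * (θ : ℝ) ^ T) ^ (2 * s) * B') := by exact_mod_cast c3
  -- Bb is small
  have r3' : (Bb : ℝ) * (W + 1) ≤ C₁ * B' := by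
    have e1 : ((Λ : ℝ) ^ (T + s)) ≤ Λ ^ (s + 1) * W := by
      have : (Λ : ℝ) ^ T ≤ Λ * W := by exact_mod_cast hTle
      calc (Λ : ℝ) ^ (T + s) = Λ ^ T * Λ ^ s := pow_add _ _ _
        _ ≤ (Λ * W) * Λ ^ s := by gcongr
        _ = Λ ^ (s + 1) * W := by ring
    have e2 : (2 * Λ * (θ : ℝ) ^ T) ^ (2 * s) ≤ (2 * Λ) ^ (2 * s) *
        (Λ ^ (2 * s) * (W : ℝ) ^ (ε * s)) := by
      have h1 : (θ : ℝ) ^ T ≤ Λ * (W : ℝ) ^ (ε / 2) := by exact_mod_cast hθT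
      have h2 : ((W : ℝ) ^ (ε / 2)) ^ (2 * s) = (W : ℝ) ^ (ε * s) := by
        rw [← Real.rpow_natCast, ← Real.rpow_mul hNpos.le]
        congr 1; push_cast; ring
      calc (2 * Λ * (θ : ℝ) ^ T) ^ (2 * s) ≤ (2 * Λ * (Λ * (W : ℝ) ^ (ε / 2))) ^ (2 * s) := by
            gcongr
        _ = (2 * Λ) ^ (2 * s) * (Λ ^ (2 * s) * ((W : ℝ) ^ (ε / 2)) ^ (2 * s)) := by
            rw [mul_pow, mul_pow (Λ : ℝ)]
        _ = _ := by rw [h2]
    have e3 : (Λ : ℝ) ^ (2 * s) * (W : ℝ) ^ (2 * (ε * s)) ≤ (n0 : ℝ) ^ (2 * s) := by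
      have h2 : ((W : ℝ) ^ ε) ^ (2 * s) = (W : ℝ) ^ (2 * (ε * s)) := by
        rw [← Real.rpow_natCast, ← Real.rpow_mul hNpos.le]
        congr 1; push_cast; ring
      rw [← h2, ← mul_pow]
      exact pow_le_pow_left₀ (by positivity) hn0lo.le _
    have e4 : (W : ℝ) ^ (2 * (ε * s)) = (W : ℝ) ^ (ε * s) * (W : ℝ) ^ (ε * s) := by
      rw [← Real.rpow_add hNpos]; congr 1; ring
    have e5 : (W : ℝ) ^ 3 ≤ (W : ℝ) ^ (ε * s) := by
      rw [← Real.rpow_natCast]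
      exact Real.rpow_le_rpow_of_exponent_le hNr (by push_cast; linarith)
    have e6 : (T : ℝ) ≤ 2 * W := by exact_mod_cast hTN
    obtain ⟨y, hy⟩ : ∃ y, y = (W : ℝ) ^ (ε * s) := ⟨_, rfl⟩
    have hy0 : 0 < y := by rw [hy]; positivity
    rw [e4, ← hy] at e3
    rw [← hy] at e2 e5
    have hΛs : (0 : ℝ) < (Λ : ℝ) ^ (2 * s) := by positivity
    -- combine
    have f1 : (Bb : ℝ) * (Λ ^ (2 * s) * (y * y)) ≤
        (2 * W) * ((Λ ^ (s + 1) * W) * ((2 * Λ) ^ (2 * s) * (Λ ^ (2 * s) * y)) * B') := by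
      calc (Bb : ℝ) * (Λ ^ (2 * s) * (y * y)) ≤ Bb * (n0 : ℝ) ^ (2 * s) := by gcongr
        _ ≤ T * ((Λ : ℝ) ^ (T + s) * (2 * Λ * (θ : ℝ) ^ T) ^ (2 * s) * B') := r3
        _ ≤ _ := by gcongr
    have f2 : (Bb : ℝ) * y ≤ (2 * W) * ((Λ ^ (s + 1) * W) * ((2 * Λ) ^ (2 * s)) * B') := by
      have : (Bb : ℝ) * y * (Λ ^ (2 * s) * y) ≤
          (2 * W) * ((Λ ^ (s + 1) * W) * ((2 * Λ) ^ (2 * s)) * B') * (Λ ^ (2 * s) * y) := by
        calc (Bb : ℝ) * y * (Λ ^ (2 * s) * y) = (Bb : ℝ) * (Λ ^ (2 * s) * (y * y)) := by ring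
          _ ≤ _ := f1
          _ = _ := by ring
      exact le_of_mul_le_mul_right this (by positivity)
    have f3 : (Bb : ℝ) * (W ^ 3) ≤ W ^ 2 * (2 * (Λ ^ (s + 1) * ((2 * Λ) ^ (2 * s))) * B') := by
      calc (Bb : ℝ) * (W ^ 3) ≤ Bb * y := by gcongr
        _ ≤ _ := f2
        _ = _ := by ring
    have f4 : (Bb : ℝ) * W ≤ 2 * (Λ ^ (s + 1) * ((2 * Λ) ^ (2 * s))) * B' := by
      have : (W : ℝ) ^ 2 * ((Bb : ℝ) * W) ≤
          W ^ 2 * (2 * (Λ ^ (s + 1) * ((2 * Λ) ^ (2 * s))) * B') := by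
        calc (W : ℝ) ^ 2 * ((Bb : ℝ) * W) = Bb * W ^ 3 := by ring
          _ ≤ _ := f3
      exact le_of_mul_le_mul_left this (by positivity)
    have f5 : (Bb : ℝ) * (W + 1) ≤ 2 * (Bb * W) := by
      have : (0 : ℝ) ≤ Bb := by positivity
      nlinarith
    rw [hC₁]
    calc (Bb : ℝ) * (W + 1) ≤ 2 * (Bb * W) := f5
      _ ≤ 2 * (2 * (Λ ^ (s + 1) * ((2 * Λ) ^ (2 * s))) * B') := by linarith
      _ = _ := by ring
  have hB0 : (0 : ℝ) ≤ B' := by positivity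
  have g1 : (n0 : ℝ) * B' ≤ (Λ + 2) * (W : ℝ) ^ ε * B' := by gcongr
  have g2 : C₁ * B' ≤ C₁ * (W : ℝ) ^ ε * B' := by
    have : C₁ * 1 ≤ C₁ * (W : ℝ) ^ ε := by gcongr
    nlinarith
  calc (SJ : ℝ) ≤ n0 * B' + Bb * (W + 1) := r2
    _ ≤ (Λ + 2) * (W : ℝ) ^ ε * B' + C₁ * (W : ℝ) ^ ε * B' := by linarith
    _ = _ := by ring

end H981
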