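import Pool.Agent.H981R2.Chain
import Pool.Agent.H981R2.JCount

/-!
Words and functions; the sum over non-crossing pairs of bridges.
-/

namespace H981

open scoped ENNReal
open PowerSeries

/-- the path of a word -/
def pf (w : List St) (i : ℕ) : ℤ × ℤ := (dx (w.take i), dy (w.take i))

lemma pf_zero (w : List St) : pf w 0 = (0, 0) := by simp [pf]

lemma pf_succ {w : List St} {i : ℕ} (h : i < w.length) :
    (pf w (i + 1)).1 = (pf w i).1 + (w[i]).x ∧ (pf w (i + 1)).2 = (pf w i).2 + (w[i]).y := by
  unfold pf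
  have h1 : w.take (i + 1) = w.take i ++ [w[i]] := List.take_succ_eq_append_getElem h
  rw [h1]
  constructor
  · rw [dx_append, dx_cons, dx_nil, add_zero]
  · rw [dy_append, dy_cons, dy_nil, add_zero]

lemma pf_ge {w : List St} {i : ℕ} (h : w.length ≤ i) : pf w i = (dx w, dy w) := by
  unfold pf; rw [List.take_of_length_le h]

lemma infix_take_iff {w m : List St} :
    m <:+: w ↔ ∃ i j, i ≤ j ∧ j ≤ w.length ∧ w.take j = w.take i ++ m := by
  constructor
  · rintro ⟨s, t, rfl⟩
    refine ⟨s.length, s.length + m.length, by omega, by simp, ?_⟩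
    have h1 : (s ++ m ++ t).take (s.length + m.length) = s ++ m := List.take_left' (by simp)
    have h2 : (s ++ m ++ t).take s.length = s := by
      rw [List.append_assoc]; exact List.take_left' rfl
    rw [h1, h2]
  · rintro ⟨i, j, -, -, h⟩
    refine ⟨w.take i, w.drop j, ?_⟩
    rw [← h, List.take_append_drop]

lemma saw_pf {w : List St} (h : Saw w) : Pool.Agent.H977R2.Saw w.length (pf w) := by
  refine ⟨pf_zero w, ?_, ?_, ?_⟩
  · intro i hi
    obtain ⟨h1, h2⟩ := pf_succ hi
    unfold Pool.Agent.H977R2.Adj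
    cases hs : w[i] <;> simp [hs] at h1 h2 <;> omega
  · have key : ∀ i j : ℕ, i ≤ j → j ≤ w.length → pf w i = pf w j → i = j := by
      intro i j hij hj hp
      have h1 : w.take j = w.take i ++ (w.drop i).take (j - i) := by
        rw [← List.take_add]; congr 1; omega
      have h2 : (w.drop i).take (j - i) <:+: w :=
        infix_take_iff.mpr ⟨i, j, hij, by omega, h1⟩
      unfold pf at hp
      rw [h1] at hp
      simp only [dx_append, dy_append, Prod.mk.injEq] at hp
      have h3 := h _ h2 (by omega) (by omega)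
      have h4 := congrArg List.length h3
      simp at h4
      omega
    intro i k hi hk hik
    rcases le_total i k with h1 | h1
    · exact key i k h1 hk hik
    · exact (key k i h1 hi hik.symm).symm
  · intro i hi
    rw [pf_ge hi, pf_ge le_rfl]

lemma fbr_pf {a : ℕ} {w : List St} (h : IsBr a w) : FBr w.length (pf w) := by
  refine ⟨saw_pf h.saw, ?_, ?_⟩
  · intro i h1 h2
    refine h.hp _ (List.take_prefix _ _) ?_
    intro h3
    have := congrArg List.length h3
    rw [List.length_take, List.length_nil] at this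
    omega
  · intro i _
    rw [pf_ge le_rfl]
    have := h.le (List.take_prefix i w)
    rw [h.dx]
    exact this

lemma exists_word {N : ℕ} {w : ℕ → ℤ × ℤ} (h : Pool.Agent.H977R2.Saw N w) :
    ∃ u : List St, u.length = N ∧ pf u = w := by
  have hst : ∀ i : ℕ, ∃ s : St, i < N → ((w (i + 1)).1 = (w i).1 + s.x ∧
      (w (i + 1)).2 = (w i).2 + s.y) := by
    intro i
    by_cases hi : i < N
    · have := h.adj i hi
      unfold Pool.Agent.H977R2.Adj at this
      rcases this with h1 | h1 | h1 | h1
      · exact ⟨.E, fun _ => by simp; omega⟩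
      · exact ⟨.W, fun _ => by simp; omega⟩
      · exact ⟨.N, fun _ => by simp; omega⟩
      · exact ⟨.S, fun _ => by simp; omega⟩
    · exact ⟨.E, fun h => absurd h hi⟩
  choose f hf using hst
  refine ⟨(List.range N).map f, by simp, ?_⟩
  have key : ∀ i, i ≤ N → pf ((List.range N).map f) i = w i := by
    intro i
    induction i with
    | zero => intro _; rw [pf_zero, h.zero]
    | succ i ih =>
      intro hi
      have h1 := ih (by omega)
      have h2 := pf_succ (w := (List.range N).map f) (i := i) (by simp; omega)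
      have h3 : ((List.range N).map f)[i]'(by simp; omega) = f i := by simp
      rw [h3, h1] at h2
      have h4 := hf i (by omega)
      apply Prod.ext
      · rw [h2.1, h4.1]
      · rw [h2.2, h4.2]
  funext i
  rcases le_total i N with hi | hi
  · exact key i hi
  · have h5 := key N le_rfl
    have h6 : pf ((List.range N).map f) N = (dx ((List.range N).map f), dy ((List.range N).map f)) :=
      pf_ge (by simp)
    rw [pf_ge (by simpa using hi), ← h6, h5, h.const i hi]

lemma saw_of_pf {w : List St} (h : Pool.Agent.H977R2.Saw w.length (pf w)) : Saw w := by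
  intro m hm h1 h2
  obtain ⟨i, j, hij, hj, h3⟩ := infix_take_iff.mp hm
  have h4 : i = j := by
    apply h.inj i j (by omega) hj
    unfold pf
    rw [h3]
    simp [h1, h2]
  subst h4
  have := congrArg List.length h3
  simp at this
  exact this

lemma isBr_of_fbr {w : List St} (h : FBr w.length (pf w)) : IsBr (wd w) w ∧
    (wd w : ℤ) = (pf w w.length).1 := by
  have hpre : ∀ u, u <+: w → u = w.take u.length := fun u hu => (List.prefix_iff_eq_take.mp hu)
  have h0 : 0 ≤ dx w := by
    have h1 := h.le 0 (by omega)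
    rw [pf_zero, pf_ge le_rfl] at h1
    exact h1
  have hw : (wd w : ℤ) = dx w := by unfold wd; omega
  refine ⟨⟨saw_of_pf h.saw, ?_, ?_, hw.symm⟩, by rw [pf_ge le_rfl]; exact hw⟩
  · intro u hu hu0
    have hl := hu.length_le
    have hl0 : 0 < u.length := List.length_pos_iff.mpr hu0
    have := h.pos u.length (by omega) hl
    unfold pf at this
    rw [← hpre u hu] at this
    exact this
  · intro u hu
    have := h.le u.length hu.length_le
    rw [pf_ge le_rfl] at this
    unfold pf at this
    rw [← hpre u hu] at this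
    rw [hw]; exact this

/-- the coefficient of the series of bridges -/
lemma coeff_Us (W n : ℕ) : coeff n (Us W) =
    ∑' u : List St, ind ((IsB u ∧ wd u ≤ W) ∧ u.length = n) * 1 := by
  unfold Us
  rw [coeff_fs]
  congr 1; ext u
  rw [coeff_ii_mul, coeff_xl, ind_and (_ ∧ _) (_ = _), mul_one]

lemma card_BrSet_le (N W : ℕ) : ((BrSet N W).card : ℝ≥0∞) ≤ coeff N (Us W) := by
  classical
  have h1 : ((BrSet N W).card : ℝ≥0∞) = ∑' w : ℕ → ℤ × ℤ, ind (w ∈ BrSet N W) * 1 := by
    rw [tsum_eq_sum (s := BrSet N W)]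
    · rw [Finset.sum_congr rfl (g := fun _ => (1 : ℝ≥0∞))]
      · simp
      · intro w hw
        rw [ind_of hw, mul_one]
    · intro w hw
      rw [ind_not hw, zero_mul]
  rw [h1, coeff_Us]
  refine tsum_cover _ _ _ _ pf ?_
  intro w hw
  rw [mem_BrSet] at hw
  obtain ⟨u, hu, rfl⟩ := exists_word hw.1.saw
  subst hu
  obtain ⟨h2, h3⟩ := isBr_of_fbr hw.1
  refine ⟨u, ⟨⟨h2.isB, ?_⟩, rfl⟩, rfl, le_rfl⟩
  have := hw.2
  omega

/-! ### folds -/

lemma saw_fold {X Y : List St} (hX : IsB X) (hY : IsB Y) (h : NCg X Y) : Saw (X ++ sg Y) := by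
  intro m hm h1 h2
  rcases infix_append_cases hm with h3 | h3 | ⟨m1, m2, h3, h4, h5, h6, rfl⟩
  · obtain ⟨a, hX⟩ := hX
    exact hX.saw m h3 h1 h2
  · obtain ⟨a, hY⟩ := hY
    exact hY.saw.sg m h3 h1 h2
  · exfalso
    have h7 : sg m2 <+: Y := by
      have := h4.map St.sg
      change sg m2 <+: sg (sg Y) at this
      rwa [sg_sg] at this
    have := h m1 (sg m2) h3 h7 (by simp at h1 ⊢; omega) (by simp at h2 ⊢; omega)
    exact h5 this.1

lemma take_append_le {X Y : List St} {i : ℕ} (h : i ≤ X.length) : (X ++ Y).take i = X.take i := by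
  rw [List.take_append_of_le_length h]

lemma take_append_gt {X Y : List St} {i : ℕ} (h : X.length ≤ i) :
    (X ++ Y).take i = X ++ Y.take (i - X.length) := by
  obtain ⟨j, rfl⟩ := Nat.exists_eq_add_of_le h
  rw [List.take_length_add_append]
  congr 2; omega

lemma take_ne_nil {Y : List St} {j : ℕ} (hY : Y ≠ []) (hj : 0 < j) : Y.take j ≠ [] := by
  intro h
  have := congrArg List.length h
  have h2 : 0 < Y.length := List.length_pos_iff.mpr hY
  simp at this
  rcases this with h3 | h3
  · omega
  · exact hY h3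

lemma cut_pf {X Y : List St} (hX : IsB X) (hY : IsB Y) (hY0 : Y ≠ []) :
    Pool.Agent.H977R2.Cut (X ++ Y).length (pf (X ++ Y)) (wd X) X.length := by
  have hw := hX.wd_eq_dx
  refine ⟨?_, ?_, ?_⟩
  · have : 0 < Y.length := List.length_pos_iff.mpr hY0
    simp; exact this
  · intro i hi
    unfold pf
    rw [take_append_le hi]
    have := hX.br.le (List.take_prefix i X)
    exact this
  · intro i hi
    unfold pf
    rw [take_append_gt hi.le]
    simp only [dx_append]
    have h1 := hY.br.hp (Y.take (i - X.length)) (List.take_prefix _ _)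
      (take_ne_nil hY0 (by omega))
    omega

lemma fl_pf {X Y : List St} (hX : IsB X) :
    Pool.Agent.H977R2.fl (pf (X ++ Y)) (wd X) X.length = pf (X ++ sg Y) := by
  have hw := hX.wd_eq_dx
  funext i
  rcases Nat.lt_or_ge X.length i with h | h
  · rw [Pool.Agent.H977R2.fl_gt h]
    unfold pf
    rw [take_append_gt h.le, take_append_gt h.le]
    have h1 : (sg Y).take (i - X.length) = sg (Y.take (i - X.length)) := by
      unfold sg; rw [List.map_take]
    rw [h1]
    simp only [dx_append, dy_append, dx_sg, dy_sg, Prod.mk.injEq, and_true]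
    omega
  · rw [Pool.Agent.H977R2.fl_le h]
    unfold pf
    rw [take_append_le h, take_append_le h]

lemma up_pf {X' Y : List St} :
    Pool.Agent.H977R2.Up (pf ((X' ++ [St.N]) ++ Y)) (X' ++ [St.N]).length := by
  refine ⟨by simp, ?_⟩
  have h1 : (X' ++ [St.N]).length - 1 = X'.length := by simp
  rw [h1]
  unfold pf
  rw [take_append_le (le_refl (X' ++ [St.N]).length), List.take_length,
    take_append_le (by simp : X'.length ≤ (X' ++ [St.N]).length),
    take_append_le (le_refl X'.length), List.take_length]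
  simp

/-- the last step of a bridge followed by a non-crossing nonempty bridge -/
lemma last_step {X Y : List St} (hX : IsB X) (hY : IsB Y) (hX0 : X ≠ []) (hY0 : Y ≠ [])
    (h : NCg X Y) : (∃ X', X = X' ++ [St.N]) ∨ (∃ X', X = X' ++ [St.S]) := by
  obtain ⟨X', s, rfl⟩ : ∃ X' s, X = X' ++ [s] := by
    rcases List.eq_nil_or_concat X with h1 | ⟨X', s, h1⟩
    · exact absurd h1 hX0
    · exact ⟨X', s, by simpa using h1⟩
  obtain ⟨q, rfl⟩ := hY.br.cons hY0
  cases s with
  | E =>
    exfalso
    have := h [St.E] [St.E] ⟨X', rfl⟩ ⟨q, rfl⟩ rfl (by simp)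
    simp at this
  | W =>
    exfalso
    have h1 := hX.br.le (List.prefix_append X' [St.W])
    have h2 := hX.wd_eq_dx
    rw [h2] at h1
    simp at h1
  | N => left; exact ⟨X', rfl⟩
  | S => right; exact ⟨X', rfl⟩

lemma NCg.ng2 {X Y : List St} (h : NCg X Y) : NCg (ng X) (ng Y) := by
  intro m m' hm hm' h1 h2
  have h3 : ng m <:+ X := by
    have := hm.map St.ng
    change ng m <:+ ng (ng X) at this
    rwa [ng_ng] at this
  have h4 : ng m' <+: Y := by
    have := hm'.map St.ng
    change ng m' <+: ng (ng Y) at this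
    rwa [ng_ng] at this
  have := h (ng m) (ng m') h3 h4 (by simpa using h1) (by simp; omega)
  simpa using this

/-! ### the sets of foldable levels -/

open Pool.Agent.H977R2 in
/-- foldable cut levels -/
def FL (N : ℕ) (w : ℕ → ℤ × ℤ) (m : ℤ) : Prop :=
  Cut N w m (ct N w m) ∧ Pool.Agent.H977R2.Saw N (fl w m (ct N w m)) ∧ Up w (ct N w m)

open scoped Classical in
noncomputable def JL (N W g : ℕ) (w : ℕ → ℤ × ℤ) : Finset ℤ :=
  (Finset.Icc (1 : ℤ) W).filter (fun m => FL N w m ∧ (2 ^ g ≤ m ∧ m < 2 ^ (g + 1)) ∧ 2 * m ≤ (w N).1)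

open scoped Classical in
noncomputable def JR (N W g : ℕ) (w : ℕ → ℤ × ℤ) : Finset ℤ :=
  (Finset.Icc (1 : ℤ) W).filter (fun m => FL N w m ∧
    (2 ^ g ≤ (w N).1 - m ∧ (w N).1 - m < 2 ^ (g + 1)) ∧ (w N).1 ≤ 2 * m)

open scoped Classical in
noncomputable def JA (N W : ℕ) (w : ℕ → ℤ × ℤ) : Finset ℤ :=
  (Finset.Icc (1 : ℤ) W).filter (fun m => FL N w m)

lemma goodJL (N W g : ℕ) (w : ℕ → ℤ × ℤ) : GoodJ N w (JL N W g w) := by
  classical
  have hm : ∀ m ∈ JL N W g w, FL N w m ∧ (2 ^ g ≤ m ∧ m < 2 ^ (g + 1)) ∧ 2 * m ≤ (w N).1 := by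
    intro m hm
    unfold JL at hm
    simp only [Finset.mem_filter] at hm
    exact hm.2
  refine ⟨fun m h => (hm m h).1.1, fun m h => (hm m h).1.2.1, fun m h => (hm m h).1.2.2, ?_⟩
  intro x hx y hy hxy
  have h1 := hm x hx
  have h2 := hm y hy
  have h3 : (2 : ℤ) ^ (g + 1) = 2 * 2 ^ g := by rw [pow_succ]; ring
  have h4 : 0 ≤ x := le_trans (by positivity) h1.2.1.1
  refine ⟨by omega, by omega⟩

lemma goodJR (N W g : ℕ) (w : ℕ → ℤ × ℤ) : GoodJ N w (JR N W g w) := by
  classical
  have hm : ∀ m ∈ JR N W g w, FL N w m ∧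
      (2 ^ g ≤ (w N).1 - m ∧ (w N).1 - m < 2 ^ (g + 1)) ∧ (w N).1 ≤ 2 * m := by
    intro m hm
    unfold JR at hm
    simp only [Finset.mem_filter] at hm
    exact hm.2
  refine ⟨fun m h => (hm m h).1.1, fun m h => (hm m h).1.2.1, fun m h => (hm m h).1.2.2, ?_⟩
  intro x hx y hy hxy
  have h1 := hm x hx
  have h2 := hm y hy
  have h3 : (2 : ℤ) ^ (g + 1) = 2 * 2 ^ g := by rw [pow_succ]; ring
  have h4 : (0 : ℤ) < 2 ^ g := by positivity
  refine ⟨by omega, by omega⟩

lemma JA_card_le {N W : ℕ} {w : ℕ → ℤ × ℤ} (hw : w ∈ BrSet N W) :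
    (JA N W w).card ≤ ∑ g ∈ Finset.range (Nat.log 2 W + 1), ((JL N W g w).card + (JR N W g w).card) := by
  classical
  have hsub : JA N W w ⊆ (Finset.range (Nat.log 2 W + 1)).biUnion
      (fun g => JL N W g w ∪ JR N W g w) := by
    intro m hm
    unfold JA at hm
    simp only [Finset.mem_filter, Finset.mem_Icc] at hm
    obtain ⟨⟨h1, h2⟩, h3⟩ := hm
    rw [mem_BrSet] at hw
    have hN : m + 1 ≤ (w N).1 := h3.1.2.2 N h3.1.1
    rw [Finset.mem_biUnion]
    rcases le_total (2 * m) (w N).1 with h4 | h4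
    · refine ⟨Nat.log 2 m.toNat, ?_, ?_⟩
      · rw [Finset.mem_range]
        have : Nat.log 2 m.toNat ≤ Nat.log 2 W := Nat.log_mono_right (by omega)
        omega
      · rw [Finset.mem_union]
        left
        unfold JL
        simp only [Finset.mem_filter, Finset.mem_Icc]
        refine ⟨⟨h1, h2⟩, h3, ⟨?_, ?_⟩, h4⟩
        · have := Nat.pow_log_le_self 2 (x := m.toNat) (by omega)
          zify at this
          rw [Int.toNat_of_nonneg (by omega)] at this
          exact this
        · have := Nat.lt_pow_succ_log_self (b := 2) (by norm_num) m.toNat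
          zify at this
          rw [Int.toNat_of_nonneg (by omega)] at this
          exact this
    · refine ⟨Nat.log 2 ((w N).1 - m).toNat, ?_, ?_⟩
      · rw [Finset.mem_range]
        have : Nat.log 2 ((w N).1 - m).toNat ≤ Nat.log 2 W := Nat.log_mono_right (by omega)
        omega
      · rw [Finset.mem_union]
        right
        unfold JR
        simp only [Finset.mem_filter, Finset.mem_Icc]
        refine ⟨⟨h1, h2⟩, h3, ⟨?_, ?_⟩, h4⟩
        · have := Nat.pow_log_le_self 2 (x := ((w N).1 - m).toNat) (by omega)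
          zify at this
          rw [Int.toNat_of_nonneg (by omega)] at this
          exact this
        · have := Nat.lt_pow_succ_log_self (b := 2) (by norm_num) ((w N).1 - m).toNat
          zify at this
          rw [Int.toNat_of_nonneg (by omega)] at this
          exact this
  refine (Finset.card_le_card hsub).trans (Finset.card_biUnion_le.trans ?_)
  apply Finset.sum_le_sum
  intro g _
  exact Finset.card_union_le _ _

/-- the average number of foldable levels of bridges -/
theorem sum_JA_le {ε : ℝ} (hε : 0 < ε) : ∃ C : ℝ, 0 ≤ C ∧ ∀ (N W : ℕ), 1 ≤ W →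
    ((∑ w ∈ BrSet N W, (JA N W w).card : ℕ) : ℝ) ≤
      2 * (Nat.log 2 W + 1) * (C * (W : ℝ) ^ ε) * ((BrSet N W).card : ℝ) := by
  obtain ⟨C, hC, h⟩ := sum_Jf_le hε
  refine ⟨C, hC, ?_⟩
  intro N W hW
  have h1 : (∑ w ∈ BrSet N W, (JA N W w).card) ≤ ∑ g ∈ Finset.range (Nat.log 2 W + 1),
      ((∑ w ∈ BrSet N W, (JL N W g w).card) + ∑ w ∈ BrSet N W, (JR N W g w).card) := by
    simp_rw [← Finset.sum_add_distrib]
    rw [Finset.sum_comm]
    exact Finset.sum_le_sum fun w hw => JA_card_le hw
  have h2 : ((∑ w ∈ BrSet N W, (JA N W w).card : ℕ) : ℝ) ≤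
      ((∑ g ∈ Finset.range (Nat.log 2 W + 1),
      ((∑ w ∈ BrSet N W, (JL N W g w).card) + ∑ w ∈ BrSet N W, (JR N W g w).card) : ℕ) : ℝ) := by
    exact_mod_cast h1
  refine h2.trans ?_
  rw [Nat.cast_sum]
  calc ∑ g ∈ Finset.range (Nat.log 2 W + 1),
      (((∑ w ∈ BrSet N W, (JL N W g w).card) + ∑ w ∈ BrSet N W, (JR N W g w).card : ℕ) : ℝ)
      ≤ ∑ g ∈ Finset.range (Nat.log 2 W + 1),
        (2 * (C * (W : ℝ) ^ ε) * ((BrSet N W).card : ℝ)) := by
        apply Finset.sum_le_sum
        intro g _
        rw [Nat.cast_add]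
        have h3 := h N W hW (JL N W g) (fun w _ => goodJL N W g w)
        have h4 := h N W hW (JR N W g) (fun w _ => goodJR N W g w)
        linarith
    _ = _ := by
        rw [Finset.sum_const, Finset.card_range, nsmul_eq_mul]
        push_cast; ring

end H981
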