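import Pool.Agent.H981R2.Words
import Pool.Agent.H981R2.Sums

/-!
Generating functions of pairs of bridges compared at their common renewal lines.
-/

namespace H981

open scoped ENNReal

/-- at every positive common renewal line, `X` is strictly below `X'` -/
def Pos (X X' : List St) : Prop :=
  ∀ c X1 X2 X1' X2', 0 < c → Spl c X X1 X2 → Spl c X' X1' X2' → dy X1 < dy X1'

/-- no positive common renewal line -/
def NoC (X X' : List St) : Prop :=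
  ∀ c X1 X2 X1' X2', 0 < c → Spl c X X1 X2 → Spl c X' X1' X2' → False

abbrev LL := List St × List St

/-- total length of a pair -/
def len2 (p : LL) : ℕ := p.1.length + p.2.length

/-- bridges, total weight -/
noncomputable def BB (z : ℝ≥0∞) : ℝ≥0∞ := ∑' X, ind (IsB X) * z ^ X.length

/-- bridges of width `a` -/
noncomputable def bb (z : ℝ≥0∞) (a : ℕ) : ℝ≥0∞ := ∑' X, ind (IsBr a X) * z ^ X.length

noncomputable def UU (z x : ℝ≥0∞) : ℝ≥0∞ := ∑' X, ind (IsB X) * (z ^ X.length * x ^ wd X)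

def PR (p : LL) : Prop := IsB p.1 ∧ IsB p.2 ∧ wd p.1 = wd p.2
def PZ (p : LL) : Prop := IsB p.1 ∧ IsB p.2 ∧ wd p.1 = wd p.2 ∧ Pos p.1 p.2
def PT (p : LL) : Prop := IsB p.1 ∧ IsB p.2 ∧ wd p.2 ≤ wd p.1
def PN (p : LL) : Prop := IsB p.1 ∧ IsB p.2 ∧ wd p.2 ≤ wd p.1 ∧ NoC p.1 p.2
def PF (p : LL) : Prop := IsB p.1 ∧ IsB p.2 ∧ wd p.2 ≤ wd p.1 ∧ Pos p.1 p.2

/-- the sum over pairs satisfying `P`, with weight `z^(total length) x^(width of second)` -/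
noncomputable def SS (z x : ℝ≥0∞) (P : LL → Prop) : ℝ≥0∞ :=
  ∑' p : LL, ind (P p) * (z ^ len2 p * x ^ wd p.2)

theorem SS_mul (z x : ℝ≥0∞) (P Q : LL → Prop) :
    SS z x P * SS z x Q = ∑' p : LL × LL, ind (P p.1 ∧ Q p.2) *
      ((z ^ len2 p.1 * x ^ wd p.1.2) * (z ^ len2 p.2 * x ^ wd p.2.2)) := by
  unfold SS
  rw [tsum_mul_tsum' (fun p : LL => ind (P p) * (z ^ len2 p * x ^ wd p.2))
    (fun p : LL => ind (Q p) * (z ^ len2 p * x ^ wd p.2))]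
  congr 1
  ext p
  rw [ind_and]; ring

lemma aux_Z {X U X' U' Y V Y' V' : List St}
    (hX : IsB X) (hX' : IsB X') (hXX : wd X = wd X')
    (hU : IsB U) (hU' : IsB U') (hUU : wd U = wd U')
    (hPU : Pos U U')
    (hY : IsB Y) (hY' : IsB Y') (hPY : Pos Y Y')
    (hV : IsB V) (hV' : IsB V')
    (h : rs X ++ ng Y = rs U ++ ng V) (h' : rs X' ++ ng Y' = rs U' ++ ng V') :
    ¬ (wd X < wd U) := by
  intro hlt
  have s1 : Spl (wd X) (rs X ++ ng Y) (rs X) (ng Y) := ⟨rfl, hX.br.rs, isB_ng.mpr hY⟩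
  have s2 : Spl (wd U) (rs X ++ ng Y) (rs U) (ng V) := ⟨h, hU.br.rs, isB_ng.mpr hV⟩
  have s1' : Spl (wd X) (rs X' ++ ng Y') (rs X') (ng Y') :=
    ⟨rfl, by rw [hXX]; exact hX'.br.rs, isB_ng.mpr hY'⟩
  have s2' : Spl (wd U) (rs X' ++ ng Y') (rs U') (ng V') :=
    ⟨h', by rw [hUU]; exact hU'.br.rs, isB_ng.mpr hV'⟩
  obtain ⟨M, h1, h2, h3⟩ := s1.refine s2 hlt.le
  obtain ⟨M', h1', h2', h3'⟩ := s1'.refine s2' hlt.le
  have hpos : 0 < wd U - wd X := by omega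
  have e1 : U = rs M ++ X := by
    have := congrArg rs h1
    rw [rs_rs, rs_append hX.br.rs h3, rs_rs] at this; exact this
  have e1' : U' = rs M' ++ X' := by
    have := congrArg rs h1'
    rw [rs_rs, rs_append hX'.br.rs h3', rs_rs] at this; exact this
  have e2 : Y = ng M ++ V := by
    have := congrArg ng h2
    simpa using this
  have e2' : Y' = ng M' ++ V' := by
    have := congrArg ng h2'
    simpa using this
  have i1 := hPU (wd U - wd X) (rs M) X (rs M') X' hpos ⟨e1, h3.rs, hX⟩ ⟨e1', h3'.rs, hX'⟩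
  have i2 := hPY (wd U - wd X) (ng M) V (ng M') V' hpos ⟨e2, h3.ng, hV⟩ ⟨e2', h3'.ng, hV'⟩
  simp at i1 i2
  omega

theorem Z_sq_le_R (z x : ℝ≥0∞) : SS z x PZ * SS z x PZ ≤ SS z x PR := by
  rw [SS_mul]
  unfold SS
  refine tsum_inj _ _ _ _
    (fun p : LL × LL => ((rs p.1.1 ++ ng p.2.1, rs p.1.2 ++ ng p.2.2) : LL)) ?_ ?_ ?_
  · rintro ⟨⟨X, X'⟩, ⟨Y, Y'⟩⟩ ⟨⟨U, U'⟩, ⟨V, V'⟩⟩ ⟨⟨hX, hX', hXX, hPX⟩, ⟨hY, hY', hYY, hPY⟩⟩
      ⟨⟨hU, hU', hUU, hPU⟩, ⟨hV, hV', hVV, hPV⟩⟩ heq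
    simp only [Prod.mk.injEq] at heq hX hX' hXX hPX hY hY' hYY hPY hU hU' hUU hPU hV hV' hVV hPV ⊢
    obtain ⟨h, h'⟩ := heq
    have n1 := aux_Z hX hX' hXX hU hU' hUU hPU hY hY' hPY hV hV' h h'
    have n2 := aux_Z hU hU' hUU hX hX' hXX hPX hV hV' hPV hY hY' h.symm h'.symm
    have he : wd X = wd U := by omega
    have s1 : Spl (wd X) (rs X ++ ng Y) (rs X) (ng Y) := ⟨rfl, hX.br.rs, isB_ng.mpr hY⟩
    have s2 : Spl (wd X) (rs X ++ ng Y) (rs U) (ng V) :=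
      ⟨h, by rw [he]; exact hU.br.rs, isB_ng.mpr hV⟩
    have s1' : Spl (wd X) (rs X' ++ ng Y') (rs X') (ng Y') :=
      ⟨rfl, by rw [hXX]; exact hX'.br.rs, isB_ng.mpr hY'⟩
    have s2' : Spl (wd X) (rs X' ++ ng Y') (rs U') (ng V') :=
      ⟨h', by rw [he, hUU]; exact hU'.br.rs, isB_ng.mpr hV'⟩
    obtain ⟨e1, e2⟩ := s1.unique s2
    obtain ⟨e1', e2'⟩ := s1'.unique s2'
    have f1 := congrArg rs e1
    have f1' := congrArg rs e1'
    simp only [rs_rs] at f1 f1'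
    exact ⟨⟨f1, f1'⟩, ⟨ng_injective e2, ng_injective e2'⟩⟩
  · rintro ⟨⟨X, X'⟩, ⟨Y, Y'⟩⟩ ⟨⟨hX, hX', hXX, hPX⟩, ⟨hY, hY', hYY, hPY⟩⟩
    simp only at hX hX' hXX hPX hY hY' hYY hPY
    refine ⟨hX.rs.append (isB_ng.mpr hY), hX'.rs.append (isB_ng.mpr hY'), ?_⟩
    simp only
    rw [wd_append hX.rs (isB_ng.mpr hY), wd_append hX'.rs (isB_ng.mpr hY'), wd_rs, wd_rs, wd_ng,
      wd_ng, hXX, hYY]
  · rintro ⟨⟨X, X'⟩, ⟨Y, Y'⟩⟩ ⟨⟨hX, hX', hXX, hPX⟩, ⟨hY, hY', hYY, hPY⟩⟩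
    simp only at hX hX' hXX hPX hY hY' hYY hPY
    apply le_of_eq
    simp only [len2, List.length_append, length_rs, length_ng]
    rw [wd_append hX'.rs (isB_ng.mpr hY'), wd_rs, wd_ng, pow_add, pow_add, pow_add, pow_add,
      pow_add, pow_add]
    ring

lemma aux_RN {X X' Y Y' V V' W W' : List St}
    (hX : IsB X) (hX' : IsB X') (hXX : wd X = wd X')
    (hY : IsB Y) (hY' : IsB Y') (hN : NoC Y Y')
    (hV : IsB V) (hV' : IsB V') (hVV : wd V = wd V')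
    (hW : IsB W) (hW' : IsB W')
    (h : X ++ Y = V ++ W) (h' : X' ++ Y' = V' ++ W') : ¬ (wd X < wd V) := by
  intro hlt
  have s1 : Spl (wd X) (X ++ Y) X Y := ⟨rfl, hX.br, hY⟩
  have s2 : Spl (wd V) (X ++ Y) V W := ⟨h, hV.br, hW⟩
  have s1' : Spl (wd X) (X' ++ Y') X' Y' := ⟨rfl, by rw [hXX]; exact hX'.br, hY'⟩
  have s2' : Spl (wd V) (X' ++ Y') V' W' := ⟨h', by rw [hVV]; exact hV'.br, hW'⟩
  obtain ⟨M, h1, h2, h3⟩ := s1.refine s2 hlt.le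
  obtain ⟨M', h1', h2', h3'⟩ := s1'.refine s2' hlt.le
  exact hN (wd V - wd X) M W M' W' (by omega) ⟨h2, h3, hW⟩ ⟨h2', h3', hW'⟩

theorem RN_le_T (z x : ℝ≥0∞) : SS z x PR * SS z x PN ≤ SS z x PT := by
  rw [SS_mul]
  unfold SS
  refine tsum_inj _ _ _ _
    (fun p : LL × LL => ((p.1.1 ++ p.2.1, p.1.2 ++ p.2.2) : LL)) ?_ ?_ ?_
  · rintro ⟨⟨X, X'⟩, ⟨Y, Y'⟩⟩ ⟨⟨U, U'⟩, ⟨V, V'⟩⟩ ⟨⟨hX, hX', hXX⟩, ⟨hY, hY', hYY, hPY⟩⟩
      ⟨⟨hU, hU', hUU⟩, ⟨hV, hV', hVV, hPV⟩⟩ heq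
    simp only [Prod.mk.injEq] at heq hX hX' hXX hY hY' hYY hPY hU hU' hUU hV hV' hVV hPV ⊢
    obtain ⟨h, h'⟩ := heq
    have n1 := aux_RN hX hX' hXX hY hY' hPY hU hU' hUU hV hV' h h'
    have n2 := aux_RN hU hU' hUU hV hV' hPV hX hX' hXX hY hY' h.symm h'.symm
    have he : wd X = wd U := by omega
    have s1 : Spl (wd X) (X ++ Y) X Y := ⟨rfl, hX.br, hY⟩
    have s2 : Spl (wd X) (X ++ Y) U V := ⟨h, by rw [he]; exact hU.br, hV⟩
    have s1' : Spl (wd X) (X' ++ Y') X' Y' := ⟨rfl, by rw [hXX]; exact hX'.br, hY'⟩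
    have s2' : Spl (wd X) (X' ++ Y') U' V' := ⟨h', by rw [he, hUU]; exact hU'.br, hV'⟩
    obtain ⟨e1, e2⟩ := s1.unique s2
    obtain ⟨e1', e2'⟩ := s1'.unique s2'
    exact ⟨⟨e1, e1'⟩, ⟨e2, e2'⟩⟩
  · rintro ⟨⟨X, X'⟩, ⟨Y, Y'⟩⟩ ⟨⟨hX, hX', hXX⟩, ⟨hY, hY', hYY, hPY⟩⟩
    simp only at hX hX' hXX hY hY' hYY hPY
    refine ⟨hX.append hY, hX'.append hY', ?_⟩
    simp only
    rw [wd_append hX hY, wd_append hX' hY', hXX]; omega
  · rintro ⟨⟨X, X'⟩, ⟨Y, Y'⟩⟩ ⟨⟨hX, hX', hXX⟩, ⟨hY, hY', hYY, hPY⟩⟩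
    simp only at hX hX' hXX hY hY' hYY hPY
    apply le_of_eq
    simp only [len2, List.length_append]
    rw [wd_append hX' hY', pow_add, pow_add, pow_add, pow_add,
      pow_add, pow_add]
    ring

/-- decomposition of a pair at the last common renewal line -/
lemma exists_last_common {X X' : List St} (hX : IsB X) (hX' : IsB X') :
    ∃ c A Y A' Y', Spl c X A Y ∧ Spl c X' A' Y' ∧ NoC Y Y' := by
  classical
  let Q : ℕ → Prop := fun c => ∃ A Y A' Y', Spl c X A Y ∧ Spl c X' A' Y'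
  have hQ0 : Q 0 := ⟨[], X, [], X', ⟨by simp, isBr_nil, hX⟩, ⟨by simp, isBr_nil, hX'⟩⟩
  have hle : ∀ c, Q c → c ≤ wd X := by
    rintro c ⟨A, Y, A', Y', ⟨h1, h2, h3⟩, -⟩
    rw [h1, wd_append h2.isB h3, h2.wd]; omega
  have hmax := Nat.findGreatest_spec (P := Q) (Nat.zero_le (wd X)) hQ0
  set c := Nat.findGreatest Q (wd X) with hc
  obtain ⟨A, Y, A', Y', h1, h2⟩ := hmax
  refine ⟨c, A, Y, A', Y', h1, h2, ?_⟩
  intro d Y1 Y2 Y1' Y2' hd h3 h4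
  have hQ : Q (c + d) := by
    refine ⟨A ++ Y1, Y2, A' ++ Y1', Y2', ⟨?_, ?_, h3.2.2⟩, ⟨?_, ?_, h4.2.2⟩⟩
    · rw [h1.1, h3.1]; simp
    · exact h1.2.1.append h3.2.1
    · rw [h2.1, h4.1]; simp
    · exact h2.2.1.append h4.2.1
  have := Nat.le_findGreatest (hle _ hQ) hQ
  omega

lemma Spl.trans_left {c d : ℕ} {X A Y A1 A2 : List St} (h : Spl c X A Y) (h' : Spl d A A1 A2) :
    Spl d X A1 (A2 ++ Y) :=
  ⟨by rw [h.1, h'.1]; simp, h'.2.1, h'.2.2.append h.2.2⟩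

theorem F_le_ZN (z x : ℝ≥0∞) : SS z x PF ≤ SS z x PZ * SS z x PN := by
  rw [SS_mul]
  unfold SS
  refine tsum_cover _ _ _ _
    (fun p : LL × LL => ((p.1.1 ++ p.2.1, p.1.2 ++ p.2.2) : LL)) ?_
  rintro ⟨X, X'⟩ ⟨hX, hX', hw, hP⟩
  simp only at hX hX' hw hP
  obtain ⟨c, A, Y, A', Y', h1, h2, h3⟩ := exists_last_common hX hX'
  refine ⟨((A, A'), (Y, Y')), ⟨⟨h1.2.1.isB, h2.2.1.isB, ?_, ?_⟩, ⟨h1.2.2, h2.2.2, ?_, h3⟩⟩, ?_, ?_⟩
  · simp only; rw [h1.2.1.wd, h2.2.1.wd]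
  · intro d A1 A2 A1' A2' hd h4 h5
    exact hP d A1 _ A1' _ hd (h1.trans_left h4) (h2.trans_left h5)
  · simp only
    rw [h1.1, h2.1, wd_append h1.2.1.isB h1.2.2, wd_append h2.2.1.isB h2.2.2, h1.2.1.wd,
      h2.2.1.wd] at hw
    omega
  · simp only; rw [← h1.1, ← h2.1]
  · apply le_of_eq
    simp only [len2]
    rw [h1.1, h2.1, wd_append h2.2.1.isB h2.2.2]
    simp only [List.length_append, pow_add]
    ring

theorem T_le_BU (z x : ℝ≥0∞) : SS z x PT ≤ BB z * UU z x := by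
  unfold BB UU SS
  rw [tsum_mul_tsum' (fun X => ind (IsB X) * z ^ X.length)
    (fun X => ind (IsB X) * (z ^ X.length * x ^ wd X))]
  apply ENNReal.tsum_le_tsum
  rintro ⟨X, X'⟩
  simp only [PT, len2]
  calc ind (IsB X ∧ IsB X' ∧ wd X' ≤ wd X) * (z ^ (X.length + X'.length) * x ^ wd X')
      ≤ ind (IsB X ∧ IsB X') * (z ^ (X.length + X'.length) * x ^ wd X') := by
        gcongr
        exact ind_mono (fun h => ⟨h.1, h.2.1⟩)
    _ = _ := by rw [ind_and, pow_add]; ring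

/-- sums over bridges can be organised by width -/
lemma ind_isB_mul (X : List St) (G : ℕ → ℝ≥0∞) :
    ind (IsB X) * G (wd X) = ∑' a, ind (IsBr a X) * G a := by
  rw [tsum_eq_single (wd X)]
  · by_cases h : IsB X
    · rw [ind_of h, ind_of h.br]
    · rw [ind_not h, ind_not]
      intro h'; exact h h'.isB
  · intro a ha
    rw [ind_not, zero_mul]
    intro h; exact ha h.wd.symm

lemma UU_eq (z x : ℝ≥0∞) : UU z x = ∑' a, bb z a * x ^ a := by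
  unfold UU bb
  have : ∀ X, ind (IsB X) * (z ^ X.length * x ^ wd X)
      = ∑' a, ind (IsBr a X) * (z ^ X.length * x ^ a) :=
    fun X => ind_isB_mul X (fun a => z ^ X.length * x ^ a)
  simp_rw [this]
  rw [ENNReal.tsum_comm]
  congr 1; ext a
  rw [← ENNReal.tsum_mul_right]
  congr 1; ext X; ring

lemma BB_eq (z : ℝ≥0∞) : BB z = ∑' a, bb z a := by
  unfold BB bb
  have : ∀ X, ind (IsB X) * (z ^ X.length)
      = ∑' a, ind (IsBr a X) * (z ^ X.length) :=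
    fun X => ind_isB_mul X (fun a => z ^ X.length)
  simp_rw [this]
  rw [ENNReal.tsum_comm]

lemma RR_eq (z x : ℝ≥0∞) : SS z x PR = ∑' a, (bb z a * bb z a) * x ^ a := by
  unfold SS bb
  have : ∀ p : LL, ind (PR p) * (z ^ len2 p * x ^ wd p.2)
      = ∑' a, ind (IsBr a p.1) * ind (IsBr a p.2) * (z ^ p.1.length * z ^ p.2.length * x ^ a) := by
    rintro ⟨X, X'⟩
    have h1 := ind_isB_mul X' (fun a => ind (IsBr a X) * (z ^ X.length * z ^ X'.length * x ^ a))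
    simp only [PR, len2]
    have h2 : ind (IsB X ∧ IsB X' ∧ wd X = wd X') = ind (IsB X') * ind (IsBr (wd X') X) := by
      rw [← ind_and]
      congr 1
      apply propext
      rw [isBr_iff]; tauto
    rw [h2, mul_assoc, pow_add, h1]
    congr 1; ext a; ring
  simp_rw [this]
  rw [ENNReal.tsum_comm]
  congr 1; ext a
  rw [tsum_mul_tsum' (fun X => ind (IsBr a X) * z ^ X.length)
    (fun X => ind (IsBr a X) * z ^ X.length), ← ENNReal.tsum_mul_right]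
  congr 1; ext p; ring

lemma sq_rpow_half (a : ℝ≥0∞) : a ^ (1/2 : ℝ) * a ^ (1/2 : ℝ) = a := by
  rw [← ENNReal.rpow_add_of_nonneg _ _ (by norm_num) (by norm_num)]
  norm_num

theorem U_sq_le (z x : ℝ≥0∞) : UU z x * UU z x ≤ SS z x PR * ∑' n : ℕ, x ^ n := by
  rw [UU_eq, RR_eq]
  have h := cauchy_schwarz (fun a : ℕ => bb z a * (x ^ a) ^ (1/2:ℝ)) (fun a : ℕ => (x ^ a) ^ (1/2:ℝ))
  simp only [mul_assoc, sq_rpow_half] at h
  calc _ ≤ _ := h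
    _ = _ := by
      congr 1
      congr 1; ext a
      rw [← mul_assoc, mul_assoc (bb z a)]
      calc _ = bb z a * (bb z a * ((x ^ a) ^ (1/2:ℝ) * (x ^ a) ^ (1/2:ℝ))) := by ring
        _ = _ := by rw [sq_rpow_half]; ring

end H981
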