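import Pool.Agent.H981R2.EsBound
import Pool.Agent.H981R2.Count

/-!
Half-plane walks of length `N` are at most `exp (K N^ε)` times the bridges of length `N`.
-/

namespace H981

open scoped ENNReal
open PowerSeries

/-- number of bridges with `n` steps -/
noncomputable def bn (n : ℕ) : ℝ≥0∞ := coeff n Bs

lemma bn_eq (n : ℕ) : bn n = ∑' u : List St, ind (IsB u ∧ u.length = n) := by
  unfold bn Bs
  rw [coeff_fs]
  congr 1; ext u
  rw [coeff_ii_mul, coeff_xl, ind_and]

lemma chain_fs (n : ℕ) : ∀ β : List St, fs (fun q : List ℕ × List St =>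
    ii (Dec n q.1 ∧ HPc q.1 β q.2) * xl q.2) ≤ xl β * Rr 1 n β := by
  induction n with
  | zero =>
    intro β
    have h1 : fs (fun q : List ℕ × List St => ii (Dec 0 q.1 ∧ HPc q.1 β q.2) * xl q.2) ≤
        fs (fun q : Unit => ii True * xl β) := by
      refine fs_cover _ _ _ _ (fun _ => (([] : List ℕ), β)) ?_
      rintro ⟨α, ω⟩ ⟨h1, h2⟩
      cases α with
      | nil =>
        simp only [HPc] at h2
        subst h2
        exact ⟨(), trivial, rfl, le_rfl⟩
      | cons A α =>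
        obtain ⟨h3, h4, -⟩ := h1
        omega
    refine h1.trans ?_
    rw [fs_single _ () (fun j hj => absurd rfl hj), ii_of trivial, one_mul]
    simp [Rr]
  | succ n ih =>
    intro β
    have h1 : fs (fun q : List ℕ × List St => ii (Dec (n + 1) q.1 ∧ HPc q.1 β q.2) * xl q.2) ≤
        fs (fun q : List ℕ × List St => ii (Dec n q.1 ∧ HPc q.1 β q.2) * xl q.2 +
          ii (∃ α', q.1 = (n + 1) :: α' ∧ Dec n α' ∧ HPc q.1 β q.2) * xl q.2) := by
      apply fs_mono
      rintro ⟨α, ω⟩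
      by_cases h : Dec (n + 1) α ∧ HPc α β ω
      · rw [ii_of h, one_mul]
        by_cases h' : Dec n α
        · simp only
          rw [ii_of (p := Dec n α ∧ HPc α β ω) ⟨h', h.2⟩, one_mul]
          exact le_self_add
        · have : ∃ α', α = (n + 1) :: α' ∧ Dec n α' ∧ HPc α β ω := by
            obtain ⟨h1, h2⟩ := h
            cases α with
            | nil => exact absurd trivial h'
            | cons A α =>
              obtain ⟨h3, h4, h5⟩ := h1
              have hA : A = n + 1 := by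
                by_contra hne
                exact h' ⟨h3, by omega, h5⟩
              subst hA
              exact ⟨α, rfl, by simpa using h5, h2⟩
          simp only
          rw [ii_of this, one_mul]
          exact le_add_self
      · rw [ii_not h, zero_mul]; exact zero_le
    refine h1.trans ?_
    rw [fs_add]
    have h2 : fs (fun q : List ℕ × List St =>
          ii (∃ α', q.1 = (n + 1) :: α' ∧ Dec n α' ∧ HPc q.1 β q.2) * xl q.2) ≤
        fs (fun q : List St × (List ℕ × List St) => ii ((IsBr (1 + n) q.1 ∧ NCg β q.1) ∧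
          (Dec n q.2.1 ∧ HPc q.2.1 q.1 q.2.2)) * (xl β * xl q.2.2)) := by
      refine fs_cover _ _ _ _ (fun q => ((n + 1) :: q.2.1, β ++ sg q.2.2)) ?_
      rintro ⟨α, ω⟩ ⟨α', h3, h4, h5⟩
      simp only at h3 h5
      subst h3
      obtain ⟨β', ω', h6, h7, h8, h9⟩ := h5
      refine ⟨(β', (α', ω')), ⟨⟨by rw [add_comm]; exact h7, h8⟩, h4, h9⟩, ?_, ?_⟩
      · simp only; rw [h6]
      · simp only
        rw [h6, xl_append]
        unfold xl
        rw [length_sg]
    have h3 : fs (fun q : List St × (List ℕ × List St) => ii ((IsBr (1 + n) q.1 ∧ NCg β q.1) ∧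
          (Dec n q.2.1 ∧ HPc q.2.1 q.1 q.2.2)) * (xl β * xl q.2.2)) ≤
        xl β * fs (fun β' => ii (IsBr (1 + n) β' ∧ NCg β β') * (xl β' * Rr 1 n β')) := by
      rw [fs_prod, mul_fs]
      apply fs_mono
      intro β'
      calc fs (fun q : List ℕ × List St => ii ((IsBr (1 + n) β' ∧ NCg β β') ∧
            (Dec n q.1 ∧ HPc q.1 β' q.2)) * (xl β * xl q.2))
          = (ii (IsBr (1 + n) β' ∧ NCg β β') * xl β) * fs (fun q : List ℕ × List St =>
              ii (Dec n q.1 ∧ HPc q.1 β' q.2) * xl q.2) := by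
            rw [mul_fs]
            apply fs_congr
            intro q
            rw [ii_and (_ ∧ _) (_ ∧ _)]; ring
        _ ≤ (ii (IsBr (1 + n) β' ∧ NCg β β') * xl β) * (xl β' * Rr 1 n β') := by
            gcongr
            exact ih β'
        _ = _ := by ring
    calc _ ≤ xl β * Rr 1 n β +
          xl β * fs (fun β' => ii (IsBr (1 + n) β' ∧ NCg β β') * (xl β' * Rr 1 n β')) :=
          add_le_add (ih β) (h2.trans h3)
      _ = _ := by simp only [Rr]; ring

theorem hh_le_coeff {N : ℕ} (hN : N ≠ 0) : hh N ≤ coeff N (Rr 1 N []) := by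
  have h1 : fs (fun ω : List St => ii ((Saw ω ∧ HP ω) ∧ ω.length = N) * xl ω) ≤
      fs (fun q : (ℕ × List St) × (List ℕ × List St) =>
        ii ((q.1.1 < N ∧ IsBr (1 + q.1.1) q.1.2) ∧ (Dec q.1.1 q.2.1 ∧ HPc q.2.1 q.1.2 q.2.2)) *
          xl q.2.2) := by
    refine fs_cover _ _ _ _ (fun q : (ℕ × List St) × (List ℕ × List St) => q.2.2) ?_
    rintro ω ⟨⟨h1, h2⟩, h3⟩
    obtain ⟨A, α, β, g1, g2, g3, g4, g5, g6⟩ := exists_unfold _ ω rfl h1 h2 (by
      rintro rfl; simp at h3; exact hN h3.symm)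
    refine ⟨((A - 1, β), (α, ω)), ⟨⟨?_, ?_⟩, g3, g4⟩, rfl, le_rfl⟩
    · simp only; omega
    · simp only
      rw [show 1 + (A - 1) = A by omega]
      exact g1
  have h2 : fs (fun q : (ℕ × List St) × (List ℕ × List St) =>
        ii ((q.1.1 < N ∧ IsBr (1 + q.1.1) q.1.2) ∧ (Dec q.1.1 q.2.1 ∧ HPc q.2.1 q.1.2 q.2.2)) *
          xl q.2.2) ≤ Rr 1 N [] := by
    rw [fs_prod, fs_prod, Rr_eq]
    have h3 : ∀ l : ℕ, fs (fun β : List St => fs (fun q : List ℕ × List St =>
        ii ((l < N ∧ IsBr (1 + l) β) ∧ (Dec l q.1 ∧ HPc q.1 β q.2)) * xl q.2)) ≤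
        ii (l < N) * fs (fun β' => ii (IsBr (1 + l) β' ∧ NCg [] β') * (xl β' * Rr 1 l β')) := by
      intro l
      rw [mul_fs]
      apply fs_mono
      intro β
      calc fs (fun q : List ℕ × List St =>
            ii ((l < N ∧ IsBr (1 + l) β) ∧ (Dec l q.1 ∧ HPc q.1 β q.2)) * xl q.2)
          = ii (l < N) * ii (IsBr (1 + l) β) * fs (fun q : List ℕ × List St =>
            ii (Dec l q.1 ∧ HPc q.1 β q.2) * xl q.2) := by
            rw [mul_fs]
            apply fs_congr
            intro q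
            rw [ii_and (_ ∧ _) (_ ∧ _), ii_and (l < N)]; ring
        _ ≤ ii (l < N) * ii (IsBr (1 + l) β ∧ NCg [] β) * (xl β * Rr 1 l β) := by
            gcongr
            · exact ii_mono fun h => ⟨h, NCg_nil_left h.isB⟩
            · exact chain_fs l β
        _ = _ := by ring
    calc _ ≤ fs (fun l : ℕ => ii (l < N) *
          fs (fun β' => ii (IsBr (1 + l) β' ∧ NCg [] β') * (xl β' * Rr 1 l β'))) := fs_mono h3
      _ = ∑ l ∈ Finset.range N,
          fs (fun β' => ii (IsBr (1 + l) β' ∧ NCg [] β') * (xl β' * Rr 1 l β')) := by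
          ext n
          rw [coeff_fs, map_sum, tsum_eq_sum (s := Finset.range N)]
          · apply Finset.sum_congr rfl
            intro l hl
            rw [Finset.mem_range] at hl
            rw [ii_of hl, one_mul]
          · intro l hl
            rw [Finset.mem_range] at hl
            rw [ii_not hl, zero_mul, map_zero]
      _ ≤ _ := le_add_self
  have h3 := h1.trans h2 N
  refine le_trans (le_of_eq ?_) h3
  rw [coeff_fs]
  unfold hh
  congr 1; ext ω
  rw [coeff_ii_mul, coeff_xl, ← ind_and]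
  congr 1
  apply propext
  tauto

lemma one_le_Bs : 1 ≤ Bs := by
  calc (1 : PS) = ii (IsB []) * xl [] := by rw [ii_of isB_nil]; simp
    _ ≤ _ := le_fs (fun w => ii (IsB w) * xl w) []

lemma hh_le_of_Nm {N : ℕ} (hN : N ≠ 0) {M : ℕ} (hM : N ≤ 2 ^ M - 1) {c : ℝ≥0∞}
    (h : Nm c (Rr 1 (2 ^ M - 1) [])) : hh N ≤ c * bn N := by
  calc hh N ≤ coeff N (Rr 1 N []) := hh_le_coeff hN
    _ ≤ coeff N (Rr 1 (2 ^ M - 1) []) := Rr_mono 1 hM [] N
    _ ≤ coeff N (Rr 1 (2 ^ M - 1) [] * Bs) := by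
        have : Rr 1 (2 ^ M - 1) [] * 1 ≤ Rr 1 (2 ^ M - 1) [] * Bs := by
          gcongr
          exact one_le_Bs
        rw [mul_one] at this
        exact this N
    _ ≤ coeff N (cst c * Bs) := h N
    _ = _ := by rw [coeff_cst_mul]; rfl

/-- **Half-plane walks versus bridges.** -/
theorem hh_le_bn {ε : ℝ} (hε : 0 < ε) : ∃ K : ℝ, 0 ≤ K ∧ ∀ N : ℕ, 1 ≤ N →
    hh N ≤ ENNReal.ofReal (Real.exp (K * (N : ℝ) ^ ε)) * bn N := by
  obtain ⟨C, hC, hE⟩ := Es_le (ε := ε / 4) (by positivity)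
  refine ⟨(2 + 2 / (ε / 4)) * ((3 + 1 / (ε / 4)) + 64 * (C * 2 ^ (ε / 4)) ^ 2), by positivity, ?_⟩
  intro N hN
  have hNr : (1 : ℝ) ≤ N := by exact_mod_cast hN
  have hN0 : (0 : ℝ) < N := by linarith
  obtain ⟨M, hMdef⟩ : ∃ M, M = Nat.log 2 N + 1 := ⟨_, rfl⟩
  have hM1 : N < 2 ^ M := by rw [hMdef]; exact Nat.lt_pow_succ_log_self (by norm_num) N
  have hM2 : ∀ i < M, 2 ^ i ≤ N := by
    intro i hi
    calc 2 ^ i ≤ 2 ^ (Nat.log 2 N) := Nat.pow_le_pow_right (by norm_num) (by omega)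
      _ ≤ N := Nat.pow_log_le_self 2 (by omega)
  set c : ℕ → ℝ := fun i => C * ((2 * 2 ^ i : ℕ) : ℝ) ^ (ε / 4) with hc
  have hc0 : ∀ i, 0 ≤ c i := fun i => by positivity
  have hE' : ∀ i, Es (2 * 2 ^ i) ≤ cst (ENNReal.ofReal (c i)) * Us (4 * 2 ^ i) := by
    intro i
    have := hE (2 * 2 ^ i) (by have : 0 < 2 ^ i := by positivity
                               omega)
    have e : 2 * (2 * 2 ^ i) = 4 * 2 ^ i := by ring
    rw [e] at this
    exact this
  have h1 := hh_le_of_Nm (N := N) (by omega) (M := M) (by omega) (all_scales c hc0 hE' M)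
  refine h1.trans ?_
  gcongr
  -- numerics
  set y : ℝ := (N : ℝ) ^ (ε / 4) with hy
  have hy1 : 1 ≤ y := Real.one_le_rpow hNr (by positivity)
  have hy4 : y * y * y ≤ (N : ℝ) ^ ε := by
    have : y * y * y * y = (N : ℝ) ^ ε := by
      rw [hy, ← Real.rpow_add hN0, ← Real.rpow_add hN0, ← Real.rpow_add hN0]
      congr 1; ring
    have h2 : 0 ≤ y * y * y := by positivity
    nlinarith
  set B : ℝ := (3 + 1 / (ε / 4)) * y + 64 * (C * 2 ^ (ε / 4)) ^ 2 * (y * y) with hB
  have hfac : ∀ i ∈ Finset.range M, ((2 * (2:ℝ) ^ i + 1) * 5 * Real.exp (64 * (c i) ^ 2)) ≤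
      Real.exp B := by
    intro i hi
    rw [Finset.mem_range] at hi
    have h2 : ((2 : ℝ) ^ i) ≤ N := by exact_mod_cast hM2 i hi
    have h3 : c i ≤ C * 2 ^ (ε / 4) * y := by
      rw [hc, hy]
      simp only
      have : ((2 * 2 ^ i : ℕ) : ℝ) ≤ 2 * N := by push_cast; linarith
      calc C * ((2 * 2 ^ i : ℕ) : ℝ) ^ (ε / 4) ≤ C * (2 * (N : ℝ)) ^ (ε / 4) := by gcongr
        _ = _ := by rw [Real.mul_rpow (by norm_num) hN0.le]; ring
    have h4 : (c i) ^ 2 ≤ (C * 2 ^ (ε / 4)) ^ 2 * (y * y) := by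
      calc (c i) ^ 2 ≤ (C * 2 ^ (ε / 4) * y) ^ 2 := pow_le_pow_left₀ (hc0 i) h3 2
        _ = _ := by ring
    have h5 : (2 * (2:ℝ) ^ i + 1) * 5 ≤ Real.exp ((3 + 1 / (ε / 4)) * y) := by
      have h6 : (2 * (2:ℝ) ^ i + 1) * 5 ≤ 15 * N := by nlinarith
      have h7 : Real.log (15 * N) ≤ (3 + 1 / (ε / 4)) * y := by
        have e1 : Real.log 15 ≤ 3 := by
          rw [Real.log_le_iff_le_exp (by norm_num)]
          have h3 : (2.7:ℝ) ≤ Real.exp 1 := by
            have := Real.exp_one_gt_d9; linarith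
          calc (15:ℝ) ≤ 2.7 ^ 3 := by norm_num
            _ ≤ (Real.exp 1) ^ 3 := by gcongr
            _ = Real.exp 3 := by rw [← Real.exp_nat_mul]; norm_num
        have e2 : Real.log N ≤ y / (ε / 4) := Real.log_le_rpow_div hN0.le (by positivity)
        rw [Real.log_mul (by norm_num) (by positivity)]
        calc Real.log 15 + Real.log N ≤ 3 * y + y / (ε / 4) := by nlinarith
          _ = _ := by ring
      calc (2 * (2:ℝ) ^ i + 1) * 5 ≤ 15 * N := h6
        _ = Real.exp (Real.log (15 * N)) := (Real.exp_log (by positivity)).symm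
        _ ≤ _ := Real.exp_le_exp.mpr h7
    calc (2 * (2:ℝ) ^ i + 1) * 5 * Real.exp (64 * (c i) ^ 2)
        ≤ Real.exp ((3 + 1 / (ε / 4)) * y) * Real.exp (64 * ((C * 2 ^ (ε / 4)) ^ 2 * (y * y))) := by
          gcongr
      _ = Real.exp B := by rw [← Real.exp_add, hB]; congr 1; ring
  have hprod : ∏ i ∈ Finset.range M, ((2 * (2:ℝ) ^ i + 1) * 5 * Real.exp (64 * (c i) ^ 2)) ≤
      Real.exp (M * B) := by
    calc _ ≤ ∏ i ∈ Finset.range M, Real.exp B :=
          Finset.prod_le_prod (fun i _ => by positivity) hfac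
      _ = _ := by rw [Finset.prod_const, Finset.card_range, ← Real.exp_nat_mul]
  refine hprod.trans (Real.exp_le_exp.mpr ?_)
  have hM3 : (M : ℝ) ≤ (2 + 2 / (ε / 4)) * y := by
    have e1 := log_bound (ε := ε / 4) (by positivity) hN
    have e2 : Nat.log 2 (2 * N) = Nat.log 2 N + 1 := by
      rw [mul_comm]; exact Nat.log_mul_base (by norm_num) (by omega)
    rw [e2] at e1
    rw [hMdef]
    push_cast at e1 ⊢
    linarith
  have hB3 : B ≤ ((3 + 1 / (ε / 4)) + 64 * (C * 2 ^ (ε / 4)) ^ 2) * (y * y) := by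
    have e1 : (3 + 1 / (ε / 4)) * y ≤ (3 + 1 / (ε / 4)) * (y * y) := by
      have : y ≤ y * y := by nlinarith
      gcongr
    rw [hB]
    linarith
  have hB0 : 0 ≤ B := by positivity
  calc (M : ℝ) * B ≤ ((2 + 2 / (ε / 4)) * y) *
        (((3 + 1 / (ε / 4)) + 64 * (C * 2 ^ (ε / 4)) ^ 2) * (y * y)) := by gcongr
    _ = (2 + 2 / (ε / 4)) * ((3 + 1 / (ε / 4)) + 64 * (C * 2 ^ (ε / 4)) ^ 2) * (y * y * y) := by
        ring
    _ ≤ _ := by gcongr

end H981
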