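import Pool.Agent.H981R2.PS

/-!
Irreducible bridges; random marks; the renewal bound.
-/

namespace H981

open scoped ENNReal
open PowerSeries

/-- irreducible bridges -/
def Irr (w : List St) : Prop :=
  IsB w ∧ w ≠ [] ∧ ∀ c X1 X2, Spl c w X1 X2 → X1 = [] ∨ X2 = []

/-- all bridges -/
noncomputable def Bs : PS := fs (fun w => ii (IsB w) * xl w)

/-- bridges of width at most `W` -/
noncomputable def Us (W : ℕ) : PS := fs (fun w => ii (IsB w ∧ wd w ≤ W) * xl w)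

/-- irreducible bridges of width at most `W`, weighted by the width -/
noncomputable def Ks (W : ℕ) : PS :=
  fs (fun w => ii (Irr w ∧ wd w ≤ W) * (cst (wd w : ℝ≥0∞) * xl w))

lemma IsB.wd_eq_dx {w : List St} (h : IsB w) : (wd w : ℤ) = dx w := by
  obtain ⟨a, h⟩ := h
  rw [h.wd, h.dx]

lemma IsB.ne_nil_of_pos {w : List St} (h : 0 < wd w) : w ≠ [] := by
  rintro rfl
  simp [wd] at h

lemma IsB.wd_pos {w : List St} (h : IsB w) (h0 : w ≠ []) : 0 < wd w := by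
  obtain ⟨a, h⟩ := h
  rw [h.wd]
  by_contra hc
  have : a = 0 := by omega
  subst this
  exact h0 h.eq_nil

lemma triple_aux {X ι Y X' ι' Y' : List St} (hX : IsB X) (hι : Irr ι) (hY : IsB Y)
    (hX' : IsB X') (hι' : Irr ι') (hY' : IsB Y') (he : X ++ (ι ++ Y) = X' ++ (ι' ++ Y')) {m : ℕ}
    (h1 : m < wd X + wd ι) (h2 : wd X' ≤ m) : ¬ wd X < wd X' := by
  intro hlt
  have s1 : Spl (wd X) (X ++ (ι ++ Y)) X (ι ++ Y) := ⟨rfl, hX.br, hι.1.append hY⟩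
  have s2 : Spl (wd X') (X ++ (ι ++ Y)) X' (ι' ++ Y') := ⟨he, hX'.br, hι'.1.append hY'⟩
  have s3 : Spl (wd X + wd ι) (X ++ (ι ++ Y)) (X ++ ι) Y :=
    ⟨by simp, hX.br.append hι.1.br, hY⟩
  obtain ⟨M, e1, e2, e3⟩ := s1.refine s2 hlt.le
  obtain ⟨M2, f1, f2, f3⟩ := s2.refine s3 (by omega)
  have g1 : ι = M ++ M2 := by
    rw [e1, List.append_assoc] at f1
    exact List.append_cancel_left f1
  have s4 : Spl (wd X' - wd X) ι M M2 := ⟨g1, e3, f3.isB⟩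
  rcases hι.2.2 _ _ _ s4 with h | h
  · exact e3.ne_nil (by omega) h
  · have h5 := f3.wd
    rw [h] at h5
    simp [wd] at h5
    unfold wd at *
    omega

/-- uniqueness of the irreducible piece covering the mark `m` -/
lemma triple_unique {X ι Y X' ι' Y' : List St} (hX : IsB X) (hι : Irr ι) (hY : IsB Y)
    (hX' : IsB X') (hι' : Irr ι') (hY' : IsB Y') (he : X ++ (ι ++ Y) = X' ++ (ι' ++ Y')) {m : ℕ}
    (h1 : wd X ≤ m) (h1' : m < wd X + wd ι) (h2 : wd X' ≤ m) (h2' : m < wd X' + wd ι') :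
    X = X' ∧ ι = ι' ∧ Y = Y' := by
  have n1 := triple_aux hX hι hY hX' hι' hY' he h1' h2
  have n2 := triple_aux hX' hι' hY' hX hι hY he.symm h2' h1
  have hw : wd X = wd X' := by omega
  have s1 : Spl (wd X) (X ++ (ι ++ Y)) X (ι ++ Y) := ⟨rfl, hX.br, hι.1.append hY⟩
  have s2 : Spl (wd X) (X ++ (ι ++ Y)) X' (ι' ++ Y') :=
    ⟨he, by rw [hw]; exact hX'.br, hι'.1.append hY'⟩
  obtain ⟨rfl, e2⟩ := s1.unique s2
  refine ⟨rfl, ?_⟩
  have t1 : Spl (wd ι) (ι ++ Y) ι Y := ⟨rfl, hι.1.br, hY⟩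
  have t2 : Spl (wd ι') (ι ++ Y) ι' Y' := ⟨e2, hι'.1.br, hY'⟩
  have key : ∀ {a a' b b' : List St}, Irr a → Irr a' → Spl (wd a) (a ++ b) a b →
      Spl (wd a') (a ++ b) a' b' → wd a ≤ wd a' → a = a' ∧ b = b' := by
    intro a a' b b' ha ha' ta tb hle
    obtain ⟨M, e1, e2, e3⟩ := ta.refine tb hle
    have s4 : Spl (wd a) a' a M := ⟨e1, ha.1.br, e3.isB⟩
    rcases ha'.2.2 _ _ _ s4 with h | h
    · exact absurd h ha.2.1
    · subst h
      simp at e1 e2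
      exact ⟨e1.symm, e2⟩
  rcases le_total (wd ι) (wd ι') with h | h
  · exact key hι hι' t1 t2 h
  · have t1' : Spl (wd ι) (ι' ++ Y') ι Y := by rw [← e2]; exact t1
    have t2' : Spl (wd ι') (ι' ++ Y') ι' Y' := by rw [← e2]; exact t2
    obtain ⟨a, b⟩ := key hι' hι t2' t1' h
    exact ⟨a.symm, b.symm⟩

/-- existence of the irreducible piece covering the mark `m` -/
lemma exists_triple {A m : ℕ} {β : List St} (hβ : IsBr A β) (hm : m < A) :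
    ∃ X ι Y, β = X ++ (ι ++ Y) ∧ IsB X ∧ Irr ι ∧ IsB Y ∧ wd X ≤ m ∧ m < wd X + wd ι := by
  classical
  let Q : ℕ → Prop := fun c => ∃ X1 X2, Spl c β X1 X2
  have hQ0 : Q 0 := ⟨[], β, ⟨by simp, isBr_nil, hβ.isB⟩⟩
  have hQA : Q A := ⟨β, [], ⟨by simp, hβ, isB_nil⟩⟩
  -- the last level at most m
  set c := Nat.findGreatest Q m with hc
  have hQc : Q c := Nat.findGreatest_spec (P := Q) (Nat.zero_le m) hQ0
  have hcm : c ≤ m := Nat.findGreatest_le m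
  have hcmax : ∀ e, Q e → e ≤ m → e ≤ c := fun e he hle => Nat.le_findGreatest hle he
  -- the first level after m
  have hex : ∃ d, Q d ∧ m < d := ⟨A, hQA, hm⟩
  set d := Nat.find hex with hd
  obtain ⟨hQd, hmd⟩ := Nat.find_spec hex
  have hdmin : ∀ e, Q e → m < e → d ≤ e := fun e he hlt => Nat.find_min' hex ⟨he, hlt⟩
  obtain ⟨X, R, h1⟩ := hQc
  obtain ⟨D, Y, h2⟩ := hQd
  obtain ⟨M, e1, e2, e3⟩ := h1.refine h2 (by omega)
  refine ⟨X, M, Y, by rw [h1.1, e2], h1.2.1.isB, ⟨e3.isB, e3.ne_nil (by omega), ?_⟩, h2.2.2,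
    by rw [h1.2.1.wd]; exact hcm, by rw [h1.2.1.wd, e3.wd]; omega⟩
  intro e X1 X2 hs
  by_contra hcon
  push Not at hcon
  have hX1 : 0 < e := by
    have := (hs.2.1.isB).wd_pos hcon.1
    rwa [hs.2.1.wd] at this
  have hX2 : 0 < wd X2 := hs.2.2.wd_pos hcon.2
  have hlen : d - c = e + wd X2 := by
    rw [← e3.wd, hs.1, wd_append hs.2.1.isB hs.2.2, hs.2.1.wd]
  have hQe : Q (c + e) := by
    refine ⟨X ++ X1, X2 ++ Y, ?_, h1.2.1.append hs.2.1, hs.2.2.append h2.2.2⟩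
    rw [h1.1, e2, hs.1]; simp
  rcases Nat.lt_or_ge m (c + e) with h | h
  · have := hdmin _ hQe h
    omega
  · have := hcmax _ hQe h
    omega

abbrev L3 := List St × List St × List St

/-- total word of a triple -/
def cat3 (t : L3) : List St := t.1 ++ (t.2.1 ++ t.2.2)

/-- triples bridge, irreducible bridge, bridge -/
def IsT (t : L3) : Prop := IsB t.1 ∧ Irr t.2.1 ∧ IsB t.2.2

lemma IsT.isB {t : L3} (h : IsT t) : IsB (cat3 t) := h.1.append (h.2.1.1.append h.2.2)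

lemma IsT.wd {t : L3} (h : IsT t) : wd (cat3 t) = wd t.1 + (wd t.2.1 + wd t.2.2) := by
  unfold cat3
  rw [wd_append h.1 (h.2.1.1.append h.2.2), wd_append h.2.1.1 h.2.2]

/-- the mark lemma -/
theorem mark_le (r : ℕ) (P : List St → Prop) (Q : L3 → Prop) (g : List St → PS) (h : L3 → PS)
    (hP : ∀ β, P β → IsB β ∧ r ≤ wd β)
    (hPQ : ∀ t, IsT t → P (cat3 t) → Q t ∧ g (cat3 t) ≤ h t) :
    cst (r : ℝ≥0∞) * fs (fun β => ii (P β) * g β) ≤
      fs (fun t : L3 => ii (IsT t ∧ Q t) * (cst (wd t.2.1 : ℝ≥0∞) * h t)) := by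
  have h1 : cst (r : ℝ≥0∞) * fs (fun β => ii (P β) * g β) =
      fs (fun q : ℕ × List St => ii (q.1 < r ∧ P q.2) * g q.2) := by
    rw [cst_nat_eq, fs_mul_fs]
    congr 1; ext1 q
    rw [ii_and]; ring
  have h2 : fs (fun t : L3 => ii (IsT t ∧ Q t) * (cst (wd t.2.1 : ℝ≥0∞) * h t)) =
      fs (fun q : ℕ × L3 => ii (q.1 < wd q.2.2.1 ∧ (IsT q.2 ∧ Q q.2)) * h q.2) := by
    conv_rhs => rw [fs_prod, fs_comm]
    apply fs_congr
    intro t
    rw [cst_nat_eq]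
    simp only
    calc ii (IsT t ∧ Q t) * (fs (fun m => ii (m < wd t.2.1) * 1) * h t)
        = (ii (IsT t ∧ Q t) * h t) * fs (fun m => ii (m < wd t.2.1) * 1) := by ring
      _ = _ := by
        rw [mul_fs]
        congr 1; ext1 m
        rw [ii_and (m < wd t.2.1)]; ring
  rw [h1, h2]
  refine fs_cover _ _ _ _ (fun q : ℕ × L3 => (wd q.2.1 + q.1, cat3 q.2)) ?_
  rintro ⟨m, β⟩ ⟨hm, hβ⟩
  simp only at hm hβ
  obtain ⟨hB, hr⟩ := hP β hβ
  obtain ⟨X, ι, Y, rfl, hX, hι, hY, h3, h4⟩ := exists_triple hB.br (m := m) (by omega)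
  have hT : IsT (X, ι, Y) := ⟨hX, hι, hY⟩
  obtain ⟨h5, h6⟩ := hPQ _ hT hβ
  refine ⟨(m - wd X, (X, ι, Y)), ⟨?_, hT, h5⟩, ?_, h6⟩
  · simp only; omega
  · simp only [Prod.mk.injEq]
    exact ⟨by omega, rfl⟩

/-- `f` has norm at most `c` (with respect to multiplication of the series of all bridges) -/
def Nm (c : ℝ≥0∞) (f : PS) : Prop := f * Bs ≤ cst c * Bs

lemma Nm.mul {a b : ℝ≥0∞} {f g : PS} (hf : Nm a f) (hg : Nm b g) : Nm (a * b) (f * g) := by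
  unfold Nm at *
  calc f * g * Bs = f * (g * Bs) := by ring
    _ ≤ f * (cst b * Bs) := by gcongr
    _ = cst b * (f * Bs) := by ring
    _ ≤ cst b * (cst a * Bs) := by gcongr
    _ = cst (a * b) * Bs := by rw [cst_mul]; ring

lemma Nm.add {a b : ℝ≥0∞} {f g : PS} (hf : Nm a f) (hg : Nm b g) : Nm (a + b) (f + g) := by
  unfold Nm at *
  calc (f + g) * Bs = f * Bs + g * Bs := by ring
    _ ≤ cst a * Bs + cst b * Bs := by gcongr
    _ = cst (a + b) * Bs := by rw [cst_add]; ring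

lemma Nm.mono {c : ℝ≥0∞} {f g : PS} (hg : Nm c g) (h : f ≤ g) : Nm c f := by
  unfold Nm at *
  exact le_trans (by gcongr) hg

lemma Nm.weaken {c c' : ℝ≥0∞} {f : PS} (hf : Nm c f) (h : c ≤ c') : Nm c' f := by
  unfold Nm at *
  refine hf.trans ?_
  gcongr
  exact cst_le h

lemma Nm_cst (c : ℝ≥0∞) : Nm c (cst c) := le_refl _

lemma Nm_one : Nm 1 1 := by
  have := Nm_cst 1
  rwa [cst_one] at this

lemma Nm.pow {c : ℝ≥0∞} {f : PS} (hf : Nm c f) (k : ℕ) : Nm (c ^ k) (f ^ k) := by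
  induction k with
  | zero => simpa using Nm_one
  | succ k ih => rw [pow_succ, pow_succ]; exact ih.mul hf

lemma Nm.sum {ι : Type*} (s : Finset ι) {c : ι → ℝ≥0∞} {f : ι → PS} (h : ∀ i ∈ s, Nm (c i) (f i)) :
    Nm (∑ i ∈ s, c i) (∑ i ∈ s, f i) := by
  classical
  induction s using Finset.induction_on with
  | empty =>
    have := Nm_cst 0
    simpa using this
  | insert a s ha ih =>
    rw [Finset.sum_insert ha, Finset.sum_insert ha]
    exact (h a (by simp)).add (ih fun i hi => h i (by simp [hi]))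

lemma Nm.prod {ι : Type*} (s : Finset ι) {c : ι → ℝ≥0∞} {f : ι → PS} (h : ∀ i ∈ s, Nm (c i) (f i)) :
    Nm (∏ i ∈ s, c i) (∏ i ∈ s, f i) := by
  classical
  induction s using Finset.induction_on with
  | empty => simpa using Nm_one
  | insert a s ha ih =>
    rw [Finset.prod_insert ha, Finset.prod_insert ha]
    exact (h a (by simp)).mul (ih fun i hi => h i (by simp [hi]))

/-- the renewal bound -/
theorem Nm_KU (W : ℕ) : Nm ((2 * W : ℕ) : ℝ≥0∞) (Ks W * Us W) := by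
  unfold Nm
  have h1 : Ks W * Us W * Bs = fs (fun q : (List St × List St × List St) × ℕ =>
      ii ((((Irr q.1.1 ∧ wd q.1.1 ≤ W) ∧ (IsB q.1.2.1 ∧ wd q.1.2.1 ≤ W)) ∧ IsB q.1.2.2) ∧
        q.2 < wd q.1.1) * (xl q.1.1 * xl q.1.2.1 * xl q.1.2.2)) := by
    unfold Ks Us Bs
    rw [mul_assoc, fs_mul_fs, fs_mul_fs, fs_prod (fun q : (List St × List St × List St) × ℕ => _)]
    congr 1; ext1 q
    simp only
    rw [cst_nat_eq]
    simp_rw [ii_and]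
    calc _ = (ii (Irr q.1) * ii (wd q.1 ≤ W) * (ii (IsB q.2.1) * ii (wd q.2.1 ≤ W)) *
          ii (IsB q.2.2) * (xl q.1 * xl q.2.1 * xl q.2.2)) * fs (fun m => ii (m < wd q.1) * 1) := by
          ring
      _ = _ := by
        rw [mul_fs]
        congr 1; ext1 m
        ring
  have h2 : cst ((2 * W : ℕ) : ℝ≥0∞) * Bs = fs (fun q : ℕ × List St =>
      ii (q.1 < 2 * W ∧ IsB q.2) * xl q.2) := by
    unfold Bs
    rw [cst_nat_eq, fs_mul_fs]
    congr 1; ext1 q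
    rw [ii_and]; ring
  rw [h1, h2]
  refine fs_inj _ _ _ _ (fun q => (wd q.1.2.1 + q.2, q.1.2.1 ++ (q.1.1 ++ q.1.2.2))) ?_ ?_ ?_
  · rintro ⟨⟨ι, X, Y⟩, m⟩ ⟨⟨ι', X', Y'⟩, m'⟩ ⟨⟨⟨⟨a1, a2⟩, ⟨a3, a4⟩⟩, a5⟩, a6⟩
      ⟨⟨⟨⟨b1, b2⟩, ⟨b3, b4⟩⟩, b5⟩, b6⟩ heq
    simp only at a1 a2 a3 a4 a5 a6 b1 b2 b3 b4 b5 b6 heq
    rw [Prod.mk.injEq] at heq
    obtain ⟨e1, e2⟩ := heq
    obtain ⟨rfl, rfl, rfl⟩ := triple_unique a3 a1 a5 b3 b1 b5 e2 (m := wd X + m) (by omega)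
      (by omega) (by omega) (by omega)
    have : m = m' := by omega
    subst this
    rfl
  · rintro ⟨⟨ι, X, Y⟩, m⟩ ⟨⟨⟨⟨a1, a2⟩, ⟨a3, a4⟩⟩, a5⟩, a6⟩
    simp only at a1 a2 a3 a4 a5 a6 ⊢
    exact ⟨by omega, a3.append (a1.1.append a5)⟩
  · rintro ⟨⟨ι, X, Y⟩, m⟩ -
    simp only
    rw [xl_append, xl_append]
    apply le_of_eq; ring

/-- trivial bound -/
theorem Nm_U (W : ℕ) : Nm ((W + 1 : ℕ) : ℝ≥0∞) (Us W) := by
  unfold Nm
  have h1 : Us W * Bs = fs (fun q : List St × List St =>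
      ii ((IsB q.1 ∧ wd q.1 ≤ W) ∧ IsB q.2) * (xl q.1 * xl q.2)) := by
    unfold Us Bs
    rw [fs_mul_fs]
    congr 1; ext1 q
    rw [ii_and (_ ∧ _)]; ring
  have h2 : cst ((W + 1 : ℕ) : ℝ≥0∞) * Bs = fs (fun q : ℕ × List St =>
      ii (q.1 < W + 1 ∧ IsB q.2) * xl q.2) := by
    unfold Bs
    rw [cst_nat_eq, fs_mul_fs]
    congr 1; ext1 q
    rw [ii_and]; ring
  rw [h1, h2]
  refine fs_inj _ _ _ _ (fun q => (wd q.1, q.1 ++ q.2)) ?_ ?_ ?_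
  · rintro ⟨X, Y⟩ ⟨X', Y'⟩ ⟨⟨a1, a2⟩, a3⟩ ⟨⟨b1, b2⟩, b3⟩ heq
    simp only at a1 a2 a3 b1 b2 b3 heq
    rw [Prod.mk.injEq] at heq
    obtain ⟨e1, e2⟩ := heq
    have s1 : Spl (wd X) (X ++ Y) X Y := ⟨rfl, a1.br, a3⟩
    have s2 : Spl (wd X) (X ++ Y) X' Y' := ⟨e2, by rw [e1]; exact b1.br, b3⟩
    obtain ⟨rfl, rfl⟩ := s1.unique s2
    rfl
  · rintro ⟨X, Y⟩ ⟨⟨a1, a2⟩, a3⟩
    simp only at a1 a2 a3 ⊢
    exact ⟨by omega, a1.append a3⟩
  · rintro ⟨X, Y⟩ -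
    simp only
    rw [xl_append]

end H981
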