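import Mathlib

/-!
Words over the four unit steps of `ℤ²`, self-avoiding words, bridges.
-/

namespace H981

/-- the four unit steps -/
inductive St
  | E | W | N | S
deriving DecidableEq, Inhabited

instance : Fintype St := ⟨{.E, .W, .N, .S}, by intro s; cases s <;> simp⟩

namespace St
/-- horizontal component of a step -/
def x : St → ℤ
  | E => 1
  | W => -1
  | N => 0
  | S => 0
/-- vertical component of a step -/
def y : St → ℤ
  | E => 0
  | W => 0
  | N => 1
  | S => -1
/-- vertical flip -/
def ng : St → St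
  | E => E
  | W => W
  | N => S
  | S => N
/-- horizontal flip -/
def sg : St → St
  | E => W
  | W => E
  | N => N
  | S => S
@[simp] lemma ng_ng (s : St) : s.ng.ng = s := by cases s <;> rfl
@[simp] lemma sg_sg (s : St) : s.sg.sg = s := by cases s <;> rfl
@[simp] lemma x_ng (s : St) : s.ng.x = s.x := by cases s <;> rfl
@[simp] lemma y_ng (s : St) : s.ng.y = -s.y := by cases s <;> rfl
@[simp] lemma x_sg (s : St) : s.sg.x = -s.x := by cases s <;> rfl
@[simp] lemma y_sg (s : St) : s.sg.y = s.y := by cases s <;> rfl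
@[simp] lemma x_E : St.E.x = 1 := rfl
@[simp] lemma x_W : St.W.x = -1 := rfl
@[simp] lemma x_N : St.N.x = 0 := rfl
@[simp] lemma x_S : St.S.x = 0 := rfl
@[simp] lemma y_E : St.E.y = 0 := rfl
@[simp] lemma y_W : St.W.y = 0 := rfl
@[simp] lemma y_N : St.N.y = 1 := rfl
@[simp] lemma y_S : St.S.y = -1 := rfl
lemma x_le (s : St) : s.x ≤ 1 := by cases s <;> decide
lemma eq_E_of_x_pos {s : St} (h : 0 < s.x) : s = E := by cases s <;> simp_all
end St

/-- horizontal displacement of a word -/
def dx (w : List St) : ℤ := (w.map St.x).sum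
/-- vertical displacement of a word -/
def dy (w : List St) : ℤ := (w.map St.y).sum

@[simp] lemma dx_nil : dx [] = 0 := rfl
@[simp] lemma dy_nil : dy [] = 0 := rfl
@[simp] lemma dx_cons (s : St) (w) : dx (s :: w) = s.x + dx w := by simp [dx]
@[simp] lemma dy_cons (s : St) (w) : dy (s :: w) = s.y + dy w := by simp [dy]
@[simp] lemma dx_append (u w) : dx (u ++ w) = dx u + dx w := by simp [dx]
@[simp] lemma dy_append (u w) : dy (u ++ w) = dy u + dy w := by simp [dy]
@[simp] lemma dx_reverse (w : List St) : dx w.reverse = dx w := by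
  induction w with
  | nil => rfl
  | cons s w ih => simp [ih]; ring
@[simp] lemma dy_reverse (w : List St) : dy w.reverse = dy w := by
  induction w with
  | nil => rfl
  | cons s w ih => simp [ih]; ring

/-- vertical flip of a word -/
def ng (w : List St) : List St := w.map St.ng
/-- horizontal flip of a word -/
def sg (w : List St) : List St := w.map St.sg

@[simp] lemma ng_nil : ng [] = [] := rfl
@[simp] lemma sg_nil : sg [] = [] := rfl
@[simp] lemma ng_cons (s : St) (w) : ng (s :: w) = s.ng :: ng w := rfl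
@[simp] lemma sg_cons (s : St) (w) : sg (s :: w) = s.sg :: sg w := rfl
@[simp] lemma ng_append (u w) : ng (u ++ w) = ng u ++ ng w := by simp [ng]
@[simp] lemma sg_append (u w) : sg (u ++ w) = sg u ++ sg w := by simp [sg]
@[simp] lemma ng_ng (w) : ng (ng w) = w := by
  induction w with
  | nil => rfl
  | cons s w ih => simp [ih]
@[simp] lemma sg_sg (w) : sg (sg w) = w := by
  induction w with
  | nil => rfl
  | cons s w ih => simp [ih]
@[simp] lemma ng_reverse (w) : ng w.reverse = (ng w).reverse := by simp [ng]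
@[simp] lemma sg_reverse (w) : sg w.reverse = (sg w).reverse := by simp [sg]
@[simp] lemma length_ng (w) : (ng w).length = w.length := by simp [ng]
@[simp] lemma length_sg (w) : (sg w).length = w.length := by simp [sg]
@[simp] lemma dx_ng (w) : dx (ng w) = dx w := by
  induction w with
  | nil => rfl
  | cons s w ih => simp [ih]
@[simp] lemma dy_ng (w) : dy (ng w) = - dy w := by
  induction w with
  | nil => rfl
  | cons s w ih => simp [ih]; ring
@[simp] lemma dx_sg (w) : dx (sg w) = - dx w := by
  induction w with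
  | nil => rfl
  | cons s w ih => simp [ih]; ring
@[simp] lemma dy_sg (w) : dy (sg w) = dy w := by
  induction w with
  | nil => rfl
  | cons s w ih => simp [ih]
@[simp] lemma ng_eq_nil (w) : ng w = [] ↔ w = [] := by simp [ng]
@[simp] lemma sg_eq_nil (w) : sg w = [] ↔ w = [] := by simp [sg]
lemma ng_injective : Function.Injective ng := fun a b h => by
  have := congrArg ng h; simpa using this
lemma sg_injective : Function.Injective sg := fun a b h => by
  have := congrArg sg h; simpa using this

lemma dx_le_length (w : List St) : dx w ≤ w.length := by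
  induction w with
  | nil => simp
  | cons s w ih => simp; have := s.x_le; omega

/-! ### prefixes, infixes -/

lemma prefix_append_cases {α : Type*} {u a b : List α} (h : u <+: a ++ b) :
    u <+: a ∨ ∃ v, v <+: b ∧ v ≠ [] ∧ u = a ++ v := by
  obtain ⟨t, ht⟩ := h
  rcases List.append_eq_append_iff.mp ht with ⟨as, h1, h2⟩ | ⟨bs, h1, h2⟩
  · left; exact ⟨as, h1.symm⟩
  · by_cases hb : bs = []
    · left; subst hb; simp at h1; exact ⟨[], by simp [h1]⟩
    · right; exact ⟨bs, ⟨t, h2.symm⟩, hb, h1⟩

lemma infix_append_cases {α : Type*} {m a b : List α} (h : m <:+: a ++ b) :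
    m <:+: a ∨ m <:+: b ∨ ∃ m1 m2, m1 <:+ a ∧ m2 <+: b ∧ m1 ≠ [] ∧ m2 ≠ [] ∧ m = m1 ++ m2 := by
  obtain ⟨s, t, ht⟩ := h
  have hp : s ++ m <+: a ++ b := ⟨t, ht⟩
  rcases prefix_append_cases hp with h1 | ⟨v, hv, hv0, h1⟩
  · left
    obtain ⟨r, hr⟩ := h1
    exact ⟨s, r, hr⟩
  · rcases List.append_eq_append_iff.mp h1 with ⟨as, h2, h3⟩ | ⟨bs, h2, h3⟩
    · -- a = s ++ as, m = as ++ v
      by_cases has : as = []
      · subst has
        right; left
        rw [h3]; simp
        exact hv.isInfix
      · right; right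
        exact ⟨as, v, ⟨s, h2.symm⟩, hv, has, hv0, h3⟩
    · -- s = a ++ bs, v = bs ++ m
      right; left
      obtain ⟨r, hr⟩ := hv
      exact ⟨bs, r, by rw [← h3, hr]⟩

/-! ### self-avoiding words -/

/-- a word is self-avoiding iff no nonempty contiguous subword has zero displacement -/
def Saw (w : List St) : Prop := ∀ m, m <:+: w → dx m = 0 → dy m = 0 → m = []

lemma Saw.subw {w u : List St} (h : Saw w) (hu : u <:+: w) : Saw u :=
  fun m hm h1 h2 => h m (hm.trans hu) h1 h2

lemma saw_nil : Saw [] := fun m hm _ _ => by simpa using hm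

lemma Saw.reverse {w : List St} (h : Saw w) : Saw w.reverse := by
  intro m hm h1 h2
  have := h m.reverse (by rw [← List.reverse_infix]; simpa using hm) (by simpa using h1)
    (by simpa using h2)
  simpa using this

lemma Saw.ng {w : List St} (h : Saw w) : Saw (ng w) := by
  intro m hm h1 h2
  have h3 : H981.ng m <:+: w := by
    have := hm.map St.ng
    change H981.ng m <:+: H981.ng (H981.ng w) at this
    simpa using this
  have := h _ h3 (by simpa using h1) (by simpa using h2)
  simpa using this

lemma Saw.sg {w : List St} (h : Saw w) : Saw (sg w) := by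
  intro m hm h1 h2
  have h3 : H981.sg m <:+: w := by
    have := hm.map St.sg
    change H981.sg m <:+: H981.sg (H981.sg w) at this
    simpa using this
  have := h _ h3 (by simpa using h1) (by simpa using h2)
  simpa using this

/-- half-plane words : every nonempty initial segment has positive horizontal displacement -/
def HP (w : List St) : Prop := ∀ u, u <+: w → u ≠ [] → 0 < dx u

lemma HP.prew {w u : List St} (h : HP w) (hu : u <+: w) : HP u :=
  fun m hm h0 => h m (hm.trans hu) h0

lemma HP.ng {w : List St} (h : HP w) : HP (ng w) := by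
  intro m hm h0
  have h3 : H981.ng m <+: w := by
    have := hm.map St.ng
    change H981.ng m <+: H981.ng (H981.ng w) at this
    simpa using this
  have := h _ h3 (by simpa using h0)
  simpa using this

lemma HP.dx_nonneg {w : List St} (h : HP w) : 0 ≤ dx w := by
  by_cases hw : w = []
  · simp [hw]
  · exact (h w (List.prefix_refl _) hw).le

lemma HP.head_E {s : St} {w : List St} (h : HP (s :: w)) : s = St.E := by
  apply St.eq_E_of_x_pos
  have := h [s] ⟨w, rfl⟩ (by simp)
  simpa using this

/-- the word `w` is a bridge of width `a` -/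
def IsBr (a : ℕ) (w : List St) : Prop :=
  Saw w ∧ HP w ∧ (∀ u, u <+: w → dx u ≤ a) ∧ dx w = a

/-- bridges -/
def IsB (w : List St) : Prop := ∃ a, IsBr a w

/-- the width of a word -/
def wd (w : List St) : ℕ := (dx w).toNat

lemma IsBr.saw {a w} (h : IsBr a w) : Saw w := h.1
lemma IsBr.hp {a w} (h : IsBr a w) : HP w := h.2.1
lemma IsBr.le {a w} (h : IsBr a w) {u} (hu : u <+: w) : dx u ≤ a := h.2.2.1 u hu
lemma IsBr.dx {a w} (h : IsBr a w) : dx w = a := h.2.2.2
lemma IsBr.wd {a w} (h : IsBr a w) : wd w = a := by simp [H981.wd, h.dx]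
lemma IsBr.isB {a w} (h : IsBr a w) : IsB w := ⟨a, h⟩
lemma IsB.br {w} (h : IsB w) : IsBr (wd w) w := by
  obtain ⟨a, h⟩ := h; rw [h.wd]; exact h
lemma IsBr.eq {a a' w} (h : IsBr a w) (h' : IsBr a' w) : a = a' := by
  rw [← h.wd, h'.wd]
lemma isBr_iff {a w} : IsBr a w ↔ IsB w ∧ wd w = a :=
  ⟨fun h => ⟨h.isB, h.wd⟩, fun h => by rw [← h.2]; exact h.1.br⟩

lemma isBr_nil : IsBr 0 [] :=
  ⟨saw_nil, fun u hu h0 => absurd (by simpa using hu) h0, fun u hu => by
    have : u = [] := by simpa using hu
    simp [this], by simp⟩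

lemma isB_nil : IsB [] := ⟨0, isBr_nil⟩

lemma IsBr.eq_nil {w} (h : IsBr 0 w) : w = [] := by
  by_contra h0
  have := h.hp w (List.prefix_refl _) h0
  rw [h.dx] at this; simp at this

lemma IsBr.ne_nil {a w} (h : IsBr a w) (ha : 0 < a) : w ≠ [] := by
  rintro rfl
  have := h.dx
  simp at this; omega

lemma IsBr.ng {a w} (h : IsBr a w) : IsBr a (ng w) := by
  refine ⟨h.saw.ng, h.hp.ng, ?_, by simpa using h.dx⟩
  intro u hu
  have h3 : H981.ng u <+: w := by
    have := hu.map St.ng
    change H981.ng u <+: H981.ng (H981.ng w) at this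
    simpa using this
  simpa using h.le h3

lemma isBr_ng {a w} : IsBr a (ng w) ↔ IsBr a w :=
  ⟨fun h => by simpa using h.ng, fun h => h.ng⟩

lemma isB_ng {w} : IsB (ng w) ↔ IsB w := by
  simp [IsB, isBr_ng]

/-- suffixes of bridges have nonnegative displacement -/
lemma IsBr.suffix_nonneg {a w} (h : IsBr a w) {m} (hm : m <:+ w) : 0 ≤ H981.dx m := by
  obtain ⟨s, hs⟩ := hm
  have h1 := h.le ⟨m, hs⟩
  have h2 := h.dx
  rw [← hs] at h2; simp at h2
  omega

lemma IsBr.suffix_lt {a w} (h : IsBr a w) {m} (hm : m <:+ w) (hne : m ≠ w) : H981.dx m < a := by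
  obtain ⟨s, hs⟩ := hm
  have hs0 : s ≠ [] := by rintro rfl; exact hne (by simpa using hs)
  have h1 := h.hp s ⟨m, hs⟩ hs0
  have h2 := h.dx
  rw [← hs] at h2; simp at h2
  omega

lemma IsBr.append {a b u w} (hu : IsBr a u) (hw : IsBr b w) : IsBr (a + b) (u ++ w) := by
  refine ⟨?_, ?_, ?_, ?_⟩
  · intro m hm h1 h2
    rcases infix_append_cases hm with h | h | ⟨m1, m2, h3, h4, h5, h6, rfl⟩
    · exact hu.saw m h h1 h2
    · exact hw.saw m h h1 h2
    · have := hu.suffix_nonneg h3
      have := hw.hp _ h4 h6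
      simp at h1; omega
  · intro m hm h0
    rcases prefix_append_cases hm with h | ⟨v, h3, h4, rfl⟩
    · exact hu.hp m h h0
    · have := hw.hp _ h3 h4
      have := hu.dx
      simp; omega
  · intro m hm
    rcases prefix_append_cases hm with h | ⟨v, h3, h4, rfl⟩
    · have := hu.le h; push_cast; omega
    · have := hw.le h3
      have := hu.dx
      simp; omega
  · simp [hu.dx, hw.dx]

lemma IsB.append {u w} (hu : IsB u) (hw : IsB w) : IsB (u ++ w) := by
  obtain ⟨a, hu⟩ := hu
  obtain ⟨b, hw⟩ := hw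
  exact ⟨_, hu.append hw⟩

lemma wd_append {u w} (hu : IsB u) (hw : IsB w) : wd (u ++ w) = wd u + wd w := by
  obtain ⟨a, hu⟩ := hu
  obtain ⟨b, hw⟩ := hw
  rw [(hu.append hw).wd, hu.wd, hw.wd]

/-- `X = X1 ++ X2` is a splitting of the bridge `X` at the renewal line `c` -/
def Spl (c : ℕ) (X X1 X2 : List St) : Prop := X = X1 ++ X2 ∧ IsBr c X1 ∧ IsB X2

lemma Spl.refine {c c' : ℕ} {X X1 X2 Y1 Y2 : List St} (h : Spl c X X1 X2) (h' : Spl c' X Y1 Y2)
    (hc : c ≤ c') : ∃ M, Y1 = X1 ++ M ∧ X2 = M ++ Y2 ∧ IsBr (c' - c) M := by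
  obtain ⟨rfl, h1, h2⟩ := h
  obtain ⟨h0, h3, h4⟩ := h'
  rcases List.append_eq_append_iff.mp h0 with ⟨M, h5, h6⟩ | ⟨M, h5, h6⟩
  · refine ⟨M, h5, h6, ?_, ?_, ?_, ?_⟩
    · exact h3.saw.subw ⟨X1, [], by simp [h5]⟩
    · obtain ⟨a, h2⟩ := h2
      exact h2.hp.prew ⟨Y2, h6.symm⟩
    · intro u hu
      have := h3.le (u := X1 ++ u) (by
        rw [h5]; exact (List.prefix_append_right_inj X1).mpr hu)
      have h7 := h1.dx
      simp at this; omega
    · have h7 := h1.dx
      have h8 := h3.dx
      rw [h5] at h8; simp at h8; omega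
  · obtain ⟨a, h4⟩ := h4
    have hM : M = [] := by
      by_contra hM
      have h7 := h4.hp M ⟨X2, h6.symm⟩ hM
      have h8 := h1.dx
      have h9 := h3.dx
      rw [h5] at h8; simp at h8; omega
    subst hM
    simp at h5 h6
    have h8 : c = c' := by
      have h8 := h1.dx
      have h9 := h3.dx
      rw [h5] at h8; omega
    subst h8
    exact ⟨[], by simp [h5], by simp [h6], by simpa using isBr_nil⟩

lemma Spl.unique {c : ℕ} {X X1 X2 Y1 Y2 : List St} (h : Spl c X X1 X2) (h' : Spl c X Y1 Y2) :
    X1 = Y1 ∧ X2 = Y2 := by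
  obtain ⟨M, h1, h2, h3⟩ := h.refine h' le_rfl
  have : M = [] := by
    apply IsBr.eq_nil
    simpa using h3
  subst this
  simp at h1 h2
  exact ⟨h1.symm, h2⟩

/-! ### the reversal `rs` -/

/-- reversal of bridges -/
def rs : List St → List St
  | [] => []
  | s :: p => s :: p.reverse

@[simp] lemma rs_nil : rs [] = [] := rfl
@[simp] lemma rs_cons (s : St) (p) : rs (s :: p) = s :: p.reverse := rfl
@[simp] lemma rs_rs (w) : rs (rs w) = w := by cases w <;> simp [rs]
@[simp] lemma length_rs (w) : (rs w).length = w.length := by cases w <;> simp [rs]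
@[simp] lemma dx_rs (w) : dx (rs w) = dx w := by cases w <;> simp [rs]
@[simp] lemma dy_rs (w) : dy (rs w) = dy w := by cases w <;> simp [rs]
lemma rs_ng (w) : rs (ng w) = ng (rs w) := by cases w <;> simp [rs]

lemma IsBr.cons {a w} (h : IsBr a w) (ha : w ≠ []) : ∃ p, w = St.E :: p := by
  cases w with
  | nil => exact absurd rfl ha
  | cons s p =>
    obtain rfl := h.hp.head_E
    exact ⟨p, rfl⟩

lemma rs_append {a b u w} (hu : IsBr a u) (hw : IsBr b w) : rs (u ++ w) = rs w ++ rs u := by
  by_cases h1 : u = []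
  · simp [h1]
  by_cases h2 : w = []
  · simp [h2]
  obtain ⟨p, rfl⟩ := hu.cons h1
  obtain ⟨q, rfl⟩ := hw.cons h2
  simp

lemma IsBr.rs {a w} (h : IsBr a w) : IsBr a (rs w) := by
  by_cases h1 : w = []
  · subst h1; simpa using h
  obtain ⟨p, rfl⟩ := h.cons h1
  have key : ∀ u, u <+: St.E :: p.reverse → u ≠ [] → 0 < H981.dx u ∧ H981.dx u ≤ a := by
    intro u hu hu0
    cases u with
    | nil => exact absurd rfl hu0
    | cons s u' =>
      obtain ⟨rfl, hu'⟩ := List.cons_prefix_cons.mp hu
      have hs : u'.reverse <:+ p := by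
        rw [← List.reverse_prefix]; simpa using hu'
      have h2 : u'.reverse <:+ St.E :: p := hs.trans (List.suffix_cons _ _)
      have h3 := h.suffix_nonneg h2
      have h4 := h.suffix_lt h2 (by
        intro h5
        have := congrArg List.length h5
        have h6 := hs.length_le
        simp at this h6; omega)
      simp at h3 h4 ⊢
      omega
  refine ⟨?_, ?_, ?_, ?_⟩
  · intro m hm h2 h3
    simp only [rs_cons] at hm
    have hm' : m <:+: [St.E] ++ p.reverse := by simpa using hm
    have hm'' : m <+: St.E :: p.reverse ∨ m <:+: p.reverse := by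
      exact List.infix_cons_iff.mp hm
    rcases hm'' with h4 | h4
    · by_contra hne
      have := (key m h4 hne).1
      omega
    · have h5 : Saw p.reverse := (h.saw.subw (List.suffix_cons _ _).isInfix).reverse
      exact h5 m h4 h2 h3
  · intro u hu h0
    exact (key u hu h0).1
  · intro u hu
    by_cases h0 : u = []
    · subst h0; simp
    · exact (key u hu h0).2
  · simpa using h.dx

lemma IsB.rs {w} (h : IsB w) : IsB (rs w) := by
  obtain ⟨a, h⟩ := h; exact ⟨a, h.rs⟩

lemma wd_rs (w) : wd (rs w) = wd w := by simp [wd]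
lemma wd_ng (w) : wd (ng w) = wd w := by simp [wd]

end H981
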