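import Pool.Agent.H981R2.Sums
import Pool.Agent.H981R2.Words

/-!
Power series with coefficients in `ℝ≥0∞`, coefficientwise order, formal sums.
-/

namespace H981

open scoped ENNReal
open PowerSeries

abbrev PS := PowerSeries ℝ≥0∞

instance instPOPS : PartialOrder PS where
  le f g := ∀ n, coeff n f ≤ coeff n g
  le_refl f n := le_rfl
  le_trans f g h h1 h2 n := (h1 n).trans (h2 n)
  le_antisymm f g h1 h2 := PowerSeries.ext fun n => le_antisymm (h1 n) (h2 n)

lemma ps_le_def {f g : PS} : f ≤ g ↔ ∀ n, coeff n f ≤ coeff n g := Iff.rfl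

instance : AddLeftMono PS := ⟨by
  intro f g h hgh n
  change coeff n (f + g) ≤ coeff n (f + h)
  rw [map_add, map_add]
  gcongr
  exact hgh n⟩

instance : AddRightMono PS := ⟨by
  intro f g h hgh n
  change coeff n (g + f) ≤ coeff n (h + f)
  rw [map_add, map_add]
  gcongr
  exact hgh n⟩

lemma ps_mul_le {f g h : PS} (hgh : g ≤ h) : f * g ≤ f * h := by
  intro n
  rw [PowerSeries.coeff_mul, PowerSeries.coeff_mul]
  gcongr with p hp
  exact hgh _

instance : MulLeftMono PS := ⟨fun _ _ _ h => ps_mul_le h⟩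

instance : MulRightMono PS := ⟨by
  intro f g h hgh
  change g * f ≤ h * f
  rw [mul_comm g, mul_comm h]
  exact ps_mul_le hgh⟩

instance : CanonicallyOrderedAdd PS where
  exists_add_of_le := by
    intro f g h
    refine ⟨PowerSeries.mk fun n => coeff n g - coeff n f, ?_⟩
    ext n
    rw [map_add, coeff_mk, add_tsub_cancel_of_le (h n)]
  le_self_add f g n := by rw [map_add]; exact le_self_add
  le_add_self f g n := by rw [map_add]; exact le_add_self

/-- constant power series -/
noncomputable def cst (a : ℝ≥0∞) : PS := PowerSeries.C a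

lemma coeff_cst_mul (a : ℝ≥0∞) (f : PS) (n : ℕ) : coeff n (cst a * f) = a * coeff n f := by
  unfold cst; exact PowerSeries.coeff_C_mul n f a

lemma cst_mul (a b : ℝ≥0∞) : cst (a * b) = cst a * cst b := by unfold cst; exact map_mul _ _ _
lemma cst_add (a b : ℝ≥0∞) : cst (a + b) = cst a + cst b := by unfold cst; exact map_add _ _ _
@[simp] lemma cst_one : cst 1 = 1 := by unfold cst; exact map_one _
@[simp] lemma cst_zero : cst 0 = 0 := by unfold cst; exact map_zero _
lemma cst_pow (a : ℝ≥0∞) (k : ℕ) : cst (a ^ k) = cst a ^ k := by unfold cst; exact map_pow _ _ _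
lemma cst_natCast (k : ℕ) : cst (k : ℝ≥0∞) = (k : PS) := by unfold cst; exact map_natCast _ _

lemma cst_le {a b : ℝ≥0∞} (h : a ≤ b) : cst a ≤ cst b := by
  intro n
  have h1 := coeff_cst_mul a 1 n
  have h2 := coeff_cst_mul b 1 n
  rw [mul_one] at h1 h2
  rw [h1, h2]
  gcongr

/-- indicator -/
noncomputable def ii (p : Prop) : PS := cst (ind p)

lemma ii_of {p : Prop} (h : p) : ii p = 1 := by unfold ii; rw [ind_of h, cst_one]
lemma ii_not {p : Prop} (h : ¬ p) : ii p = 0 := by unfold ii; rw [ind_not h, cst_zero]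
lemma ii_mono {p q : Prop} (h : p → q) : ii p ≤ ii q := cst_le (ind_mono h)
lemma ii_and (p q : Prop) : ii (p ∧ q) = ii p * ii q := by unfold ii; rw [ind_and, cst_mul]
lemma ii_le_one (p : Prop) : ii p ≤ 1 := by
  rw [← cst_one]; exact cst_le (ind_le_one p)
lemma coeff_ii_mul (p : Prop) (f : PS) (n : ℕ) : coeff n (ii p * f) = ind p * coeff n f :=
  coeff_cst_mul _ _ _

/-- formal sum -/
noncomputable def fs {ι : Type*} (F : ι → PS) : PS := PowerSeries.mk fun n => ∑' i, coeff n (F i)

lemma coeff_fs {ι : Type*} (F : ι → PS) (n : ℕ) : coeff n (fs F) = ∑' i, coeff n (F i) := by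
  unfold fs; rw [coeff_mk]

lemma fs_mono {ι : Type*} {F G : ι → PS} (h : ∀ i, F i ≤ G i) : fs F ≤ fs G := by
  intro n
  rw [coeff_fs, coeff_fs]
  exact ENNReal.tsum_le_tsum fun i => h i n

lemma fs_congr {ι : Type*} {F G : ι → PS} (h : ∀ i, F i = G i) : fs F = fs G := by
  rw [show F = G from funext h]

lemma fs_add {ι : Type*} (F G : ι → PS) : fs (fun i => F i + G i) = fs F + fs G := by
  ext n
  rw [map_add, coeff_fs, coeff_fs, coeff_fs, ← ENNReal.tsum_add]
  congr 1

lemma fs_zero {ι : Type*} : fs (fun _ : ι => (0 : PS)) = 0 := by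
  ext n
  rw [coeff_fs]; simp

lemma mul_fs {ι : Type*} (c : PS) (F : ι → PS) : c * fs F = fs (fun i => c * F i) := by
  ext n
  rw [coeff_fs, PowerSeries.coeff_mul]
  simp_rw [PowerSeries.coeff_mul, coeff_fs]
  rw [Summable.tsum_finsetSum (fun _ _ => ENNReal.summable)]
  apply Finset.sum_congr rfl
  intro p _
  rw [ENNReal.tsum_mul_left]

lemma fs_mul {ι : Type*} (c : PS) (F : ι → PS) : fs F * c = fs (fun i => F i * c) := by
  rw [mul_comm, mul_fs]
  congr 1; ext1 i; ring

lemma fs_comm {ι κ : Type*} (F : ι → κ → PS) :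
    fs (fun i => fs (fun j => F i j)) = fs (fun j => fs (fun i => F i j)) := by
  ext n
  rw [coeff_fs, coeff_fs]
  simp_rw [coeff_fs]
  exact ENNReal.tsum_comm

lemma fs_prod {ι κ : Type*} (F : ι × κ → PS) :
    fs F = fs (fun i => fs (fun j => F (i, j))) := by
  ext n
  rw [coeff_fs, coeff_fs]
  simp_rw [coeff_fs]
  exact ENNReal.tsum_prod'

lemma fs_single {ι : Type*} (F : ι → PS) (i : ι) (h : ∀ j, j ≠ i → F j = 0) : fs F = F i := by
  ext n
  rw [coeff_fs, tsum_eq_single i]
  intro j hj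
  rw [h j hj, map_zero]

lemma le_fs {ι : Type*} (F : ι → PS) (i : ι) : F i ≤ fs F := by
  intro n
  rw [coeff_fs]
  exact ENNReal.le_tsum i

lemma fs_mul_fs {ι κ : Type*} (F : ι → PS) (G : κ → PS) :
    fs F * fs G = fs (fun p : ι × κ => F p.1 * G p.2) := by
  rw [fs_prod, fs_mul]
  congr 1; ext1 i
  rw [mul_fs]

lemma fs_sum {ι κ : Type*} (s : Finset κ) (F : κ → ι → PS) :
    fs (fun i => ∑ k ∈ s, F k i) = ∑ k ∈ s, fs (F k) := by
  classical
  induction s using Finset.induction_on with
  | empty => simp [fs_zero]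
  | insert a s ha ih =>
    rw [Finset.sum_insert ha, ← ih, ← fs_add]
    congr 1; ext1 i
    rw [Finset.sum_insert ha]

theorem fs_inj {α β : Type*} (P : α → Prop) (Q : β → Prop) (g : α → PS) (h : β → PS)
    (f : α → β) (hinj : ∀ a b, P a → P b → f a = f b → a = b) (hQ : ∀ a, P a → Q (f a))
    (hg : ∀ a, P a → g a ≤ h (f a)) :
    fs (fun a => ii (P a) * g a) ≤ fs (fun b => ii (Q b) * h b) := by
  intro n
  rw [coeff_fs, coeff_fs]
  simp_rw [coeff_ii_mul]
  exact tsum_inj P Q (fun a => coeff n (g a)) (fun b => coeff n (h b)) f hinj hQ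
    (fun a ha => hg a ha n)

theorem fs_cover {α β : Type*} (P : α → Prop) (Q : β → Prop) (g : α → PS) (h : β → PS)
    (π : β → α) (hc : ∀ a, P a → ∃ b, Q b ∧ π b = a ∧ g a ≤ h b) :
    fs (fun a => ii (P a) * g a) ≤ fs (fun b => ii (Q b) * h b) := by
  intro n
  rw [coeff_fs, coeff_fs]
  simp_rw [coeff_ii_mul]
  refine tsum_cover P Q (fun a => coeff n (g a)) (fun b => coeff n (h b)) π ?_
  intro a ha
  obtain ⟨b, h1, h2, h3⟩ := hc a ha
  exact ⟨b, h1, h2, h3 n⟩

/-- weight of a word -/
noncomputable def xl (w : List St) : PS := (PowerSeries.X : PS) ^ w.length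

lemma xl_append (u w : List St) : xl (u ++ w) = xl u * xl w := by
  unfold xl; rw [List.length_append, pow_add]

@[simp] lemma xl_nil : xl [] = 1 := by simp [xl]

lemma coeff_xl (w : List St) (n : ℕ) : coeff n (xl w) = ind (w.length = n) := by
  classical
  unfold xl ind
  rw [coeff_X_pow]
  by_cases h : n = w.length
  · simp [h]
  · have : ¬ w.length = n := fun h' => h h'.symm
    simp [h, this]

/-- `k` as a formal sum -/
lemma cst_nat_eq (k : ℕ) : cst (k : ℝ≥0∞) = fs (fun m : ℕ => ii (m < k) * 1) := by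
  ext n
  rw [coeff_fs]
  simp_rw [coeff_ii_mul]
  rw [tsum_eq_sum (s := Finset.range k)]
  · rw [Finset.sum_congr rfl (g := fun _ => coeff n (1 : PS))]
    · rw [Finset.sum_const, Finset.card_range, nsmul_eq_mul]
      have := coeff_cst_mul (k : ℝ≥0∞) 1 n
      rwa [mul_one] at this
    · intro m hm
      rw [Finset.mem_range] at hm
      rw [ind_of hm, one_mul]
  · intro m hm
    rw [Finset.mem_range] at hm
    rw [ind_not hm, zero_mul]

end H981
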