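import Pool.Agent.H981R2.HalfP

/-!
Truncated version of the chain argument: the hypothesis on `Es` is only needed for the
coefficients up to `N`.
-/

namespace H981

open scoped ENNReal
open PowerSeries

/-- coefficientwise comparison up to degree `N` -/
def LeT (N : ℕ) (f g : PS) : Prop := ∀ n ≤ N, coeff n f ≤ coeff n g

lemma LeT.of_le {N : ℕ} {f g : PS} (h : f ≤ g) : LeT N f g := fun n _ => h n

lemma LeT.rfl' {N : ℕ} {f : PS} : LeT N f f := fun _ _ => le_rfl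

lemma LeT.trans {N : ℕ} {f g h : PS} (h1 : LeT N f g) (h2 : LeT N g h) : LeT N f h :=
  fun n hn => (h1 n hn).trans (h2 n hn)

lemma LeT.add {N : ℕ} {f g f' g' : PS} (h1 : LeT N f g) (h2 : LeT N f' g') :
    LeT N (f + f') (g + g') := by
  intro n hn
  rw [map_add, map_add]
  exact add_le_add (h1 n hn) (h2 n hn)

lemma LeT.mul_left {N : ℕ} {f g : PS} (h : LeT N f g) (k : PS) : LeT N (k * f) (k * g) := by
  intro n hn
  rw [PowerSeries.coeff_mul, PowerSeries.coeff_mul]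
  apply Finset.sum_le_sum
  rintro ⟨i, j⟩ hij
  rw [Finset.HasAntidiagonal.mem_antidiagonal] at hij
  simp only at hij
  exact mul_le_mul' le_rfl (h j (by omega))

lemma LeT.mul_right {N : ℕ} {f g : PS} (h : LeT N f g) (k : PS) : LeT N (f * k) (g * k) := by
  rw [mul_comm f, mul_comm g]
  exact h.mul_left k

/-- truncated norm -/
def NmT (N : ℕ) (c : ℝ≥0∞) (f : PS) : Prop := LeT N (f * Bs) (cst c * Bs)

lemma Nm.toT {c : ℝ≥0∞} {f : PS} (h : Nm c f) (N : ℕ) : NmT N c f := LeT.of_le h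

lemma NmT.mul {N : ℕ} {a b : ℝ≥0∞} {f g : PS} (hf : NmT N a f) (hg : NmT N b g) :
    NmT N (a * b) (f * g) := by
  unfold NmT at *
  have h1 := hg.mul_left f
  have h2 := hf.mul_left (cst b)
  have e1 : f * g * Bs = f * (g * Bs) := by ring
  have e2 : f * (cst b * Bs) = cst b * (f * Bs) := by ring
  have e3 : cst b * (cst a * Bs) = cst (a * b) * Bs := by rw [cst_mul]; ring
  rw [e1, ← e3]
  rw [e2] at h1
  exact h1.trans h2

lemma NmT.add {N : ℕ} {a b : ℝ≥0∞} {f g : PS} (hf : NmT N a f) (hg : NmT N b g) :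
    NmT N (a + b) (f + g) := by
  unfold NmT at *
  have h := LeT.add hf hg
  rwa [← add_mul, ← add_mul, ← cst_add] at h

lemma NmT.mono' {N : ℕ} {c : ℝ≥0∞} {f g : PS} (hg : NmT N c g) (h : LeT N f g) : NmT N c f :=
  (h.mul_right Bs).trans hg

lemma NmT.mono {N : ℕ} {c : ℝ≥0∞} {f g : PS} (hg : NmT N c g) (h : f ≤ g) : NmT N c f :=
  hg.mono' (LeT.of_le h)

lemma NmT.weaken {N : ℕ} {c c' : ℝ≥0∞} {f : PS} (hf : NmT N c f) (h : c ≤ c') : NmT N c' f :=
  LeT.trans hf (LeT.mul_right (LeT.of_le (cst_le h)) Bs)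

lemma NmT_cst (N : ℕ) (c : ℝ≥0∞) : NmT N c (cst c) := LeT.rfl'

lemma NmT_one (N : ℕ) : NmT N 1 1 := Nm_one.toT N

lemma NmT.pow {N : ℕ} {c : ℝ≥0∞} {f : PS} (hf : NmT N c f) (k : ℕ) : NmT N (c ^ k) (f ^ k) := by
  induction k with
  | zero => simpa using NmT_one N
  | succ k ih => rw [pow_succ, pow_succ]; exact ih.mul hf

lemma NmT.sum {N : ℕ} {ι : Type*} (s : Finset ι) {c : ι → ℝ≥0∞} {f : ι → PS}
    (h : ∀ i ∈ s, NmT N (c i) (f i)) : NmT N (∑ i ∈ s, c i) (∑ i ∈ s, f i) := by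
  classical
  induction s using Finset.induction_on with
  | empty =>
    have := NmT_cst N 0
    simpa using this
  | insert a s ha ih =>
    rw [Finset.sum_insert ha, Finset.sum_insert ha]
    exact (h a (by simp)).add (ih fun i hi => h i (by simp [hi]))

lemma NmT.prod {N : ℕ} {ι : Type*} (s : Finset ι) {c : ι → ℝ≥0∞} {f : ι → PS}
    (h : ∀ i ∈ s, NmT N (c i) (f i)) : NmT N (∏ i ∈ s, c i) (∏ i ∈ s, f i) := by
  classical
  induction s using Finset.induction_on with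
  | empty => simpa using NmT_one N
  | insert a s ha ih =>
    rw [Finset.prod_insert ha, Finset.prod_insert ha]
    exact (h a (by simp)).mul (ih fun i hi => h i (by simp [hi]))

lemma NmT_eb {N : ℕ} {c : ℝ} (hc : 0 ≤ c) {A : PS} (hA : NmT N (ENNReal.ofReal c) A) (k : ℕ) :
    NmT N (ENNReal.ofReal (Real.exp c)) (eb k A) := by
  refine NmT.weaken ?_ (sum_pow_le_exp hc k)
  unfold eb
  exact NmT.sum _ fun j _ => (NmT_cst N _).mul (hA.pow j)

/-- the truncated bound at one dyadic scale -/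
theorem scale_boundT {N r : ℕ} (hr : 1 ≤ r) {c : ℝ} (hc : 0 ≤ c)
    (hE : LeT N (Es (2 * r)) (cst (ENNReal.ofReal c) * Us (16 * r))) :
    NmT N (ENNReal.ofReal ((2 * r + 1) * 5 * Real.exp (1024 * c ^ 2))) (Rr r r []) := by
  have hr0 : (r : ℝ≥0∞) ≠ 0 := by simp; omega
  have hrt : (r : ℝ≥0∞) ≠ ⊤ := ENNReal.natCast_ne_top r
  have hrr : (0 : ℝ) < r := by exact_mod_cast hr
  -- KU
  have nKU : Nm 4 (cst ((r : ℝ≥0∞)⁻¹) * Ks (2 * r) * Us (2 * r)) := by
    have h1 := (Nm_cst ((r : ℝ≥0∞)⁻¹)).mul (Nm_KU (2 * r))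
    have e : cst ((r : ℝ≥0∞)⁻¹) * Ks (2 * r) * Us (2 * r) =
        cst ((r : ℝ≥0∞)⁻¹) * (Ks (2 * r) * Us (2 * r)) := by ring
    rw [e]
    refine h1.weaken ?_
    have : ((2 * (2 * r) : ℕ) : ℝ≥0∞) = r * 4 := by push_cast; ring
    rw [this, ← mul_assoc, ENNReal.inv_mul_cancel hr0 hrt, one_mul]
  -- KE
  have nKE : NmT N (ENNReal.ofReal (32 * c)) (cst ((r : ℝ≥0∞)⁻¹) * (Ks (2 * r) * Es (2 * r))) := by
    have h1 : LeT N (cst ((r : ℝ≥0∞)⁻¹) * (Ks (2 * r) * Es (2 * r)))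
        (cst ((r : ℝ≥0∞)⁻¹) * (cst (ENNReal.ofReal c) * (Ks (16 * r) * Us (16 * r)))) := by
      have g1 : LeT N (Ks (2 * r) * Es (2 * r))
          (Ks (16 * r) * (cst (ENNReal.ofReal c) * Us (16 * r))) :=
        (hE.mul_left (Ks (2 * r))).trans (LeT.mul_right (LeT.of_le (Ks_mono (by omega))) _)
      have g2 := g1.mul_left (cst ((r : ℝ≥0∞)⁻¹))
      have e : cst ((r : ℝ≥0∞)⁻¹) * (Ks (16 * r) * (cst (ENNReal.ofReal c) * Us (16 * r))) =
        cst ((r : ℝ≥0∞)⁻¹) * (cst (ENNReal.ofReal c) * (Ks (16 * r) * Us (16 * r))) := by ring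
      rwa [e] at g2
    refine NmT.mono' ?_ h1
    have h2 := (Nm_cst ((r : ℝ≥0∞)⁻¹)).mul ((Nm_cst (ENNReal.ofReal c)).mul (Nm_KU (16 * r)))
    refine (h2.weaken ?_).toT N
    have : ((2 * (16 * r) : ℕ) : ℝ≥0∞) = r * 32 := by push_cast; ring
    rw [this, ENNReal.ofReal_mul (by norm_num)]
    have h8 : ENNReal.ofReal 32 = 32 := by norm_num
    rw [h8]
    calc (r : ℝ≥0∞)⁻¹ * (ENNReal.ofReal c * (r * 32))
        = ((r : ℝ≥0∞)⁻¹ * r) * (32 * ENNReal.ofReal c) := by ring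
      _ = 32 * ENNReal.ofReal c := by rw [ENNReal.inv_mul_cancel hr0 hrt, one_mul]
      _ ≤ _ := le_rfl
  have nA : NmT N (ENNReal.ofReal (1024 * c ^ 2)) (∑ l ∈ Finset.range r, as r l (2 * r)) := by
    refine NmT.mono ?_ (sum_as_le hr le_rfl le_rfl)
    refine (nKE.mul nKE).weaken ?_
    rw [← ENNReal.ofReal_mul (by positivity)]
    apply ENNReal.ofReal_le_ofReal
    nlinarith
  have nP : NmT N (ENNReal.ofReal (Real.exp (1024 * c ^ 2)))
      (∏ l ∈ Finset.range r, (1 + as r l (2 * r))) :=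
    (NmT_eb (by positivity) nA r).mono (prod_le_eb _ r)
  have h1 : Rr r r [] ≤ Us (2 * r) * ((1 + cst ((r : ℝ≥0∞)⁻¹) * Ks (2 * r) * Us (2 * r)) *
      ∏ l ∈ Finset.range r, (1 + as r l (2 * r))) := by
    refine (Rr_le_Ns hr le_rfl le_rfl isB_nil).trans ?_
    gcongr
    · exact Ns_nil_le _
    · exact gronwall (fun k => G1 r k (2 * r)) (fun l => as r l (2 * r)) _ r
        (fun k hk => G1_le hr le_rfl hk) r le_rfl
  refine NmT.mono ?_ h1
  refine (((Nm_U (2 * r)).toT N).mul (((Nm_one.add nKU).toT N).mul nP)).weaken ?_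
  have e1 : ((2 * r + 1 : ℕ) : ℝ≥0∞) = ENNReal.ofReal (2 * r + 1) := by
    rw [← ENNReal.ofReal_natCast]; congr 1; push_cast; ring
  have e2 : (1 + 4 : ℝ≥0∞) = ENNReal.ofReal 5 := by norm_num
  rw [e1, e2, ← ENNReal.ofReal_mul (by norm_num), ← ENNReal.ofReal_mul (by positivity)]
  apply ENNReal.ofReal_le_ofReal
  nlinarith [Real.exp_pos (1024 * c ^ 2)]

/-- the truncated bound for all scales -/
theorem all_scalesT {N : ℕ} {c : ℝ} (hc : 0 ≤ c) (M : ℕ) (hM : ∀ i < M, 2 ^ i ≤ N)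
    (hE : ∀ W, 1 ≤ W → W ≤ 2 * N → LeT N (Es W) (cst (ENNReal.ofReal c) * Us (8 * W))) :
    NmT N (ENNReal.ofReal (∏ i ∈ Finset.range M, ((2 * 2 ^ i + 1) * 5 * Real.exp (1024 * c ^ 2))))
      (Rr 1 (2 ^ M - 1) []) := by
  refine NmT.mono ?_ (Rr_prod M)
  rw [ENNReal.ofReal_prod_of_nonneg (fun i _ => by positivity)]
  apply NmT.prod
  intro i hi
  rw [Finset.mem_range] at hi
  have hp : 1 ≤ 2 ^ i := Nat.one_le_two_pow
  have hM' := hM i hi
  have h1 := hE (2 * 2 ^ i) (by omega) (by omega)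
  have e : 8 * (2 * 2 ^ i) = 16 * 2 ^ i := by ring
  rw [e] at h1
  have := scale_boundT (r := 2 ^ i) hp hc h1
  push_cast at this
  exact this

lemma hh_le_of_NmT {N : ℕ} (hN : N ≠ 0) {M : ℕ} (hM : N ≤ 2 ^ M - 1) {c : ℝ≥0∞}
    (h : NmT N c (Rr 1 (2 ^ M - 1) [])) : hh N ≤ c * bn N := by
  calc hh N ≤ coeff N (Rr 1 N []) := hh_le_coeff hN
    _ ≤ coeff N (Rr 1 (2 ^ M - 1) []) := Rr_mono 1 hM [] N
    _ ≤ coeff N (Rr 1 (2 ^ M - 1) [] * Bs) := by
        have : Rr 1 (2 ^ M - 1) [] * 1 ≤ Rr 1 (2 ^ M - 1) [] * Bs := by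
          gcongr
          exact one_le_Bs
        rw [mul_one] at this
        exact this N
    _ ≤ coeff N (cst c * Bs) := h N le_rfl
    _ = _ := by rw [coeff_cst_mul]; rfl

lemma log_two_gt' : (1 / 2 : ℝ) < Real.log 2 := by
  have := Real.log_two_gt_d9; linarith

/-- half-plane walks versus bridges under a truncated hypothesis -/
theorem hh_le_T {N : ℕ} (hN : 2 ≤ N) {c : ℝ} (hc : 0 ≤ c)
    (hE : ∀ W, 1 ≤ W → W ≤ 2 * N → LeT N (Es W) (cst (ENNReal.ofReal c) * Us (8 * W))) :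
    hh N ≤ ENNReal.ofReal (Real.exp (4 * Real.log N * (7 * Real.log N + 1024 * c ^ 2))) * bn N := by
  have hNr : (2 : ℝ) ≤ N := by exact_mod_cast hN
  have hN0 : (0 : ℝ) < N := by linarith
  have hl2 := log_two_gt'
  have hlN : Real.log 2 ≤ Real.log N := Real.log_le_log (by norm_num) hNr
  obtain ⟨M, hMdef⟩ : ∃ M, M = Nat.log 2 N + 1 := ⟨_, rfl⟩
  have hM1 : N < 2 ^ M := by rw [hMdef]; exact Nat.lt_pow_succ_log_self (by norm_num) N
  have hM2 : ∀ i < M, 2 ^ i ≤ N := by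
    intro i hi
    calc 2 ^ i ≤ 2 ^ (Nat.log 2 N) := Nat.pow_le_pow_right (by norm_num) (by omega)
      _ ≤ N := Nat.pow_log_le_self 2 (by omega)
  have h1 := hh_le_of_NmT (N := N) (by omega) (M := M) (by omega) (all_scalesT hc M hM2 hE)
  refine h1.trans ?_
  gcongr
  have hfac : ∀ i ∈ Finset.range M, ((2 * (2:ℝ) ^ i + 1) * 5 * Real.exp (1024 * c ^ 2)) ≤
      Real.exp (7 * Real.log N + 1024 * c ^ 2) := by
    intro i hi
    rw [Finset.mem_range] at hi
    have h2 : ((2 : ℝ) ^ i) ≤ N := by exact_mod_cast hM2 i hi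
    rw [Real.exp_add]
    gcongr
    have h3 : (15 : ℝ) ≤ Real.exp (6 * Real.log N) := by
      have : Real.exp 3 ≤ Real.exp (6 * Real.log N) := by
        apply Real.exp_le_exp.mpr; linarith
      refine le_trans ?_ this
      have h3 : (2.7:ℝ) ≤ Real.exp 1 := by
        have := Real.exp_one_gt_d9; linarith
      calc (15:ℝ) ≤ 2.7 ^ 3 := by norm_num
        _ ≤ (Real.exp 1) ^ 3 := by gcongr
        _ = Real.exp 3 := by rw [← Real.exp_nat_mul]; norm_num
    have h4 : Real.exp (7 * Real.log N) = Real.exp (6 * Real.log N) * N := by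
      rw [show 7 * Real.log N = 6 * Real.log N + Real.log N by ring, Real.exp_add,
        Real.exp_log hN0]
    rw [h4]
    nlinarith
  have hM3 : (M : ℝ) ≤ 4 * Real.log N := by
    have h2 : ((Nat.log 2 N : ℕ) : ℝ) * Real.log 2 ≤ Real.log N := by
      rw [← Real.log_pow]
      apply Real.log_le_log (by positivity)
      exact_mod_cast Nat.pow_log_le_self 2 (by omega : N ≠ 0)
    rw [hMdef]
    push_cast
    nlinarith
  calc ∏ i ∈ Finset.range M, ((2 * (2:ℝ) ^ i + 1) * 5 * Real.exp (1024 * c ^ 2))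
      ≤ ∏ i ∈ Finset.range M, Real.exp (7 * Real.log N + 1024 * c ^ 2) :=
        Finset.prod_le_prod (fun i _ => by positivity) hfac
    _ = Real.exp (M * (7 * Real.log N + 1024 * c ^ 2)) := by
        rw [Finset.prod_const, Finset.card_range, ← Real.exp_nat_mul]
    _ ≤ _ := by
        apply Real.exp_le_exp.mpr
        have : 0 ≤ 7 * Real.log N + 1024 * c ^ 2 := by
          have : 0 ≤ Real.log N := by linarith
          positivity
        gcongr

end H981
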